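import Pool.Agent.Lib.MP_50bb2e_nt.Low.IfaceB

/-! Board LOW, row AVG (helper84). -/

namespace Pool.Agent.Lib.MP_50bb2e_nt.Low.AvgB

open Pool.Agent.Lib.MP_50bb2e_nt.Qtw (Dyadic Lip)
open Pool.Agent.Lib.MP_50bb2e_nt.Low

noncomputable section

/-- the element number `m` of `s` -/
def pick (s : Finset ℕ) (m : ℕ) : ℕ := if h : m < s.card then s.orderEmbOfFin rfl ⟨m, h⟩ else 0

lemma pick_mem {s : Finset ℕ} {m : ℕ} (h : m < s.card) : pick s m ∈ s := by
  unfold pick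
  rw [dif_pos h]
  exact Finset.orderEmbOfFin_mem _ _ _

lemma pick_inj {s : Finset ℕ} {m m' : ℕ} (h : m < s.card) (h' : m' < s.card)
    (e : pick s m = pick s m') : m = m' := by
  unfold pick at e
  rw [dif_pos h, dif_pos h'] at e
  have := (s.orderEmbOfFin rfl).injective e
  simpa using this

/-- the element of the slot `i` at scale `a` -/
def El (g : ℕ) {R N : ℕ} (Q : ℕ → Set ℕ) (t : Fin R → Fin N) (i : Fin R) (a : ℕ) : ℕ :=
  pick (BlkB g (Q i) a) ((t i : ℕ) % (BlkB g (Q i) a).card)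

lemma el_mem {g R N : ℕ} {Q : ℕ → Set ℕ} {t : Fin R → Fin N} {i : Fin R} {a : ℕ}
    (h : 0 < (BlkB g (Q i) a).card) : El g Q t i a ∈ BlkB g (Q i) a := pick_mem (Nat.mod_lt _ h)

lemma blk_mem {g : ℕ} {P : Set ℕ} {a p : ℕ} (h : p ∈ BlkB g P a) : g ^ a ≤ p ∧ p < g ^ (a + 1) ∧ p ∈ P := by
  classical
  unfold BlkB at h
  rw [Finset.mem_filter, Finset.mem_Ico] at h
  exact ⟨h.1.1, h.1.2, h.2⟩

lemma blk_eq {g : ℕ} (hg : 2 ≤ g) {P : Set ℕ} {a b p : ℕ} (h : p ∈ BlkB g P a) (h' : p ∈ BlkB g P b) : a = b := by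
  obtain ⟨h1, h2, -⟩ := blk_mem h
  obtain ⟨h3, h4, -⟩ := blk_mem h'
  have e1 : a < b + 1 := (Nat.pow_lt_pow_iff_right (show 1 < g by omega)).1 (h1.trans_lt h4)
  have e2 : b < a + 1 := (Nat.pow_lt_pow_iff_right (show 1 < g by omega)).1 (h3.trans_lt h2)
  omega

open Classical in
/-- the set attached to the parameters -/
def wset (g : ℕ) {R H N : ℕ} (Q : ℕ → Set ℕ) (M c A : ℕ) (S Y : Finset (Fin R)) (u : Fin R → Fin H)
    (t : Fin R → Fin N) : Finset ℕ :=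
  S.image (fun i => El g Q t i (scl M c A S Y u i).toNat)

lemma fiber {g : ℕ} (hg : 2 ≤ g) (h3 : UcntStatement) (h4 : TcntStatement) {R H N M c A : ℕ} (Q : ℕ → Set ℕ)
    (hQd : ∀ i j, i ≠ j → Disjoint (Q i) (Q j)) (hM : 0 < M) (hN : 0 < N)
    (S Y : Finset (Fin R)) (hYS : Y ⊆ S) (hY : Y.card = M) (hS : S.card = 2 * M)
    (hscl : ∀ (u : Fin R → Fin H), ∀ i ∈ S,
      (c : ℤ) ≤ 2 * scl M c A S Y u i ∧ scl M c A S Y u i ≤ 2 * c)
    (hpos : ∀ i : Fin R, ∀ a : ℕ, c ≤ 2 * a → a ≤ 2 * c → 0 < (BlkB g (Q i) a).card)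
    (hdvd : ∀ i : Fin R, ∀ a : ℕ, c ≤ 2 * a → a ≤ 2 * c → (BlkB g (Q i) a).card ∣ N)
    (L : ℝ) (hL : ∀ α : Fin R → ℕ, (∀ i ∈ S, c ≤ 2 * α i ∧ α i ≤ 2 * c) →
      ∑ i ∈ S, α i = M * A → L ≤ ∏ i ∈ S, ((BlkB g (Q i) (α i)).card : ℝ))
    (w : Finset ℕ) :
    (((Finset.univ : Finset ((Fin R → Fin H) × (Fin R → Fin N))).filter
      (fun x => wset g Q M c A S Y x.1 x.2 = w)).card : ℝ) * L ≤
      (H : ℝ) ^ (R + 1 - 2 * M) * (N : ℝ) ^ R := by
  classical
  rcases ((Finset.univ : Finset ((Fin R → Fin H) × (Fin R → Fin N))).filter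
      (fun x => wset g Q M c A S Y x.1 x.2 = w)).eq_empty_or_nonempty with he | ⟨⟨u₀, t₀⟩, h0⟩
  · rw [he, Finset.card_empty, Nat.cast_zero, zero_mul]
    positivity
  · rw [Finset.mem_filter] at h0
    have hw0 : wset g Q M c A S Y u₀ t₀ = w := h0.2
    obtain ⟨hsum, hu⟩ := h3 R H M c A S Y hM hYS hY hS
    obtain ⟨α, hαdef⟩ : ∃ α : Fin R → ℕ, α = fun i => (scl M c A S Y u₀ i).toNat := ⟨_, rfl⟩
    have hα : ∀ i ∈ S, (α i : ℤ) = scl M c A S Y u₀ i := by
      intro i hi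
      have := hscl u₀ i hi
      rw [hαdef]
      simp only
      omega
    have hα2 : ∀ i ∈ S, c ≤ 2 * α i ∧ α i ≤ 2 * c := by
      intro i hi
      have := hscl u₀ i hi
      have h' := hα i hi
      omega
    have hαs : ∑ i ∈ S, α i = M * A := by
      have := hsum u₀
      rw [← Finset.sum_congr rfl hα] at this
      exact_mod_cast this
    have hLL := hL α hα2 hαs
    have ht := h4 R N S (fun i => (BlkB g (Q i) (α i)).card)
      (fun i => (t₀ i : ℕ) % (BlkB g (Q i) (α i)).card) hN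
      (fun i hi => ⟨hpos i _ (hα2 i hi).1 (hα2 i hi).2, hdvd i _ (hα2 i hi).1 (hα2 i hi).2⟩)
    have hsub : (Finset.univ : Finset ((Fin R → Fin H) × (Fin R → Fin N))).filter
        (fun x => wset g Q M c A S Y x.1 x.2 = w) ⊆
        ((Finset.univ : Finset (Fin R → Fin H)).filter
          (fun u => ∀ i ∈ S, scl M c A S Y u i = scl M c A S Y u₀ i)) ×ˢ
        ((Finset.univ : Finset (Fin R → Fin N)).filter
          (fun t => ∀ i ∈ S, (t i : ℕ) % (BlkB g (Q i) (α i)).card =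
            (t₀ i : ℕ) % (BlkB g (Q i) (α i)).card)) := by
      rintro ⟨u, t⟩ hx
      rw [Finset.mem_filter] at hx
      have hx2 : wset g Q M c A S Y u t = w := hx.2
      have key : ∀ i ∈ S, scl M c A S Y u i = scl M c A S Y u₀ i ∧
          (t i : ℕ) % (BlkB g (Q i) (α i)).card = (t₀ i : ℕ) % (BlkB g (Q i) (α i)).card := by
        intro i hi
        have hb := hscl u i hi
        have hb0 := hscl u₀ i hi
        have hp1 : 0 < (BlkB g (Q i) (scl M c A S Y u i).toNat).card :=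
          hpos i _ (by omega) (by omega)
        have hm1 : El g Q t i (scl M c A S Y u i).toNat ∈ w := by
          rw [← hx2]
          exact Finset.mem_image_of_mem _ hi
        rw [← hw0] at hm1
        unfold wset at hm1
        rw [Finset.mem_image] at hm1
        obtain ⟨j, hj, hje⟩ := hm1
        have hbj := hscl u₀ j hj
        have hp2 : 0 < (BlkB g (Q j) (scl M c A S Y u₀ j).toNat).card :=
          hpos j _ (by omega) (by omega)
        have m1 := el_mem (t := t) hp1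
        have m2 := el_mem (t := t₀) hp2
        have hij : i = j := by
          by_contra hne
          have hne' : (i : ℕ) ≠ (j : ℕ) := fun h => hne (Fin.ext h)
          rw [hje] at m2
          exact Set.disjoint_left.1 (hQd i j hne') (blk_mem m1).2.2 (blk_mem m2).2.2
        subst hij
        rw [hje] at m2
        have e1 := blk_eq hg m1 m2
        have e2 : scl M c A S Y u i = scl M c A S Y u₀ i := by omega
        refine ⟨e2, ?_⟩
        have e3 : (scl M c A S Y u₀ i).toNat = α i := by rw [hαdef]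
        rw [e2, e3] at hje
        rw [e3] at hp2
        unfold El at hje
        exact (pick_inj (Nat.mod_lt _ hp2) (Nat.mod_lt _ hp2) hje).symm
      rw [Finset.mem_product, Finset.mem_filter, Finset.mem_filter]
      exact ⟨⟨Finset.mem_univ _, fun i hi => (key i hi).1⟩,
        ⟨Finset.mem_univ _, fun i hi => (key i hi).2⟩⟩
    have hcard := Finset.card_le_card hsub
    rw [Finset.card_product] at hcard
    have hcard' : (((Finset.univ : Finset ((Fin R → Fin H) × (Fin R → Fin N))).filter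
        (fun x => wset g Q M c A S Y x.1 x.2 = w)).card : ℝ) ≤
        (H : ℝ) ^ (R + 1 - 2 * M) * (((Finset.univ : Finset (Fin R → Fin N)).filter
          (fun t => ∀ i ∈ S, (t i : ℕ) % (BlkB g (Q i) (α i)).card =
            (t₀ i : ℕ) % (BlkB g (Q i) (α i)).card)).card : ℝ) := by
      have := hcard.trans (Nat.mul_le_mul_right _ (hu (fun i => scl M c A S Y u₀ i)))
      exact_mod_cast this
    have ht' : (((Finset.univ : Finset (Fin R → Fin N)).filter
          (fun t => ∀ i ∈ S, (t i : ℕ) % (BlkB g (Q i) (α i)).card =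
            (t₀ i : ℕ) % (BlkB g (Q i) (α i)).card)).card : ℝ) *
          ∏ i ∈ S, ((BlkB g (Q i) (α i)).card : ℝ) ≤ (N : ℝ) ^ R := by
      exact_mod_cast ht
    have hprodnn : (0 : ℝ) ≤ ∏ i ∈ S, ((BlkB g (Q i) (α i)).card : ℝ) :=
      Finset.prod_nonneg fun i _ => Nat.cast_nonneg _
    calc (((Finset.univ : Finset ((Fin R → Fin H) × (Fin R → Fin N))).filter
        (fun x => wset g Q M c A S Y x.1 x.2 = w)).card : ℝ) * L
        ≤ (((Finset.univ : Finset ((Fin R → Fin H) × (Fin R → Fin N))).filter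
        (fun x => wset g Q M c A S Y x.1 x.2 = w)).card : ℝ) *
          ∏ i ∈ S, ((BlkB g (Q i) (α i)).card : ℝ) :=
          mul_le_mul_of_nonneg_left hLL (Nat.cast_nonneg _)
      _ ≤ ((H : ℝ) ^ (R + 1 - 2 * M) * (((Finset.univ : Finset (Fin R → Fin N)).filter
          (fun t => ∀ i ∈ S, (t i : ℕ) % (BlkB g (Q i) (α i)).card =
            (t₀ i : ℕ) % (BlkB g (Q i) (α i)).card)).card : ℝ)) *
          ∏ i ∈ S, ((BlkB g (Q i) (α i)).card : ℝ) :=
          mul_le_mul_of_nonneg_right hcard' hprodnn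
      _ = (H : ℝ) ^ (R + 1 - 2 * M) * ((((Finset.univ : Finset (Fin R → Fin N)).filter
          (fun t => ∀ i ∈ S, (t i : ℕ) % (BlkB g (Q i) (α i)).card =
            (t₀ i : ℕ) % (BlkB g (Q i) (α i)).card)).card : ℝ) *
          ∏ i ∈ S, ((BlkB g (Q i) (α i)).card : ℝ)) := by ring
      _ ≤ _ := mul_le_mul_of_nonneg_left ht' (by positivity)

/-- the bounds for the scales -/
lemma scl_bd {R H M A : ℕ} (hM : 0 < M) (hH : 4 * (M * H) ≤ (A + 1) / 2)
    (S Y : Finset (Fin R)) (hS : S.card = 2 * M) (u : Fin R → Fin H) (i : Fin R) :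
    (((A + 1) / 2 : ℕ) : ℤ) ≤ 2 * scl M ((A + 1) / 2) A S Y u i ∧
      scl M ((A + 1) / 2) A S Y u i ≤ 2 * (((A + 1) / 2 : ℕ) : ℤ) := by
  classical
  have h1 : (∑ j ∈ S, ((u j : ℕ) : ℤ)) ≤ 2 * ((M : ℤ) * H) - 2 * M := by
    have : (∑ j ∈ S, ((u j : ℕ) : ℤ)) ≤ ∑ j ∈ S, ((H : ℤ) - 1) := by
      refine Finset.sum_le_sum fun j _ => ?_
      have := (u j).isLt
      omega
    refine this.trans ?_
    rw [Finset.sum_const, nsmul_eq_mul, hS]
    push_cast
    apply le_of_eq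
    ring
  have h2 : 0 ≤ ∑ j ∈ S, ((u j : ℕ) : ℤ) := Finset.sum_nonneg fun j _ => by positivity
  have h3 : (M : ℤ) * (u i : ℕ) ≤ (M : ℤ) * H := by
    have := (u i).isLt
    exact mul_le_mul_of_nonneg_left (by exact_mod_cast this.le) (by positivity)
  have h4 : 0 ≤ (M : ℤ) * (u i : ℕ) := by positivity
  have h5 : 4 * ((M : ℤ) * H) ≤ (((A + 1) / 2 : ℕ) : ℤ) := by exact_mod_cast hH
  unfold scl
  generalize (∑ j ∈ S, ((u j : ℕ) : ℤ)) = s at *
  generalize (M : ℤ) * (u i : ℕ) = m at *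
  generalize (M : ℤ) * H = mh at *
  split_ifs with hi
  · omega
  · omega

/-- lower bound for the product of the sizes of the blocks -/
lemma blk_prod {g R M c A : ℕ} (Q : ℕ → Set ℕ) (c1 : ℝ) (hc1 : 0 < c1) (S : Finset (Fin R))
    (hS : S.card = 2 * M)
    (hQ : ∀ i : Fin R, ∀ a : ℕ, c ≤ 2 * a → c1 * (g : ℝ) ^ a / (a + 1) ≤ ((BlkB g (Q i) a).card : ℝ))
    (α : Fin R → ℕ) (hα : ∀ i ∈ S, c ≤ 2 * α i ∧ α i ≤ 2 * c) (hs : ∑ i ∈ S, α i = M * A) :
    (c1 / (2 * c + 1)) ^ (2 * M) * (g : ℝ) ^ (M * A) ≤ ∏ i ∈ S, ((BlkB g (Q i) (α i)).card : ℝ) := by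
  have h1 : ∏ i ∈ S, (c1 / (2 * (c : ℝ) + 1) * (g : ℝ) ^ (α i)) ≤
      ∏ i ∈ S, ((BlkB g (Q i) (α i)).card : ℝ) := by
    refine Finset.prod_le_prod (fun i _ => by positivity) fun i hi => ?_
    refine le_trans ?_ (hQ i (α i) (hα i hi).1)
    have h2 : ((α i : ℝ) + 1) ≤ 2 * (c : ℝ) + 1 := by
      have := (hα i hi).2
      have : ((α i : ℕ) : ℝ) ≤ ((2 * c : ℕ) : ℝ) := by exact_mod_cast this
      push_cast at this
      linarith
    rw [div_mul_eq_mul_div]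
    exact div_le_div_of_nonneg_left (by positivity) (by positivity) h2
  rwa [Finset.prod_mul_distrib, Finset.prod_const, hS, Finset.prod_pow_eq_pow_sum, hs] at h1

/-- the double counting -/
lemma count {g : ℕ} (hg : 2 ≤ g) (h3 : UcntStatement) (h4 : TcntStatement) {R H N M c A : ℕ} (Q : ℕ → Set ℕ)
    (hQd : ∀ i j, i ≠ j → Disjoint (Q i) (Q j)) (hM : 0 < M) (hN : 0 < N) (hH : 0 < H)
    (hR : R + 1 = 4 * M)
    (hscl : ∀ (S Y : Finset (Fin R)), S.card = 2 * M → ∀ (u : Fin R → Fin H), ∀ i : Fin R,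
      (c : ℤ) ≤ 2 * scl M c A S Y u i ∧ scl M c A S Y u i ≤ 2 * c)
    (hpos : ∀ i : Fin R, ∀ a : ℕ, c ≤ 2 * a → a ≤ 2 * c → 0 < (BlkB g (Q i) a).card)
    (hdvd : ∀ i : Fin R, ∀ a : ℕ, c ≤ 2 * a → a ≤ 2 * c → (BlkB g (Q i) a).card ∣ N)
    (L : ℝ) (hL : ∀ S : Finset (Fin R), S.card = 2 * M → ∀ α : Fin R → ℕ,
      (∀ i ∈ S, c ≤ 2 * α i ∧ α i ≤ 2 * c) →
      ∑ i ∈ S, α i = M * A → L ≤ ∏ i ∈ S, ((BlkB g (Q i) (α i)).card : ℝ)) (hL0 : 0 ≤ L)
    (W : Finset (Finset ℕ))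
    (hW : ∀ (u : Fin R → Fin H) (t : Fin R → Fin N), ∃ S Y : Finset (Fin R), Y ⊆ S ∧
      S.card = 2 * M ∧ Y.card = M ∧ wset g Q M c A S Y u t ∈ W) :
    (H : ℝ) ^ (2 * M - 1) * L ≤ 4 ^ R * (W.card : ℝ) := by
  classical
  obtain ⟨Pr, hPr⟩ : ∃ Pr : Finset (Finset (Fin R) × Finset (Fin R)),
      Pr = Finset.univ.filter (fun q => q.2 ⊆ q.1 ∧ q.1.card = 2 * M ∧ q.2.card = M) := ⟨_, rfl⟩
  have hPrc : Pr.card ≤ 4 ^ R := by
    rw [hPr]
    refine (Finset.card_le_univ _).trans ?_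
    rw [Fintype.card_prod, Fintype.card_finset, Fintype.card_fin, ← mul_pow]
    norm_num
  have hsub : (Finset.univ : Finset ((Fin R → Fin H) × (Fin R → Fin N))) ⊆
      (Pr ×ˢ W).biUnion (fun q => Finset.univ.filter
        (fun x => wset g Q M c A q.1.1 q.1.2 x.1 x.2 = q.2)) := by
    rintro ⟨u, t⟩ -
    obtain ⟨S, Y, hYS, hS, hY, hw⟩ := hW u t
    rw [Finset.mem_biUnion]
    refine ⟨((S, Y), wset g Q M c A S Y u t), ?_, ?_⟩
    · rw [Finset.mem_product, hPr, Finset.mem_filter]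
      exact ⟨⟨Finset.mem_univ _, hYS, hS, hY⟩, hw⟩
    · rw [Finset.mem_filter]
      exact ⟨Finset.mem_univ _, rfl⟩
  have hc1 := (Finset.card_le_card hsub).trans Finset.card_biUnion_le
  rw [Finset.card_univ, Fintype.card_prod, Fintype.card_fun, Fintype.card_fun, Fintype.card_fin,
    Fintype.card_fin, Fintype.card_fin] at hc1
  have hc2 : ((H : ℝ) ^ R * (N : ℝ) ^ R) * L ≤ ∑ q ∈ Pr ×ˢ W,
      (((Finset.univ : Finset ((Fin R → Fin H) × (Fin R → Fin N))).filter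
        (fun x => wset g Q M c A q.1.1 q.1.2 x.1 x.2 = q.2)).card : ℝ) * L := by
    rw [← Finset.sum_mul]
    refine mul_le_mul_of_nonneg_right ?_ hL0
    exact_mod_cast hc1
  have hc3 : ∑ q ∈ Pr ×ˢ W,
      (((Finset.univ : Finset ((Fin R → Fin H) × (Fin R → Fin N))).filter
        (fun x => wset g Q M c A q.1.1 q.1.2 x.1 x.2 = q.2)).card : ℝ) * L ≤
      ∑ q ∈ Pr ×ˢ W, (H : ℝ) ^ (R + 1 - 2 * M) * (N : ℝ) ^ R := by
    refine Finset.sum_le_sum fun q hq => ?_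
    rw [Finset.mem_product, hPr, Finset.mem_filter] at hq
    obtain ⟨⟨-, hYS, hS, hY⟩, -⟩ := hq
    exact fiber hg h3 h4 Q hQd hM hN q.1.1 q.1.2 hYS hY hS (fun u i _ => hscl _ _ hS u i) hpos hdvd
      L (hL _ hS) q.2
  rw [Finset.sum_const, nsmul_eq_mul, Finset.card_product] at hc3
  have hc4 := hc2.trans hc3
  have hHp : (0 : ℝ) < H := by exact_mod_cast hH
  have hNp : (0 : ℝ) < N := by exact_mod_cast hN
  have e1 : (H : ℝ) ^ R = (H : ℝ) ^ (R + 1 - 2 * M) * (H : ℝ) ^ (2 * M - 1) := by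
    rw [← pow_add]
    congr 1
    omega
  have hpp : 0 < (H : ℝ) ^ (R + 1 - 2 * M) * (N : ℝ) ^ R := by positivity
  refine le_of_mul_le_mul_right ?_ hpp
  calc (H : ℝ) ^ (2 * M - 1) * L * ((H : ℝ) ^ (R + 1 - 2 * M) * (N : ℝ) ^ R)
      = ((H : ℝ) ^ R * (N : ℝ) ^ R) * L := by rw [e1]; ring
    _ ≤ ((Pr.card * W.card : ℕ) : ℝ) * ((H : ℝ) ^ (R + 1 - 2 * M) * (N : ℝ) ^ R) := hc4
    _ ≤ (4 ^ R * (W.card : ℝ)) * ((H : ℝ) ^ (R + 1 - 2 * M) * (N : ℝ) ^ R) := by
        refine mul_le_mul_of_nonneg_right ?_ hpp.le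
        push_cast
        refine mul_le_mul_of_nonneg_right ?_ (Nat.cast_nonneg _)
        exact_mod_cast hPrc

/-- the final inequality -/
lemma final_ineq {g M c H A R : ℕ} (c1 W : ℝ) (hc1 : 0 < c1) (hM : 0 < M) (hc : 0 < c)
    (hcA : c ≤ A + 1) (hH : c ≤ 8 * M * H)
    (h : (H : ℝ) ^ (2 * M - 1) * ((c1 / (2 * c + 1)) ^ (2 * M) * (g : ℝ) ^ (M * A)) ≤ 4 ^ R * W) :
    ((1 / (8 * (M : ℝ))) ^ (2 * M - 1) * (c1 / 3) ^ (2 * M) / 4 ^ R) * (g : ℝ) ^ (M * A) / (A + 1) ≤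
      W := by
  have hcp : (0 : ℝ) < c := by exact_mod_cast hc
  have hc1' : (1 : ℝ) ≤ c := by exact_mod_cast hc
  have hMp : (0 : ℝ) < M := by exact_mod_cast hM
  have hHH : (c : ℝ) ≤ 8 * M * H := by exact_mod_cast hH
  have hcA' : (c : ℝ) ≤ A + 1 := by exact_mod_cast hcA
  obtain ⟨n, hn⟩ : ∃ n, 2 * M = n + 1 := ⟨2 * M - 1, by omega⟩
  have hn1 : 2 * M - 1 = n := by omega
  rw [hn1, hn] at h ⊢
  have e1 : ((c : ℝ) / (8 * M)) ^ n ≤ (H : ℝ) ^ n := by
    refine pow_le_pow_left₀ (by positivity) ?_ n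
    rw [div_le_iff₀ (by positivity)]
    linarith
  have e2 : (c1 / (3 * c)) ^ (n + 1) ≤ (c1 / (2 * c + 1)) ^ (n + 1) := by
    refine pow_le_pow_left₀ (by positivity) ?_ _
    exact div_le_div_of_nonneg_left hc1.le (by positivity) (by linarith)
  have e3 : ((c : ℝ) / (8 * M)) ^ n * (c1 / (3 * c)) ^ (n + 1) =
      (1 / (8 * (M : ℝ))) ^ n * (c1 / 3) ^ (n + 1) / c := by
    rw [div_pow, div_pow, div_pow, div_pow, one_pow, mul_pow 3 (c : ℝ) (n + 1),
      pow_succ (c : ℝ) n]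
    field_simp
  have e4 : (1 / (8 * (M : ℝ))) ^ n * (c1 / 3) ^ (n + 1) / (A + 1) ≤
      (1 / (8 * (M : ℝ))) ^ n * (c1 / 3) ^ (n + 1) / c :=
    div_le_div_of_nonneg_left (by positivity) hcp hcA'
  have h4R : (0 : ℝ) < 4 ^ R := by positivity
  refine le_of_mul_le_mul_left ?_ h4R
  calc (4 : ℝ) ^ R * (((1 / (8 * (M : ℝ))) ^ n * (c1 / 3) ^ (n + 1) / 4 ^ R) * (g : ℝ) ^ (M * A) /
        (A + 1))
      = ((1 / (8 * (M : ℝ))) ^ n * (c1 / 3) ^ (n + 1) / (A + 1)) * (g : ℝ) ^ (M * A) := by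
        field_simp
    _ ≤ ((1 / (8 * (M : ℝ))) ^ n * (c1 / 3) ^ (n + 1) / c) * (g : ℝ) ^ (M * A) :=
        mul_le_mul_of_nonneg_right e4 (by positivity)
    _ = ((c : ℝ) / (8 * M)) ^ n * (c1 / (3 * c)) ^ (n + 1) * (g : ℝ) ^ (M * A) := by rw [e3]
    _ ≤ (H : ℝ) ^ n * (c1 / (2 * c + 1)) ^ (n + 1) * (g : ℝ) ^ (M * A) :=
        mul_le_mul_of_nonneg_right (mul_le_mul e1 e2 (by positivity) (by positivity))
          (by positivity)
    _ = (H : ℝ) ^ n * ((c1 / (2 * c + 1)) ^ (n + 1) * (g : ℝ) ^ (M * A)) := by ring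
    _ ≤ 4 ^ R * W := h

lemma sys_gen (h1 : SysStatement) (v : AbsoluteValue ℂ ℝ) (hv : Dyadic v) (P : Set ℕ) (B : ℝ)
    (ℓ : Finset ℕ → ℝ) (hB : 0 ≤ B) (hP : HasLip v P B ℓ) (k : ℕ) (C : Finset ℕ)
    (hCP : (C : Set ℕ) ⊆ P) (hC : v 2 ^ k * B < ℓ C) (R : ℕ) (hR : R = 2 ^ (k + 2) - 1)
    (a : Fin R → ℕ) (b : Finset (Fin R) → Fin R → ℕ)
    (ha : ∀ i, a i ∈ P ∧ a i ∉ C) (hb : ∀ S i, b S i ∈ P ∧ b S i ∉ C)
    (hab : ∀ i j, i ≠ j → a i ≠ a j ∧ ∀ S, a i ≠ b S j ∧ ∀ S', b S i ≠ b S' j) :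
    ∃ S Y : Finset (Fin R), Y ⊆ S ∧ S.card = 2 ^ (k + 1) ∧ Y.card = 2 ^ k ∧
      v 2 ^ k * B < ℓ (C ∪ (S \ Y).image a ∪ Y.image (b S)) := by
  subst hR
  obtain ⟨S, Y, q1, q2, q3, q4⟩ := h1 v hv P B ℓ hB hP k C hCP hC a b ha hb hab
  exact ⟨S, Y, q1, q2, q3, by convert q4⟩

theorem avgB_proof (h1 : SysStatement) (h2 : SlotBStatement) (h3 : UcntStatement)
    (h4 : TcntStatement) : AvgBStatement := by
  classical
  intro g v hg hv P B ℓ hprime hD hB hP k
  obtain ⟨M, hM⟩ : ∃ M, M = 2 ^ k := ⟨_, rfl⟩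
  obtain ⟨R, hR⟩ : ∃ R, R = 2 ^ (k + 2) - 1 := ⟨_, rfl⟩
  have hM1 : 0 < M := by rw [hM]; positivity
  have hR4 : R + 1 = 4 * M := by
    have : 2 ^ (k + 2) = 4 * 2 ^ k := by ring
    rw [hR, hM, this]
    have : 0 < 2 ^ k := by positivity
    omega
  obtain ⟨Q, hQP, hQd, c1, hc1, a₀, hQ⟩ := h2 g P hg hD R (by omega)
  refine ⟨(1 / (8 * (M : ℝ))) ^ (2 * M - 1) * (c1 / 3) ^ (2 * M) / 4 ^ R, by positivity,
    4 * a₀ + 8 * M, fun A hA C hCP hCs hC => ?_⟩
  obtain ⟨c, hc⟩ : ∃ c, c = (A + 1) / 2 := ⟨_, rfl⟩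
  obtain ⟨H, hH⟩ : ∃ H, H = c / (4 * M) := ⟨_, rfl⟩
  obtain ⟨N, hN⟩ : ∃ N, N = (g ^ (2 * c + 1)).factorial := ⟨_, rfl⟩
  have hcM : 4 * M ≤ c := by omega
  have hca : 2 * a₀ ≤ c := by omega
  have hcA : A / 4 ≤ c / 2 := by omega
  have hc0 : 0 < c := by omega
  have hN0 : 0 < N := by rw [hN]; exact Nat.factorial_pos _
  have hH1 : 1 ≤ H := by
    rw [hH]
    exact (Nat.one_le_div_iff (by omega)).2 hcM
  have hH2 : 4 * (M * H) ≤ c := by
    rw [hH, ← mul_assoc]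
    exact Nat.mul_div_le _ _
  have hH3 : c ≤ 8 * M * H := by
    have h := Nat.lt_mul_div_succ c (show 0 < 4 * M by omega)
    rw [← hH] at h
    have : 4 * M * (H + 1) ≤ 4 * M * (2 * H) := Nat.mul_le_mul_left _ (by omega)
    calc c ≤ 4 * M * (H + 1) := h.le
      _ ≤ 4 * M * (2 * H) := this
      _ = 8 * M * H := by ring
  have hQ' : ∀ i : Fin R, ∀ a : ℕ, c ≤ 2 * a →
      c1 * (g : ℝ) ^ a / (a + 1) ≤ ((BlkB g (Q i) a).card : ℝ) := fun i a ha =>
    hQ i i.isLt a (by omega)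
  have hpos : ∀ i : Fin R, ∀ a : ℕ, c ≤ 2 * a → a ≤ 2 * c → 0 < (BlkB g (Q i) a).card := by
    intro i a ha _
    have h := hQ' i a ha
    have h' : (0 : ℝ) < c1 * (g : ℝ) ^ a / (a + 1) := by positivity
    exact_mod_cast h'.trans_le h
  have hdvd : ∀ i : Fin R, ∀ a : ℕ, c ≤ 2 * a → a ≤ 2 * c → (BlkB g (Q i) a).card ∣ N := by
    intro i a ha ha'
    rw [hN]
    refine Nat.dvd_factorial (hpos i a ha ha') ?_
    unfold BlkB
    refine (Finset.card_filter_le _ _).trans ?_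
    rw [Nat.card_Ico]
    refine (Nat.sub_le _ _).trans ?_
    exact Nat.pow_le_pow_right (by omega) (by omega)
  have hscl : ∀ (S Y : Finset (Fin R)), S.card = 2 * M → ∀ (u : Fin R → Fin H), ∀ i : Fin R,
      (c : ℤ) ≤ 2 * scl M c A S Y u i ∧ scl M c A S Y u i ≤ 2 * c := by
    intro S Y hS u i
    rw [hc]
    exact scl_bd hM1 (by rw [← hc]; exact hH2) S Y hS u i
  have hscl0 : ∀ (u : Fin R → Fin H), ∀ i : Fin R,
      (c : ℤ) ≤ 2 * scl M c A ∅ ∅ u i ∧ scl M c A ∅ ∅ u i ≤ 2 * c := by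
    intro u i
    have e3 : (M : ℤ) * (u i : ℕ) ≤ (M : ℤ) * H := by
      have := (u i).isLt
      exact mul_le_mul_of_nonneg_left (by exact_mod_cast this.le) (by positivity)
    have e4 : 0 ≤ (M : ℤ) * (u i : ℕ) := by positivity
    have e5 : 4 * ((M : ℤ) * H) ≤ c := by exact_mod_cast hH2
    unfold scl
    rw [if_neg (Finset.notMem_empty _)]
    generalize (M : ℤ) * (u i : ℕ) = m at *
    generalize (M : ℤ) * H = mh at *
    omega
  -- elements at allowed scales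
  have hel : ∀ (t : Fin R → Fin N) (i : Fin R) (α : ℤ), (c : ℤ) ≤ 2 * α → α ≤ 2 * c →
      El g Q t i α.toNat ∈ P ∧ El g Q t i α.toNat ∉ C ∧ El g Q t i α.toNat ∈ Q i ∧
      g ^ (A / 4) ≤ El g Q t i α.toNat ∧ El g Q t i α.toNat < g ^ (α.toNat + 1) := by
    intro t i α q1 q2
    have m := blk_mem (el_mem (t := t) (hpos i α.toNat (by omega) (by omega)))
    have q3 : g ^ (A / 4) ≤ El g Q t i α.toNat :=
      (Nat.pow_le_pow_right (by omega) (by omega)).trans m.1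
    refine ⟨hQP i m.2.2, fun hmem => ?_, m.2.2, q3, m.2.1⟩
    exact absurd (hCs _ hmem) (not_lt.2 q3)
  obtain ⟨W, hWdef⟩ : ∃ W : Finset (Finset ℕ), W =
      ((Finset.univ : Finset (((Fin R → Fin H) × (Fin R → Fin N)) ×
        (Finset (Fin R) × Finset (Fin R)))).filter (fun x => x.2.2 ⊆ x.2.1 ∧
        x.2.1.card = 2 * M ∧ x.2.2.card = M ∧
        v 2 ^ k * B < ℓ (C ∪ wset g Q M c A x.2.1 x.2.2 x.1.1 x.1.2))).image
        (fun x => wset g Q M c A x.2.1 x.2.2 x.1.1 x.1.2) := ⟨_, rfl⟩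
  have hW : ∀ (u : Fin R → Fin H) (t : Fin R → Fin N), ∃ S Y : Finset (Fin R), Y ⊆ S ∧
      S.card = 2 * M ∧ Y.card = M ∧ wset g Q M c A S Y u t ∈ W := by
    intro u t
    have hbprop : ∀ (S : Finset (Fin R)) (i : Fin R), ∃ α : ℤ, (c : ℤ) ≤ 2 * α ∧ α ≤ 2 * c ∧
        (if S.card = 2 * M then El g Q t i (scl M c A S {i} u i).toNat
          else El g Q t i (scl M c A ∅ ∅ u i).toNat) = El g Q t i α.toNat := by
      intro S i
      by_cases hS : S.card = 2 * M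
      · rw [if_pos hS]
        exact ⟨_, (hscl S {i} hS u i).1, (hscl S {i} hS u i).2, rfl⟩
      · rw [if_neg hS]
        exact ⟨_, (hscl0 u i).1, (hscl0 u i).2, rfl⟩
    obtain ⟨S, Y, hYS, hS, hY, hlt⟩ := sys_gen h1 v hv P B ℓ hB hP k C hCP hC R hR
      (fun i => El g Q t i (scl M c A ∅ ∅ u i).toNat)
      (fun S i => if S.card = 2 * M then El g Q t i (scl M c A S {i} u i).toNat
          else El g Q t i (scl M c A ∅ ∅ u i).toNat)
      (fun i => by
        have := hel t i _ (hscl0 u i).1 (hscl0 u i).2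
        exact ⟨this.1, this.2.1⟩)
      (fun S i => by
        obtain ⟨α, q1, q2, q3⟩ := hbprop S i
        simp only [q3]
        have := hel t i _ q1 q2
        exact ⟨this.1, this.2.1⟩)
      (fun i j hij => by
        have hij' : (i : ℕ) ≠ (j : ℕ) := fun h => hij (Fin.ext h)
        have hne : ∀ x y : ℕ, x ∈ Q i → y ∈ Q j → x ≠ y := by
          intro x y hx hy hxy
          subst hxy
          exact Set.disjoint_left.1 (hQd i j hij') hx hy
        have m1 := (hel t i _ (hscl0 u i).1 (hscl0 u i).2).2.2.1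
        have m2 := (hel t j _ (hscl0 u j).1 (hscl0 u j).2).2.2.1
        refine ⟨hne _ _ m1 m2, fun S => ⟨?_, fun S' => ?_⟩⟩
        · obtain ⟨α, q1, q2, q3⟩ := hbprop S j
          simp only [q3]
          exact hne _ _ m1 (hel t j _ q1 q2).2.2.1
        · obtain ⟨α, q1, q2, q3⟩ := hbprop S i
          obtain ⟨α', q1', q2', q3'⟩ := hbprop S' j
          simp only [q3, q3']
          exact hne _ _ (hel t i _ q1 q2).2.2.1 (hel t j _ q1' q2').2.2.1)
    have hS2 : S.card = 2 * M := by rw [hS, hM]; ring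
    have hY2 : Y.card = M := by rw [hY, hM]
    refine ⟨S, Y, hYS, hS2, hY2, ?_⟩
    have hset : C ∪ (S \ Y).image (fun i => El g Q t i (scl M c A ∅ ∅ u i).toNat) ∪
        Y.image (fun i => if S.card = 2 * M then El g Q t i (scl M c A S {i} u i).toNat
          else El g Q t i (scl M c A ∅ ∅ u i).toNat) = C ∪ wset g Q M c A S Y u t := by
      have e1 : (S \ Y).image (fun i => El g Q t i (scl M c A ∅ ∅ u i).toNat) =
          (S \ Y).image (fun i => El g Q t i (scl M c A S Y u i).toNat) := by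
        refine Finset.image_congr fun i hi => ?_
        have hi' : i ∉ Y := (Finset.mem_sdiff.1 (Finset.mem_coe.1 hi)).2
        have : scl M c A ∅ ∅ u i = scl M c A S Y u i := by
          unfold scl
          rw [if_neg hi', if_neg (Finset.notMem_empty _)]
        simp only [this]
      have e2 : Y.image (fun i => if S.card = 2 * M then El g Q t i (scl M c A S {i} u i).toNat
          else El g Q t i (scl M c A ∅ ∅ u i).toNat) =
          Y.image (fun i => El g Q t i (scl M c A S Y u i).toNat) := by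
        refine Finset.image_congr fun i hi => ?_
        have hi' : i ∈ Y := Finset.mem_coe.1 hi
        have : scl M c A S {i} u i = scl M c A S Y u i := by
          unfold scl
          rw [if_pos hi', if_pos (Finset.mem_singleton_self _)]
        simp only [if_pos hS2, this]
      rw [e1, e2, Finset.union_assoc, ← Finset.image_union, Finset.sdiff_union_of_subset hYS]
      rfl
    rw [hWdef, Finset.mem_image]
    refine ⟨((u, t), (S, Y)), ?_, rfl⟩
    rw [Finset.mem_filter]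
    refine ⟨Finset.mem_univ _, hYS, hS2, hY2, ?_⟩
    rw [hset] at hlt
    exact hlt
  refine ⟨W, ?_, ?_⟩
  · have hcount := count hg h3 h4 Q hQd hM1 hN0 hH1 hR4 hscl hpos hdvd
      ((c1 / (2 * c + 1)) ^ (2 * M) * (g : ℝ) ^ (M * A))
      (fun S hS α hα hs => blk_prod Q c1 hc1 S hS hQ' α hα hs) (by positivity) W hW
    have := final_ineq c1 (W.card : ℝ) hc1 hM1 hc0 (by omega) hH3 hcount
    rw [hM] at this ⊢
    exact this
  · intro w hw
    rw [hWdef, Finset.mem_image] at hw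
    obtain ⟨⟨⟨u, t⟩, ⟨S, Y⟩⟩, hx, rfl⟩ := hw
    rw [Finset.mem_filter] at hx
    obtain ⟨-, hYS, hS, hY, hlt⟩ := hx
    simp only at hYS hS hY hlt ⊢
    have hb := hscl S Y hS u
    have he : ∀ i ∈ S, _ := fun i _ => hel t i _ (hb i).1 (hb i).2
    refine ⟨?_, ?_, ?_, hlt⟩
    · intro p hp
      unfold wset at hp
      rw [Finset.mem_coe, Finset.mem_image] at hp
      obtain ⟨i, hi, rfl⟩ := hp
      exact (he i hi).1
    · intro p hp
      unfold wset at hp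
      rw [Finset.mem_image] at hp
      obtain ⟨i, hi, rfl⟩ := hp
      exact (he i hi).2.2.2.1
    · obtain ⟨hsum, -⟩ := h3 R H M c A S Y hM1 hYS hY hS
      have hs := hsum u
      have hαs : ∑ i ∈ S, (scl M c A S Y u i).toNat = M * A := by
        have : ((∑ i ∈ S, (scl M c A S Y u i).toNat : ℕ) : ℤ) = M * A := by
          rw [← hs]
          push_cast
          refine Finset.sum_congr rfl fun i _ => ?_
          have := hb i
          omega
        exact_mod_cast this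
      unfold wset
      rw [Finset.prod_image]
      · calc ∏ i ∈ S, El g Q t i (scl M c A S Y u i).toNat
            ≤ ∏ i ∈ S, g ^ ((scl M c A S Y u i).toNat + 1) :=
              Finset.prod_le_prod (fun i _ => Nat.zero_le _)
                fun i hi => (he i hi).2.2.2.2.le
          _ = g ^ (∑ i ∈ S, ((scl M c A S Y u i).toNat + 1)) := Finset.prod_pow_eq_pow_sum _ _ _
          _ = g ^ (2 ^ k * A + 2 ^ (k + 1)) := by
              rw [Finset.sum_add_distrib, hαs, Finset.sum_const, hS, hM]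
              congr 1
              rw [smul_eq_mul]
              ring
      · intro i hi j hj hij
        by_contra hne
        have hne' : (i : ℕ) ≠ (j : ℕ) := fun h => hne (Fin.ext h)
        have m1 := (he i hi).2.2.1
        have m2 := (he j hj).2.2.1
        have hij2 : El g Q t i (scl M c A S Y u i).toNat = El g Q t j (scl M c A S Y u j).toNat :=
          hij
        rw [hij2] at m1
        exact Set.disjoint_left.1 (hQd i j hne') m1 m2

end

end Pool.Agent.Lib.MP_50bb2e_nt.Low.AvgB
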