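import Pool.Agent.Lib.MP_50bb2e_nt.Low.Iface

/-! Row BIN of LOW: the middle slice of a cube of dimension `2^(s+1) - 1` determines the bottom. -/

namespace Pool.Agent.Lib.MP_50bb2e_nt.Low.Bin

open Pool.Agent.Lib.MP_50bb2e_nt.Qtw (Dyadic Lip Dif Eigen CV NonVan)
open Pool.Agent.Lib.MP_50bb2e_nt.Low

variable {v : AbsoluteValue ℂ ℝ}

theorem v_nat_le (hv : Dyadic v) (n : ℕ) : v n ≤ 1 := by
  induction n with
  | zero => simp
  | succ n ih =>
    rw [Nat.cast_succ]
    exact (hv.1 _ _).trans (max_le ih (by rw [map_one]))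

theorem v_sum_le (hv : Dyadic v) {κ : Type} (s : Finset κ) (f : κ → ℂ) (M : ℝ) (hM : 0 ≤ M)
    (h : ∀ i ∈ s, v (f i) ≤ M) : v (∑ i ∈ s, f i) ≤ M := by
  classical
  induction s using Finset.induction_on with
  | empty => simpa using hM
  | insert a s ha ih =>
    rw [Finset.sum_insert ha]
    exact (hv.1 _ _).trans (max_le (h a (Finset.mem_insert_self _ _))
      (ih fun i hi => h i (Finset.mem_insert_of_mem hi)))

theorem v_neg_one : v (-1) = 1 := by
  rw [map_neg_eq_map, map_one]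

theorem v_sign (n : ℕ) (x : ℂ) : v ((-1) ^ n * x) = v x := by
  rw [map_mul, map_pow, v_neg_one, one_pow, one_mul]

theorem v_odd (hv : Dyadic v) (n : ℕ) (h : Odd n) : v n = 1 := by
  refine le_antisymm (v_nat_le hv n) ?_
  obtain ⟨k, rfl⟩ := h
  by_contra hlt
  push Not at hlt
  have h1 : v (1 : ℂ) ≤ max (v ((2 * k + 1 : ℕ) : ℂ)) (v (-(2 * (k : ℂ)))) := by
    have := hv.1 ((2 * k + 1 : ℕ) : ℂ) (-(2 * (k : ℂ)))
    have e : ((2 * k + 1 : ℕ) : ℂ) + (-(2 * (k : ℂ))) = 1 := by push_cast; ring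
    rwa [e] at this
  rw [map_one] at h1
  have h2 : v (-(2 * (k : ℂ))) < 1 := by
    rw [map_neg_eq_map, map_mul]
    calc v 2 * v k ≤ v 2 * 1 := mul_le_mul_of_nonneg_left (v_nat_le hv k) (v.nonneg _)
      _ < 1 := by rw [mul_one]; exact hv.2
  exact absurd h1 (not_le.2 (max_lt hlt h2))

theorem v_dvd (hv : Dyadic v) (a j : ℕ) (h : 2 ^ j ∣ a) : v a ≤ v 2 ^ j := by
  obtain ⟨b, rfl⟩ := h
  rw [Nat.cast_mul, map_mul, Nat.cast_pow, map_pow]
  calc v ((2 : ℕ) : ℂ) ^ j * v b ≤ v ((2 : ℕ) : ℂ) ^ j * 1 :=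
        mul_le_mul_of_nonneg_left (v_nat_le hv b) (by positivity)
    _ = v 2 ^ j := by rw [mul_one]; norm_num

/-- the alternating sum -/
noncomputable def D {ι : Type} [DecidableEq ι] (G : Finset ι → ℂ) (U : Finset ι) : ℂ :=
  ∑ S ∈ U.powerset, (-1) ^ S.card * G S

theorem D_insert {ι : Type} [DecidableEq ι] (G : Finset ι → ℂ) (U : Finset ι) (p : ι)
    (hp : p ∉ U) : D G (insert p U) = D G U - D (fun S => G (insert p S)) U := by
  unfold D
  rw [Finset.sum_powerset_insert hp, sub_eq_add_neg, ← Finset.sum_neg_distrib]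
  congr 1
  refine Finset.sum_congr rfl fun S hS => ?_
  have hpS : p ∉ S := fun h => hp (Finset.mem_powerset.1 hS h)
  rw [Finset.card_insert_of_notMem hpS, pow_succ]
  ring

theorem moebius {ι : Type} [DecidableEq ι] (Y : Finset ι) : ∀ (G : Finset ι → ℂ),
    ∑ U ∈ Y.powerset, (-1) ^ U.card * D G U = G Y := by
  induction Y using Finset.induction_on with
  | empty => intro G; simp [D]
  | insert p Y hp ih =>
    intro G
    rw [Finset.sum_powerset_insert hp]
    have h : ∀ U ∈ Y.powerset, (-1 : ℂ) ^ (insert p U).card * D G (insert p U) =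
        (-1) ^ U.card * D (fun S => G (insert p S)) U - (-1) ^ U.card * D G U := by
      intro U hU
      have hpU : p ∉ U := fun h => hp (Finset.mem_powerset.1 hU h)
      rw [Finset.card_insert_of_notMem hpU, D_insert G U p hpU, pow_succ]
      ring
    rw [Finset.sum_congr rfl h, Finset.sum_sub_distrib, ih, ih]
    ring

theorem count {ι : Type} [DecidableEq ι] (X U : Finset ι) (n : ℕ) (hU : U ⊆ X)
    (hn : U.card ≤ n) :
    ((X.powersetCard n).filter (fun Y => U ⊆ Y)).card = (X.card - U.card).choose (n - U.card) := by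
  rw [← Finset.card_sdiff_of_subset hU, ← Finset.card_powersetCard]
  symm
  refine Finset.card_bij (fun Z _ => U ∪ Z) ?_ ?_ ?_
  · intro Z hZ
    rw [Finset.mem_powersetCard] at hZ
    rw [Finset.mem_filter, Finset.mem_powersetCard]
    have hd : Disjoint U Z := Finset.disjoint_left.2 fun x hx hz =>
      (Finset.mem_sdiff.1 (hZ.1 hz)).2 hx
    refine ⟨⟨Finset.union_subset hU (hZ.1.trans Finset.sdiff_subset), ?_⟩,
      Finset.subset_union_left⟩
    rw [Finset.card_union_of_disjoint hd, hZ.2]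
    omega
  · intro Z hZ Z' hZ' h
    rw [Finset.mem_powersetCard] at hZ hZ'
    ext x
    have h1 : x ∈ U ∪ Z ↔ x ∈ U ∪ Z' := by rw [h]
    rw [Finset.mem_union, Finset.mem_union] at h1
    constructor
    · intro hx
      have hxU := (Finset.mem_sdiff.1 (hZ.1 hx)).2
      exact (h1.1 (Or.inr hx)).resolve_left hxU
    · intro hx
      have hxU := (Finset.mem_sdiff.1 (hZ'.1 hx)).2
      exact (h1.2 (Or.inr hx)).resolve_left hxU
  · intro Y hY
    rw [Finset.mem_filter, Finset.mem_powersetCard] at hY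
    refine ⟨Y \ U, ?_, ?_⟩
    · rw [Finset.mem_powersetCard]
      refine ⟨Finset.sdiff_subset_sdiff hY.1.1 (le_refl _), ?_⟩
      rw [Finset.card_sdiff_of_subset hY.2, hY.1.2]
    · exact Finset.union_sdiff_of_subset hY.2

theorem count_zero {ι : Type} [DecidableEq ι] (X U : Finset ι) (n : ℕ)
    (hn : n < U.card) :
    ((X.powersetCard n).filter (fun Y => U ⊆ Y)).card = 0 := by
  rw [Finset.card_eq_zero, Finset.filter_eq_empty_iff]
  intro Y hY h
  rw [Finset.mem_powersetCard] at hY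
  have := Finset.card_le_card h
  omega

theorem slice {ι : Type} [DecidableEq ι] (X : Finset ι) (n : ℕ) (G : Finset ι → ℂ) :
    ∑ Y ∈ X.powersetCard n, G Y = ∑ U ∈ X.powerset,
      (((X.powersetCard n).filter (fun Y => U ⊆ Y)).card : ℂ) * ((-1) ^ U.card * D G U) := by
  have h1 : ∀ Y ∈ X.powersetCard n, G Y =
      ∑ U ∈ X.powerset, if U ⊆ Y then (-1) ^ U.card * D G U else 0 := by
    intro Y hY
    rw [← Finset.sum_filter, ← moebius Y G]
    refine Finset.sum_congr ?_ fun _ _ => rfl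
    ext U
    rw [Finset.mem_filter, Finset.mem_powerset, Finset.mem_powerset]
    exact ⟨fun h => ⟨h.trans (Finset.mem_powersetCard.1 hY).1, h⟩, fun h => h.2⟩
  rw [Finset.sum_congr rfl h1, Finset.sum_comm]
  refine Finset.sum_congr rfl fun U _ => ?_
  rw [← Finset.sum_filter, Finset.sum_const, nsmul_eq_mul]

theorem odd_choose (s : ℕ) : Odd ((2 ^ (s + 1) - 1).choose (2 ^ s)) := by
  have hpos : 0 < 2 ^ s := by positivity
  have h : ∀ t : ℕ, ∀ j : ℕ, j ≤ 2 ^ t - 1 → Odd ((2 ^ t - 1).choose j) := by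
    intro t j
    induction j with
    | zero => intro _; simp
    | succ j ih =>
      intro hj
      have h1 := ih (by omega)
      have ht : 0 < 2 ^ t := by positivity
      have h2 : (2 ^ t).choose (j + 1) = (2 ^ t - 1).choose j + (2 ^ t - 1).choose (j + 1) := by
        have : 2 ^ t = (2 ^ t - 1) + 1 := by omega
        conv_lhs => rw [this]
        rw [Nat.choose_succ_succ]
      have h3 : 2 ∣ (2 ^ t).choose (j + 1) :=
        Nat.Prime.dvd_choose_pow Nat.prime_two (by omega) (by omega)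
      rw [h2] at h3
      rw [← even_iff_two_dvd] at h3
      by_contra h4
      rw [Nat.not_odd_iff_even] at h4
      have : Odd ((2 ^ t - 1).choose j + (2 ^ t - 1).choose (j + 1)) := h1.add_even h4
      exact (Nat.not_even_iff_odd.2 this) h3
  refine h (s + 1) (2 ^ s) ?_
  have : 2 ^ (s + 1) = 2 * 2 ^ s := by rw [pow_succ]; ring
  omega

theorem dvd_choose (s m : ℕ) (h1 : 1 ≤ m) (h2 : m ≤ 2 ^ s) :
    2 ^ (s + 1 - m) ∣ (2 ^ (s + 1) - 1 - m).choose (2 ^ s - m) := by
  by_cases hms : s + 1 ≤ m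
  · rw [Nat.sub_eq_zero_of_le hms, pow_zero]; exact one_dvd _
  push Not at hms
  have hpos : 0 < 2 ^ s := by positivity
  have e2 : 2 ^ (s + 1) = 2 * 2 ^ s := by rw [pow_succ]; ring
  have hsym : (2 ^ (s + 1) - 1 - m).choose (2 ^ s - m) =
      (2 ^ (s + 1) - 1 - m).choose (2 ^ s - 1) := by
    have : 2 ^ s - m = (2 ^ (s + 1) - 1 - m) - (2 ^ s - 1) := by omega
    rw [this]
    exact Nat.choose_symm (by omega)
  rw [hsym]
  set N := 2 ^ (s + 1) - 1 - m with hN
  set K := N.choose (2 ^ s - 1) with hK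
  have h3 : (N + 1) * K = (N + 1).choose (2 ^ s) * 2 ^ s := by
    have := Nat.add_one_mul_choose_eq N (2 ^ s - 1)
    have e : 2 ^ s - 1 + 1 = 2 ^ s := by omega
    rwa [e] at this
  have hK0 : K ≠ 0 := (Nat.choose_pos (by omega)).ne'
  have hN0 : N + 1 ≠ 0 := by omega
  have h4 : 2 ^ s ∣ (N + 1) * K := ⟨_, by rw [h3, mul_comm]⟩
  have h5 : ¬ 2 ^ m ∣ N + 1 := by
    intro h
    have h6 : 2 ^ m ∣ 2 ^ (s + 1) := pow_dvd_pow 2 (by omega)
    have h7 : N + 1 = 2 ^ (s + 1) - m := by omega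
    rw [h7] at h
    have h8 : 2 ^ m ∣ m := (Nat.dvd_sub_iff_right (by omega) h6).1 h
    have := Nat.le_of_dvd (by omega) h8
    exact absurd this (not_le.2 (Nat.lt_two_pow_self))
  have : Fact (Nat.Prime 2) := ⟨Nat.prime_two⟩
  rw [padicValNat_dvd_iff_le hK0]
  rw [padicValNat_dvd_iff_le (mul_ne_zero hN0 hK0), padicValNat.mul hN0 hK0] at h4
  rw [padicValNat_dvd_iff_le hN0] at h5
  omega

theorem bin_proof : BinStatement := by
  intro ι _ v hv s k B X G hB hk hX hG hY
  have hM : 0 ≤ v 2 ^ k * B := by positivity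
  have h2le : v 2 ≤ 1 := hv.2.le
  have hs := slice X (2 ^ s) G
  have hD : ∀ U ⊆ X, v (D G U) ≤ v 2 ^ U.card * B := by
    intro U hU
    have := hG ∅ U (Finset.empty_subset _) hU (Finset.disjoint_empty_left _)
    simpa [D] using this
  have hmem : ∅ ∈ X.powerset := Finset.empty_mem_powerset _
  rw [← Finset.add_sum_erase _ _ hmem, count X ∅ (2 ^ s) (Finset.empty_subset _) (by simp)] at hs
  have hD0 : D G ∅ = G ∅ := by simp [D]
  rw [hD0, Finset.card_empty, Nat.sub_zero, Nat.sub_zero, pow_zero, one_mul, hX] at hs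
  have heq : (((2 ^ (s + 1) - 1).choose (2 ^ s) : ℕ) : ℂ) * G ∅ =
      ∑ Y ∈ X.powersetCard (2 ^ s), G Y + -(∑ U ∈ X.powerset.erase ∅,
        (((X.powersetCard (2 ^ s)).filter (fun Y => U ⊆ Y)).card : ℂ) *
          ((-1) ^ U.card * D G U)) := by
    rw [hs]; ring
  have hv1 : v (G ∅) = v ((((2 ^ (s + 1) - 1).choose (2 ^ s) : ℕ) : ℂ) * G ∅) := by
    rw [map_mul, v_odd hv _ (odd_choose s), one_mul]
  rw [hv1, heq]
  refine (hv.1 _ _).trans (max_le ?_ ?_)
  · refine v_sum_le hv _ _ _ hM fun Y hY' => ?_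
    rw [Finset.mem_powersetCard] at hY'
    exact hY Y hY'.1 hY'.2
  · rw [map_neg_eq_map]
    refine v_sum_le hv _ _ _ hM fun U hU => ?_
    rw [Finset.mem_erase, Finset.mem_powerset] at hU
    obtain ⟨hU0, hUX⟩ := hU
    have hc : 1 ≤ U.card := Finset.card_pos.2 (Finset.nonempty_iff_ne_empty.2 hU0)
    by_cases hUn : U.card ≤ 2 ^ s
    · rw [count X U (2 ^ s) hUX hUn, hX, map_mul, v_sign]
      have h3 := v_dvd hv _ _ (dvd_choose s U.card hc hUn)
      have h4 := hD U hUX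
      have h5 : v 2 ^ (s + 1 - U.card) * v 2 ^ U.card ≤ v 2 ^ k := by
        rw [← pow_add]
        exact pow_le_pow_of_le_one (v.nonneg _) h2le (by omega)
      calc v (((2 ^ (s + 1) - 1 - U.card).choose (2 ^ s - U.card) : ℕ) : ℂ) * v (D G U)
          ≤ v 2 ^ (s + 1 - U.card) * (v 2 ^ U.card * B) :=
            mul_le_mul h3 h4 (v.nonneg _) (by positivity)
        _ = v 2 ^ (s + 1 - U.card) * v 2 ^ U.card * B := by ring
        _ ≤ v 2 ^ k * B := mul_le_mul_of_nonneg_right h5 hB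
    · rw [count_zero X U (2 ^ s) (by omega)]
      simpa using hM

end Pool.Agent.Lib.MP_50bb2e_nt.Low.Bin
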