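import Pool.Agent.Lib.MP_50bb2e_nt.Low.Iface
import Pool.Agent.Lib.MP_50bb2e_nt.ND.Nt

/-!
MP_50bb2e_nt, board LOW, row CHEB (helper53): upper bounds of Chebyshev and Mertens for sets of
primes.
-/

namespace Pool.Agent.Lib.MP_50bb2e_nt.Low.Cheb

open Pool.Agent.Lib.MP_50bb2e_nt.Low

theorem mem_Ps {P : Set ℕ} {X p : ℕ} : p ∈ Ps P X ↔ (1 ≤ p ∧ p ≤ X) ∧ p ∈ P := by
  classical
  unfold Ps
  rw [Finset.mem_filter, Finset.mem_Icc]

theorem Ps_sub {P : Set ℕ} (hP : ∀ p ∈ P, p.Prime) (n : ℕ) : Ps P n ⊆ Nat.primesLE n := by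
  intro p hp
  rw [mem_Ps] at hp
  rw [Nat.mem_primesLE]
  exact ⟨hp.1.2, hP p hp.2⟩

theorem log_four : Real.log 4 = 2 * Real.log 2 := by
  have : (4 : ℝ) = 2 ^ 2 := by norm_num
  rw [this, Real.log_pow]
  norm_num

theorem first {P : Set ℕ} (hP : ∀ p ∈ P, p.Prime) (n : ℕ) :
    ∑ p ∈ Ps P n, Real.log p ≤ 4 * n := by
  have h1 : ∑ p ∈ Ps P n, Real.log p ≤ ∑ p ∈ Nat.primesLE n, Real.log p :=
    Finset.sum_le_sum_of_subset_of_nonneg (Ps_sub hP n)
      fun p _ _ => Real.log_natCast_nonneg p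
  have h2 := Chebyshev.theta_le_log4_mul_x (x := (n : ℝ)) (Nat.cast_nonneg n)
  rw [Chebyshev.theta_eq_sum_primesLE_log] at h2
  have h3 : Real.log 4 ≤ 4 := by
    rw [log_four]
    have := Real.log_two_lt_d9
    linarith
  have h4 : (0 : ℝ) ≤ n := Nat.cast_nonneg n
  nlinarith

theorem second {P : Set ℕ} (hP : ∀ p ∈ P, p.Prime) (n : ℕ) (hn : 2 ≤ n) :
    ∑ p ∈ Ps P n, Real.log p / p ≤ 4 * Real.log n := by
  have h1 : ∑ p ∈ Ps P n, Real.log p / p ≤ ∑ p ∈ Nat.primesLE n, Real.log p / p := by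
    refine Finset.sum_le_sum_of_subset_of_nonneg (Ps_sub hP n) fun p _ _ => ?_
    have := Real.log_natCast_nonneg p
    positivity
  have h2 := ND.Nt.mertens n
  have h3 : (Nat.log 2 n : ℝ) * Real.log 2 ≤ Real.log n := by
    rw [← Real.log_pow]
    refine Real.log_le_log (by positivity) ?_
    exact_mod_cast Nat.pow_log_le_self 2 (by omega)
  rw [log_four] at h2
  nlinarith

theorem cheb_proof : ChebStatement := by
  refine ⟨4, by norm_num, fun P hP => ⟨first hP, second hP, fun K => ?_⟩⟩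
  refine ⟨Real.exp (4 * |K|), Real.exp_pos _, fun m n hm hK => ?_⟩
  have hpm : ∀ k : ℕ, 1 ≤ ∏ p ∈ Ps P k, (1 + 1 / (p : ℝ)) := by
    intro k
    refine Finset.one_le_prod fun p _ => ?_
    have : (0 : ℝ) ≤ 1 / (p : ℝ) := by positivity
    linarith
  have hexp1 : 1 ≤ Real.exp (4 * |K|) := Real.one_le_exp (by positivity)
  rcases Nat.lt_or_ge n 2 with hn | hn
  · have h0 : Ps P n = ∅ := by
      apply Finset.eq_empty_of_forall_notMem
      intro p hp
      rw [mem_Ps] at hp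
      have := (hP p hp.2).two_le
      omega
    rw [h0, Finset.prod_empty]
    have := hpm m
    nlinarith
  have hlm : 0 < Real.log m := Real.log_pos (by exact_mod_cast hm)
  classical
  set T : Finset ℕ := (Ps P n).filter (fun p => m < p) with hT
  have hsub : Ps P n ⊆ Ps P m ∪ T := by
    intro p hp
    rw [Finset.mem_union, hT, Finset.mem_filter]
    by_cases h : m < p
    · exact Or.inr ⟨hp, h⟩
    · left
      rw [mem_Ps] at hp ⊢
      exact ⟨⟨hp.1.1, not_lt.1 h⟩, hp.2⟩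
  have hdis : Disjoint (Ps P m) T := by
    rw [Finset.disjoint_left]
    intro p hp hpT
    rw [hT, Finset.mem_filter] at hpT
    rw [mem_Ps] at hp
    omega
  have h1 : ∏ p ∈ Ps P n, (1 + 1 / (p : ℝ)) ≤ ∏ p ∈ Ps P m ∪ T, (1 + 1 / (p : ℝ)) := by
    refine Finset.prod_le_prod_of_subset_of_one_le hsub ?_ ?_
    · intro p _
      positivity
    · intro p _ _
      have : (0 : ℝ) ≤ 1 / (p : ℝ) := by positivity
      linarith
  rw [Finset.prod_union hdis] at h1
  have h2 : ∏ p ∈ T, (1 + 1 / (p : ℝ)) ≤ Real.exp (∑ p ∈ T, 1 / (p : ℝ)) := by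
    rw [Real.exp_sum]
    refine Finset.prod_le_prod (fun p _ => by positivity) fun p _ => ?_
    have := Real.add_one_le_exp (1 / (p : ℝ))
    linarith
  have h3 : (∑ p ∈ T, 1 / (p : ℝ)) * Real.log m ≤ 4 * Real.log n := by
    refine le_trans ?_ (second hP n hn)
    rw [Finset.sum_mul]
    refine le_trans (b := ∑ p ∈ T, Real.log p / p) ?_ ?_
    · refine Finset.sum_le_sum fun p hp => ?_
      rw [hT, Finset.mem_filter] at hp
      have hmp : Real.log m ≤ Real.log p := by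
        refine Real.log_le_log (by positivity) ?_
        exact_mod_cast hp.2.le
      rw [one_div, mul_comm, ← div_eq_mul_inv]
      exact div_le_div_of_nonneg_right hmp (Nat.cast_nonneg p)
    · refine Finset.sum_le_sum_of_subset_of_nonneg (Finset.filter_subset _ _) fun p _ _ => ?_
      have := Real.log_natCast_nonneg p
      positivity
  have h4 : ∑ p ∈ T, 1 / (p : ℝ) ≤ 4 * |K| := by
    have h5 : Real.log n ≤ |K| * Real.log m :=
      hK.trans (mul_le_mul_of_nonneg_right (le_abs_self K) hlm.le)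
    have h6 : (∑ p ∈ T, 1 / (p : ℝ)) * Real.log m ≤ (4 * |K|) * Real.log m := by linarith
    exact le_of_mul_le_mul_right h6 hlm
  have h7 : ∏ p ∈ T, (1 + 1 / (p : ℝ)) ≤ Real.exp (4 * |K|) :=
    h2.trans (Real.exp_le_exp.2 h4)
  calc ∏ p ∈ Ps P n, (1 + 1 / (p : ℝ))
      ≤ (∏ p ∈ Ps P m, (1 + 1 / (p : ℝ))) * ∏ p ∈ T, (1 + 1 / (p : ℝ)) := h1
    _ ≤ (∏ p ∈ Ps P m, (1 + 1 / (p : ℝ))) * Real.exp (4 * |K|) :=
        mul_le_mul_of_nonneg_left h7 (zero_le_one.trans (hpm m))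
    _ = Real.exp (4 * |K|) * ∏ p ∈ Ps P m, (1 + 1 / (p : ℝ)) := mul_comm _ _

end Pool.Agent.Lib.MP_50bb2e_nt.Low.Cheb
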