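import Pool.Agent.Lib.MP_50bb2e_nt.Low.IfaceB

/-! Row DNSB of LOW: positive lower relative density gives a base with dense blocks. -/

namespace Pool.Agent.Lib.MP_50bb2e_nt.Low.DnsB

open Pool.Agent.Lib.MP_50bb2e_nt.Low

theorem log_four : Real.log 4 ≤ 1.5 := by
  have h : (4 : ℝ) = 2 ^ 2 := by norm_num
  rw [h, Real.log_pow]
  have := Real.log_two_lt_d9
  push_cast
  linarith

/-- upper bound of Chebyshev -/
theorem pi_le (n : ℕ) (hn : 2 ≤ n) : ((Nat.primesLE n).card : ℝ) * Real.log n ≤ 5 * n := by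
  have hn' : (2 : ℝ) ≤ n := by exact_mod_cast hn
  have h := Chebyshev.pi_le_log4_mul_div (x := (n : ℝ)) (by linarith)
  rw [Nat.floor_natCast, ← Nat.primesLE_card_eq_primeCounting] at h
  have hlog : 0 < Real.log n := Real.log_pos (by linarith)
  have hs : Real.log √(n : ℝ) = Real.log n / 2 := Real.log_sqrt (by linarith)
  rw [hs] at h
  have h1 : Real.log n ≤ 2 * √(n : ℝ) := by
    have := Real.log_le_self (Real.sqrt_nonneg (n : ℝ))
    rw [hs] at this
    linarith
  have h2 : √(n : ℝ) * √(n : ℝ) = n := Real.mul_self_sqrt (by linarith)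
  have h3 : √(n : ℝ) * Real.log n ≤ 2 * n := by
    nlinarith [Real.sqrt_nonneg (n : ℝ)]
  have h4 := mul_le_mul_of_nonneg_right h hlog.le
  have h5 : (Real.log 4 * n / (Real.log n / 2) + √(n : ℝ)) * Real.log n =
      2 * Real.log 4 * n + √(n : ℝ) * Real.log n := by
    field_simp
  rw [h5] at h4
  nlinarith [log_four]

open Classical in
theorem dnsB_proof : DnsBStatement := by
  intro P hP ⟨c, hc, n₀, h⟩
  obtain ⟨b, hb2, hb⟩ : ∃ b : ℕ, 2 ≤ b ∧ 11 ≤ c * b := by
    refine ⟨⌈11 / c⌉₊ + 2, by omega, ?_⟩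
    have h1 : 11 / c ≤ (⌈11 / c⌉₊ : ℝ) := Nat.le_ceil _
    rw [div_le_iff₀ hc] at h1
    push_cast
    nlinarith
  have hbR : (2 : ℝ) ≤ b := by exact_mod_cast hb2
  have hlb : 0 < Real.log b := Real.log_pos (by linarith)
  refine ⟨b, hb2, 1 / Real.log b, by positivity, n₀ + 1, ?_⟩
  intro a ha
  have ha1 : 1 ≤ a := by omega
  have haR : (1 : ℝ) ≤ a := by exact_mod_cast ha1
  have hpos : (0 : ℝ) < (b : ℝ) ^ a := by positivity
  have hn0 : n₀ ≤ b ^ (a + 1) := by
    have := Nat.lt_pow_self (n := a + 1) (a := b) (by omega)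
    omega
  have h1 := h (b ^ (a + 1)) hn0
  have hcard : ({p | p ∈ P ∧ p ≤ b ^ (a + 1)} : Set ℕ).ncard ≤
      (BlkB b P a).card + (Nat.primesLE (b ^ a)).card := by
    refine le_trans ?_ (Finset.card_union_le _ _)
    rw [← Set.ncard_coe_finset]
    refine Set.ncard_le_ncard ?_ (Finset.finite_toSet _)
    intro p hp
    obtain ⟨hp1, hp3⟩ := hp
    rw [Finset.mem_coe, Finset.mem_union]
    have hpr := hP p hp1
    by_cases hlt : p < b ^ a
    · right
      rw [Nat.mem_primesLE]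
      exact ⟨hlt.le, hpr⟩
    · left
      unfold BlkB
      rw [Finset.mem_filter, Finset.mem_Ico]
      refine ⟨⟨by omega, ?_⟩, hp1⟩
      refine lt_of_le_of_ne hp3 ?_
      intro he
      rw [he] at hpr
      exact (Nat.Prime.not_prime_pow (x := b) (n := a + 1) (by omega)) hpr
  have hba : 2 ≤ b ^ a := by
    calc 2 ≤ b := hb2
      _ = b ^ 1 := (pow_one b).symm
      _ ≤ b ^ a := Nat.pow_le_pow_right (by omega) ha1
  have h2 := pi_le (b ^ a) hba
  push_cast at h2
  rw [Real.log_pow] at h2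
  push_cast at h1
  rw [Real.log_pow] at h1
  push_cast at h1
  have h3 : c * (b : ℝ) ^ (a + 1) / ((a + 1) * Real.log b) ≤
      ((BlkB b P a).card : ℝ) + ((Nat.primesLE (b ^ a)).card : ℝ) :=
    h1.trans (by exact_mod_cast hcard)
  rw [div_le_iff₀ (by positivity)] at h3
  rw [div_mul_eq_mul_div, one_mul, div_div, div_le_iff₀ (by positivity)]
  -- b^a ≤ card * (log b * (a + 1))
  have h4 : ((Nat.primesLE (b ^ a)).card : ℝ) * ((a + 1) * Real.log b) ≤ 10 * (b : ℝ) ^ a := by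
    have e1 : (a : ℝ) + 1 ≤ 2 * a := by linarith
    have hcn : (0 : ℝ) ≤ ((Nat.primesLE (b ^ a)).card : ℝ) := Nat.cast_nonneg _
    calc ((Nat.primesLE (b ^ a)).card : ℝ) * ((a + 1) * Real.log b)
        ≤ ((Nat.primesLE (b ^ a)).card : ℝ) * (2 * a * Real.log b) := by
          refine mul_le_mul_of_nonneg_left ?_ hcn
          exact mul_le_mul_of_nonneg_right e1 hlb.le
      _ = 2 * (((Nat.primesLE (b ^ a)).card : ℝ) * (a * Real.log b)) := by ring
      _ ≤ 2 * (5 * (b : ℝ) ^ a) := by linarith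
      _ = _ := by ring
  have h5 : 11 * (b : ℝ) ^ a ≤ c * (b : ℝ) ^ (a + 1) := by
    rw [pow_succ]
    calc 11 * (b : ℝ) ^ a ≤ (c * b) * (b : ℝ) ^ a := mul_le_mul_of_nonneg_right hb hpos.le
      _ = _ := by ring
  nlinarith

end Pool.Agent.Lib.MP_50bb2e_nt.Low.DnsB
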