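import Pool.Agent.Lib.MP_50bb2e_nt.Low.Iface

/-! Board LOW, row FINAL. -/

namespace Pool.Agent.Lib.MP_50bb2e_nt.Low.Final

open Pool.Agent.Lib.MP_50bb2e_nt.Qtw Pool.Agent.Lib.MP_50bb2e_nt.Low
open Filter Topology

noncomputable section

theorem hasLip_mono {v : AbsoluteValue ℂ ℝ} {P P' : Set ℕ} {B : ℝ} {ℓ : Finset ℕ → ℝ}
    (h : P' ⊆ P) (hP : HasLip v P B ℓ) : HasLip v P' B ℓ := fun T hT => hP T (hT.trans h)

theorem prod_primeFactors {D : ℕ} (h : Squarefree D) : ∏ p ∈ D.primeFactors, p = D :=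
  Nat.prod_primeFactors_of_squarefree h

theorem final_proof (hQ : QsysStatement) (hS : SignStatement) (hR : RmwStatement)
    (hLow : LowStatement) (hD : DnsStatement) : FinalStatement := by
  classical
  intro r N κ q f a ψ hall hbase v hv
  obtain ⟨B, ℓ, hB, h0, hnv, hlip⟩ := hQ r N κ q f a ψ hall hbase v hv
  have hv2 : 0 < v 2 := v.pos two_ne_zero
  refine ⟨?_, ?_⟩
  · obtain ⟨d, hd⟩ : ∃ d : ℕ, v 2 ^ (d + 1) * B < ℓ ∅ := by
      have h1 : Tendsto (fun n : ℕ => v 2 ^ n * B) atTop (𝓝 (0 * B)) :=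
        (tendsto_pow_atTop_nhds_zero_of_lt_one (v.nonneg _) hv.2).mul_const _
      rw [zero_mul] at h1
      have h2 := (h1.comp (tendsto_add_atTop_nat 1)).eventually_lt_const h0
      exact h2.exists
    refine ⟨d, fun T hT e ε hε w hw => ?_⟩
    have hlT : HasLip v (T : Set ℕ) B ℓ := hasLip_mono (fun p hp => hT p hp) hlip
    have h1 := hS v hv (T : Set ℕ) B ℓ hB hlT e ε (fun t p hp => hε t p hp)
    have hB' : 0 ≤ B / v 2 ^ e := div_nonneg hB (pow_nonneg hv2.le _)
    have h2 := hR v hv (T : Set ℕ) (B / v 2 ^ e) _ hB' h1 (d + e) (by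
      have e1 : v 2 ^ (d + e + 1) * (B / v 2 ^ e) = v 2 ^ (d + 1) * B := by
        have : v 2 ^ e ≠ 0 := (pow_pos hv2 _).ne'
        field_simp
        ring
      rw [e1, if_pos (fun t => by simp)]
      exact hd) T (fun x hx => hx) w hw
    refine h2.trans ?_
    refine mul_le_mul_of_nonneg_left (Finset.sum_le_sum fun S hS' => ?_) (by positivity)
    have hST : S ⊆ T := Finset.mem_powerset.1 hS'
    have hnn : 0 ≤ ∏ p ∈ S, w p := Finset.prod_nonneg fun p hp => (hw p (hST hp)).1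
    have hpos : 0 ≤ v 2 ^ (d + e + 1) * (B / v 2 ^ e) := mul_nonneg (pow_nonneg hv2.le _) hB'
    by_cases hc : v 2 ^ (d + e + 1) * (B / v 2 ^ e) < if ∀ t, ∏ p ∈ S, ε t p = 1 then ℓ S else 0
    · rw [if_pos hc]
      by_cases hs : ∀ t, ∏ p ∈ S, ε t p = 1
      · rw [if_pos hs] at hc
        rw [if_pos ⟨hs, hnv S (fun p hp => hT p (hST hp)) (hpos.trans_lt hc).ne'⟩]
      · rw [if_neg hs] at hc
        exact absurd hc (not_lt.2 hpos)
    · rw [if_neg hc]
      split_ifs
      · exact hnn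
      · exact le_rfl
  · intro P hP hDen e ε hε
    have hprime : ∀ p ∈ P, p.Prime := fun p hp => (hP p hp).1
    have hlP : HasLip v P B ℓ := hasLip_mono (fun p hp => hP p hp) hlip
    have h1 := hS v hv P B ℓ hB hlP e ε hε
    have hB' : 0 ≤ B / v 2 ^ e := div_nonneg hB (pow_nonneg hv2.le _)
    obtain ⟨c, hc, h2⟩ := hLow v hv P (B / v 2 ^ e) _ hprime (hD P hprime hDen) hB' h1
      (by rw [if_pos (fun t => by simp)]; exact h0)
    refine ⟨c, hc, fun X hX => (h2 X hX).trans ?_⟩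
    have h3 : ((Fm P X).filter (fun D =>
        (if ∀ t, ∏ p ∈ D.primeFactors, ε t p = 1 then ℓ D.primeFactors else 0) ≠ 0)) ⊆
        (Fm P X).filter (fun D => (∀ t, ∏ p ∈ D.primeFactors, ε t p = 1) ∧
          ∀ i, NonVan (κ i) (fun n => a i n * ψ i (n : ZMod (q i)) *
            (jacobiSym (n : ℤ) D : ℂ))) := by
      intro D hDm
      rw [Finset.mem_filter] at hDm ⊢
      refine ⟨hDm.1, ?_⟩
      have hF := hDm.1
      unfold Fm at hF
      rw [Finset.mem_filter] at hF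
      by_cases hs : ∀ t, ∏ p ∈ D.primeFactors, ε t p = 1
      · have hne := hDm.2
        rw [if_pos hs] at hne
        have h4 := hnv D.primeFactors (fun p hp => hP p (hF.2.2 p hp)) hne
        rw [prod_primeFactors hF.2.1] at h4
        exact ⟨hs, h4⟩
      · exact absurd (if_neg hs) hDm.2
    exact_mod_cast Finset.card_le_card h3

end

end Pool.Agent.Lib.MP_50bb2e_nt.Low.Final
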