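import Pool.Agent.Lib.MP_50bb2e_nt.Low.IfaceB
import Pool.Agent.Lib.MP_50bb2e_nt.Low.Final

/-! Board LOW, the final theorem with positive lower relative density. -/

namespace Pool.Agent.Lib.MP_50bb2e_nt.Low.FinalB

open Pool.Agent.Lib.MP_50bb2e_nt.Qtw Pool.Agent.Lib.MP_50bb2e_nt.Low
open Pool.Agent.Lib.MP_50bb2e_nt.Low.Final
open Filter Topology

noncomputable section

open Classical in
/-- weights on finite sets of good primes -/
def PartOne {r : ℕ} (N κ q : Fin r → ℕ) (a : Fin r → ℕ → ℂ)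
    (ψ : ∀ i, DirichletCharacter ℂ (q i)) (v : AbsoluteValue ℂ ℝ) : Prop :=
  ∃ d : ℕ, ∀ T : Finset ℕ, (∀ p ∈ T, Good N q a ψ v p) →
      ∀ (e : ℕ) (ε : Fin e → ℕ → ℤ), (∀ t, ∀ p ∈ T, ε t p = 1 ∨ ε t p = -1) →
      ∀ w : ℕ → ℝ, (∀ p ∈ T, 0 ≤ w p ∧ w p ≤ 1) →
        ∏ p ∈ T, (1 + w p) ≤ 2 ^ (d + e) * ∑ S ∈ T.powerset,
          if (∀ t, ∏ p ∈ S, ε t p = 1) ∧
            ∀ i, NonVan (κ i) (fun n => a i n * ψ i (n : ZMod (q i)) *
              (jacobiSym (n : ℤ) (∏ p ∈ S, p) : ℂ))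
          then ∏ p ∈ S, w p else 0

open Classical in
/-- positive lower natural density -/
def PartTwo {r : ℕ} (N κ q : Fin r → ℕ) (a : Fin r → ℕ → ℂ)
    (ψ : ∀ i, DirichletCharacter ℂ (q i)) (v : AbsoluteValue ℂ ℝ) : Prop :=
  ∀ P : Set ℕ, (∀ p ∈ P, Good N q a ψ v p) → LDense P →
      ∀ (e : ℕ) (ε : Fin e → ℕ → ℤ), (∀ t, ∀ p ∈ P, ε t p = 1 ∨ ε t p = -1) →
      ∃ c : ℝ, 0 < c ∧ ∀ X : ℕ, 1 ≤ X → c * ((Fm P X).card : ℝ) ≤
        (((Fm P X).filter (fun D => (∀ t, ∏ p ∈ D.primeFactors, ε t p = 1) ∧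
          ∀ i, NonVan (κ i) (fun n => a i n * ψ i (n : ZMod (q i)) *
            (jacobiSym (n : ℤ) D : ℂ)))).card : ℝ)

/-- the final statement -/
def FinalBStatement : Prop :=
  ∀ (r : ℕ) (N κ q : Fin r → ℕ)
    (f : ∀ i, CuspForm (CongruenceSubgroup.Gamma0 (N i)) (2 * (κ i : ℤ)))
    (a : Fin r → ℕ → ℂ) (ψ : ∀ i, DirichletCharacter ℂ (q i)),
    (∀ i, 0 < N i ∧ 0 < κ i ∧ 0 < q i ∧ Eigen (N i) (κ i) (f i) (a i)) →
    (∀ i, NonVan (κ i) (fun n => a i n * ψ i (n : ZMod (q i)))) →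
    ∀ v : AbsoluteValue ℂ ℝ, Dyadic v →
    PartOne N κ q a ψ v ∧ PartTwo N κ q a ψ v

theorem finalB_proof (hQ : QsysStatement) (hS : SignStatement) (hR : RmwStatement)
    (hLow : LowBStatement) : FinalBStatement := by
  classical
  intro r N κ q f a ψ hall hbase v hv
  obtain ⟨B, ℓ, hB, h0, hnv, hlip⟩ := hQ r N κ q f a ψ hall hbase v hv
  have hv2 : 0 < v 2 := v.pos two_ne_zero
  refine ⟨?_, ?_⟩
  · obtain ⟨d, hd⟩ : ∃ d : ℕ, v 2 ^ (d + 1) * B < ℓ ∅ := by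
      have h1 : Tendsto (fun n : ℕ => v 2 ^ n * B) atTop (𝓝 (0 * B)) :=
        (tendsto_pow_atTop_nhds_zero_of_lt_one (v.nonneg _) hv.2).mul_const _
      rw [zero_mul] at h1
      have h2 := (h1.comp (tendsto_add_atTop_nat 1)).eventually_lt_const h0
      exact h2.exists
    refine ⟨d, fun T hT e ε hε w hw => ?_⟩
    have hlT : HasLip v (T : Set ℕ) B ℓ := hasLip_mono (fun p hp => hT p hp) hlip
    have h1 := hS v hv (T : Set ℕ) B ℓ hB hlT e ε (fun t p hp => hε t p hp)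
    have hB' : 0 ≤ B / v 2 ^ e := div_nonneg hB (pow_nonneg hv2.le _)
    have h2 := hR v hv (T : Set ℕ) (B / v 2 ^ e) _ hB' h1 (d + e) (by
      have e1 : v 2 ^ (d + e + 1) * (B / v 2 ^ e) = v 2 ^ (d + 1) * B := by
        have : v 2 ^ e ≠ 0 := (pow_pos hv2 _).ne'
        field_simp
        ring
      rw [e1, if_pos (fun t => by simp)]
      exact hd) T (fun x hx => hx) w hw
    refine h2.trans ?_
    refine mul_le_mul_of_nonneg_left (Finset.sum_le_sum fun S hS' => ?_) (by positivity)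
    have hST : S ⊆ T := Finset.mem_powerset.1 hS'
    have hnn : 0 ≤ ∏ p ∈ S, w p := Finset.prod_nonneg fun p hp => (hw p (hST hp)).1
    have hpos : 0 ≤ v 2 ^ (d + e + 1) * (B / v 2 ^ e) := mul_nonneg (pow_nonneg hv2.le _) hB'
    by_cases hc : v 2 ^ (d + e + 1) * (B / v 2 ^ e) < if ∀ t, ∏ p ∈ S, ε t p = 1 then ℓ S else 0
    · rw [if_pos hc]
      by_cases hs : ∀ t, ∏ p ∈ S, ε t p = 1
      · rw [if_pos hs] at hc
        rw [if_pos ⟨hs, hnv S (fun p hp => hT p (hST hp)) (hpos.trans_lt hc).ne'⟩]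
      · rw [if_neg hs] at hc
        exact absurd hc (not_lt.2 hpos)
    · rw [if_neg hc]
      split_ifs
      · exact hnn
      · exact le_rfl
  · intro P hP hDen e ε hε
    have hprime : ∀ p ∈ P, p.Prime := fun p hp => (hP p hp).1
    have hlP : HasLip v P B ℓ := hasLip_mono (fun p hp => hP p hp) hlip
    have h1 := hS v hv P B ℓ hB hlP e ε hε
    have hB' : 0 ≤ B / v 2 ^ e := div_nonneg hB (pow_nonneg hv2.le _)
    obtain ⟨c, hc, h2⟩ := hLow v hv P (B / v 2 ^ e) _ hprime hDen hB' h1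
      (by rw [if_pos (fun t => by simp)]; exact h0)
    refine ⟨c, hc, fun X hX => (h2 X hX).trans ?_⟩
    have h3 : ((Fm P X).filter (fun D =>
        (if ∀ t, ∏ p ∈ D.primeFactors, ε t p = 1 then ℓ D.primeFactors else 0) ≠ 0)) ⊆
        (Fm P X).filter (fun D => (∀ t, ∏ p ∈ D.primeFactors, ε t p = 1) ∧
          ∀ i, NonVan (κ i) (fun n => a i n * ψ i (n : ZMod (q i)) *
            (jacobiSym (n : ℤ) D : ℂ))) := by
      intro D hDm
      rw [Finset.mem_filter] at hDm ⊢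
      refine ⟨hDm.1, ?_⟩
      have hF := hDm.1
      unfold Fm at hF
      rw [Finset.mem_filter] at hF
      by_cases hs : ∀ t, ∏ p ∈ D.primeFactors, ε t p = 1
      · have hne := hDm.2
        rw [if_pos hs] at hne
        have h4 := hnv D.primeFactors (fun p hp => hP p (hF.2.2 p hp)) hne
        rw [prod_primeFactors hF.2.1] at h4
        exact ⟨hs, h4⟩
      · exact absurd (if_neg hs) hDm.2
    exact_mod_cast Finset.card_le_card h3

end

end Pool.Agent.Lib.MP_50bb2e_nt.Low.FinalB
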