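import Pool.Agent.Lib.MP_50bb2e_nt.Low.IfaceB

/-! Board LOW, row LOWB. -/

namespace Pool.Agent.Lib.MP_50bb2e_nt.Low.LowB

open Pool.Agent.Lib.MP_50bb2e_nt.Qtw Pool.Agent.Lib.MP_50bb2e_nt.Low

theorem lowB_proof (h1 : LowerBStatement) (h2 : UpperStatement) (h3 : DnsBStatement) :
    LowBStatement := by
  classical
  intro v hv P B ℓ hprime hD hB hP h0
  obtain ⟨b, hb2, hbD⟩ := h3 P hprime hD
  obtain ⟨c, hc, X₀, hX⟩ := h1 b v hb2 hv P B ℓ hprime hbD hB hP h0
  obtain ⟨C, hC, hU⟩ := h2 P hprime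
  -- small values of `X`
  have hone : ∀ X : ℕ, 1 ≤ X → (1 : ℝ) ≤
      (((Fm P X).filter (fun D => ℓ D.primeFactors ≠ 0)).card : ℝ) := by
    intro X hX1
    have : 1 ≤ ((Fm P X).filter (fun D => ℓ D.primeFactors ≠ 0)).card := by
      refine Finset.card_pos.2 ⟨1, ?_⟩
      unfold Fm
      rw [Finset.mem_filter, Finset.mem_filter, Finset.mem_Icc]
      refine ⟨⟨⟨le_rfl, hX1⟩, squarefree_one, ?_⟩, ?_⟩
      · simp
      · rw [Nat.primeFactors_one]; exact h0.ne'
    exact_mod_cast this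
  have hle : ∀ X : ℕ, ((Fm P X).card : ℝ) ≤ X := by
    intro X
    have : (Fm P X).card ≤ X := by
      unfold Fm
      refine (Finset.card_filter_le _ _).trans ?_
      simp
    exact_mod_cast this
  refine ⟨min (c / C) (1 / (X₀ + 2)), lt_min (div_pos hc hC) (by positivity), fun X hX1 => ?_⟩
  by_cases hXX : X₀ + 2 ≤ X
  · have hlog : 0 < Real.log X := Real.log_pos (by
      have : 2 ≤ X := le_trans (Nat.le_add_left 2 X₀) hXX
      exact_mod_cast lt_of_lt_of_le one_lt_two this)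
    have e1 := hX X ((Nat.le_add_right _ _).trans hXX)
    have e2 := hU X hX1
    have e3 : c / C * ((Fm P X).card : ℝ) * Real.log X ≤
        (((Fm P X).filter (fun D => ℓ D.primeFactors ≠ 0)).card : ℝ) * Real.log X := by
      calc c / C * ((Fm P X).card : ℝ) * Real.log X
          = c / C * (((Fm P X).card : ℝ) * Real.log X) := by ring
        _ ≤ c / C * (C * X * ∏ p ∈ Ps P X, (1 + 1 / (p : ℝ))) :=
            mul_le_mul_of_nonneg_left e2 (div_pos hc hC).le
        _ = c * X * ∏ p ∈ Ps P X, (1 + 1 / (p : ℝ)) := by field_simp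
        _ ≤ _ := e1
    have e4 := le_of_mul_le_mul_right e3 hlog
    exact (mul_le_mul_of_nonneg_right (min_le_left _ _) (Nat.cast_nonneg _)).trans e4
  · push Not at hXX
    refine le_trans ?_ (hone X hX1)
    have hpos : (0 : ℝ) < X₀ + 2 := by positivity
    calc min (c / C) (1 / (X₀ + 2)) * ((Fm P X).card : ℝ)
        ≤ (1 / (X₀ + 2)) * (X : ℝ) := mul_le_mul (min_le_right _ _) (hle X) (Nat.cast_nonneg _)
          (by positivity)
      _ ≤ (1 / (X₀ + 2)) * (X₀ + 2) := by
          refine mul_le_mul_of_nonneg_left ?_ (by positivity)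
          exact_mod_cast hXX.le
      _ = 1 := by field_simp

end Pool.Agent.Lib.MP_50bb2e_nt.Low.LowB
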