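import Pool.Agent.Lib.MP_50bb2e_nt.Low.IfaceB

/-!
MP_50bb2e_nt, board LOW, row LOWERB (helper2): the lower bound for the non-vanishing part, blocks with
any base, from the rows AVGB, TRUNC and CHEB.
-/

namespace Pool.Agent.Lib.MP_50bb2e_nt.Low.LowerB

open Pool.Agent.Lib.MP_50bb2e_nt.Low
open Pool.Agent.Lib.MP_50bb2e_nt.Qtw (Dyadic)

theorem mem_Ps {P : Set ℕ} {X p : ℕ} : p ∈ Ps P X ↔ (1 ≤ p ∧ p ≤ X) ∧ p ∈ P := by
  classical
  unfold Ps
  rw [Finset.mem_filter, Finset.mem_Icc]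

theorem sqf_prod {S : Finset ℕ} (h : ∀ p ∈ S, p.Prime) : Squarefree (∏ p ∈ S, p) := by
  classical
  induction S using Finset.induction_on with
  | empty => simp
  | insert a S ha ih =>
    rw [Finset.prod_insert ha]
    have h1 : ∀ p ∈ S, p.Prime := fun p hp => h p (Finset.mem_insert_of_mem hp)
    have ha' := h a (Finset.mem_insert_self _ _)
    refine (Nat.squarefree_mul ?_).2 ⟨ha'.prime.squarefree, ih h1⟩
    refine Nat.Coprime.prod_right fun p hp => (Nat.coprime_primes ha' (h1 p hp)).2 ?_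
    rintro rfl
    exact ha hp

theorem prod_pos' {S : Finset ℕ} (h : ∀ p ∈ S, p.Prime) : 0 < ∏ p ∈ S, p :=
  Finset.prod_pos fun p hp => (h p hp).pos

/-- the numbers: `lam = log (X / D)`, `A + 2 = lam / M` -/
theorem nums {b X D L M q A₀ : ℕ} (hb : 2 ≤ b) (hL : L = Nat.log b X) (hX : X ≠ 0) (hD : 0 < D) (hDY : D ≤ b ^ (L / 2))
    (hM : 0 < M) (hq : 64 * M ≤ q) (hL1 : 32 * M ≤ L) (hL2 : 2 * (M * (A₀ + 3)) ≤ L) :
    ∃ A : ℕ, A₀ ≤ A ∧ L / q < A / 4 ∧ D * b ^ (M * A + 2 * M) ≤ X ∧ X ≤ D * b ^ (M * A + 3 * M) ∧ A + 1 ≤ L := by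
  have hXL : b ^ L ≤ X := by rw [hL]; exact Nat.pow_log_le_self b hX
  set lam := Nat.log b (X / D) with hlam
  have h1 : b ^ (L - L / 2) ≤ X / D := by
    rw [Nat.le_div_iff_mul_le hD]
    calc b ^ (L - L / 2) * D ≤ b ^ (L - L / 2) * b ^ (L / 2) := Nat.mul_le_mul_left _ hDY
      _ = b ^ L := by rw [← pow_add]; congr 1; omega
      _ ≤ X := hXL
  have hXD : X / D ≠ 0 := by
    have : 0 < b ^ (L - L / 2) := Nat.pow_pos (by omega)
    omega
  have h2 : L - L / 2 ≤ lam := Nat.le_log_of_pow_le (by omega) h1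
  have h3 : L ≤ 2 * lam := by omega
  have h4 : lam ≤ L := by rw [hlam, hL]; exact Nat.log_mono_right (Nat.div_le_self _ _)
  set Q := lam / M with hQ
  have h5 : M * Q ≤ lam := Nat.mul_div_le _ _
  have h6 : lam < M * (Q + 1) := by rw [hQ]; exact Nat.lt_mul_div_succ lam hM
  have h7 : A₀ + 3 ≤ Q := by
    rw [hQ, Nat.le_div_iff_mul_le hM]
    nlinarith
  set r := L / q with hr
  have h8 : r * q ≤ L := Nat.div_mul_le_self _ _
  have h9 : 64 * (r * M) ≤ L := by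
    calc 64 * (r * M) = r * (64 * M) := by ring
      _ ≤ r * q := Nat.mul_le_mul_left _ hq
      _ ≤ L := h8
  have h10 : 4 * r + 6 ≤ Q := by
    rw [hQ, Nat.le_div_iff_mul_le hM]
    have : (4 * r + 6) * M = 4 * (r * M) + 6 * M := by ring
    rw [this]
    omega
  refine ⟨Q - 2, by omega, by omega, ?_, ?_, ?_⟩
  · have h11 : M * (Q - 2) + 2 * M = M * Q := by
      have : Q = (Q - 2) + 2 := by omega
      conv_rhs => rw [this]
      ring
    rw [h11]
    calc D * b ^ (M * Q) ≤ D * b ^ lam := Nat.mul_le_mul_left _ (Nat.pow_le_pow_right (by omega) h5)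
      _ ≤ D * (X / D) := Nat.mul_le_mul_left _ (Nat.pow_log_le_self b hXD)
      _ ≤ X := Nat.mul_div_le _ _
  · have h11 : M * (Q - 2) + 3 * M = M * (Q + 1) := by
      have : Q = (Q - 2) + 2 := by omega
      conv_rhs => rw [this]
      ring
    rw [h11]
    have h12 : X / D < b ^ (lam + 1) := Nat.lt_pow_succ_log_self (by omega) _
    have h13 : X < b ^ (lam + 1) * D := (Nat.div_lt_iff_lt_mul hD).1 h12
    calc X ≤ b ^ (lam + 1) * D := h13.le
      _ ≤ b ^ (M * (Q + 1)) * D := Nat.mul_le_mul_right _ (Nat.pow_le_pow_right (by omega) h6)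
      _ = D * b ^ (M * (Q + 1)) := mul_comm _ _
  · have : Q ≤ lam := Nat.div_le_self _ _
    omega

theorem lowerB_proof (h1 : AvgBStatement) (h2 : TruncStatement)
    (h3 : ChebStatement) : LowerBStatement := by
  classical
  intro b v hb hv P B ℓ hP hBD hB hLip hl
  have hb1 : 1 < b := by omega
  have hb0 : 0 < b := by omega
  have hbr : (2 : ℝ) ≤ b := by exact_mod_cast hb
  -- the exponent
  obtain ⟨j, hj⟩ : ∃ j : ℕ, v 2 ^ (j + 1) * B < ℓ ∅ := by
    obtain ⟨n, hn⟩ := exists_pow_lt_of_lt_one (show 0 < ℓ ∅ / (B + 1) by positivity) hv.2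
    refine ⟨n, ?_⟩
    have hv0 : 0 ≤ v 2 := v.nonneg 2
    calc v 2 ^ (n + 1) * B ≤ v 2 ^ n * B :=
          mul_le_mul_of_nonneg_right (pow_le_pow_of_le_one hv0 hv.2.le (Nat.le_succ n)) hB
      _ ≤ v 2 ^ n * (B + 1) := mul_le_mul_of_nonneg_left (by linarith) (by positivity)
      _ < ℓ ∅ := by rwa [lt_div_iff₀ (by positivity)] at hn
  obtain ⟨η, hη, hT⟩ := h2 v hv P B ℓ hP hB hLip j hj
  obtain ⟨c, hc, A₀, hA⟩ := h1 b v hb hv P B ℓ hP hBD hB hLip (j + 1)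
  obtain ⟨C₁, hC₁, hCh⟩ := h3
  set M : ℕ := 2 ^ (j + 1) with hM
  have hM0 : 0 < M := by positivity
  obtain ⟨n₀, hn₀⟩ := exists_nat_ge (4 / η)
  set q : ℕ := n₀ + 64 * M with hq
  have hq0 : 0 < q := by omega
  obtain ⟨C', hC', hCh'⟩ := (hCh P hP).2.2 (2 * q)
  set c' : ℝ := c * Real.log b / ((b : ℝ) ^ (3 * M) * 2 ^ (j + 1) * C') with hc'
  have hlog2 : 0 < Real.log b := Real.log_pos (by linarith)
  refine ⟨c', by positivity, b ^ (q + 32 * M + 2 * (M * (A₀ + 3)) + 2), fun X hX => ?_⟩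
  have hX0 : X ≠ 0 := by
    have : 0 < b ^ (q + 32 * M + 2 * (M * (A₀ + 3)) + 2) := Nat.pow_pos hb0
    omega
  set L := Nat.log b X with hL
  have hLL : q + 32 * M + 2 * (M * (A₀ + 3)) + 2 ≤ L := Nat.le_log_of_pow_le hb1 hX
  have hL0 : 0 < L := by omega
  set r := L / q with hr
  have hr1 : 1 ≤ r := by
    rw [hr, Nat.le_div_iff_mul_le hq0]
    omega
  have hrq : r * q ≤ L := Nat.div_mul_le_self _ _
  have hrq' : L < q * (r + 1) := Nat.lt_mul_div_succ L hq0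
  have hXL : b ^ L ≤ X := Nat.pow_log_le_self b hX0
  have hXL' : X < b ^ (L + 1) := Nat.lt_pow_succ_log_self hb1 _
  -- real logarithms
  have hlz : Real.log ((b ^ r : ℕ) : ℝ) = r * Real.log b := by
    push_cast
    rw [Real.log_pow]
  have hlY : Real.log ((b ^ (L / 2) : ℕ) : ℝ) = (L / 2 : ℕ) * Real.log b := by
    push_cast
    rw [Real.log_pow]
  have hlX : Real.log X ≤ (L + 1) * Real.log b := by
    have h : (X : ℝ) ≤ (b : ℝ) ^ (L + 1) := by exact_mod_cast hXL'.le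
    have h' : (0 : ℝ) < X := by positivity
    calc Real.log X ≤ Real.log ((b : ℝ) ^ (L + 1)) := Real.log_le_log h' h
      _ = (L + 1) * Real.log b := by rw [Real.log_pow]; push_cast; ring
  have hlX' : L * Real.log b ≤ Real.log X := by
    have h : (b : ℝ) ^ L ≤ X := by exact_mod_cast hXL
    calc (L : ℝ) * Real.log b = Real.log ((b : ℝ) ^ L) := by rw [Real.log_pow]
      _ ≤ Real.log X := Real.log_le_log (by positivity) h
  -- truncation
  have hTr := hT (b ^ r) (b ^ (L / 2)) (by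
      calc 2 ≤ b := hb
        _ = b ^ 1 := (pow_one b).symm
        _ ≤ b ^ r := Nat.pow_le_pow_right hb0 hr1) (by
      rw [hlz, hlY]
      have e1 : (r : ℝ) * q ≤ L := by exact_mod_cast hrq
      have e2 : (L : ℝ) ≤ 4 * (L / 2 : ℕ) := by
        have : L ≤ 4 * (L / 2) := by omega
        exact_mod_cast this
      have e3 : 4 / η ≤ q := hn₀.trans (by exact_mod_cast Nat.le_add_right _ _)
      have e4 : 4 ≤ q * η := by rwa [div_le_iff₀ hη] at e3
      have e5 : (r : ℝ) ≤ η * (L / 2 : ℕ) := by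
        have hr0 : (0 : ℝ) ≤ r := by positivity
        nlinarith [mul_le_mul_of_nonneg_left e4 hr0, mul_le_mul_of_nonneg_right e1 hη.le,
          mul_le_mul_of_nonneg_right e2 hη.le]
      calc (r : ℝ) * Real.log b ≤ (η * (L / 2 : ℕ)) * Real.log b :=
            mul_le_mul_of_nonneg_right e5 hlog2.le
        _ = _ := by ring)
  set G := (Ps P (b ^ r)).powerset.filter
    (fun S => ∏ p ∈ S, p ≤ b ^ (L / 2) ∧ v 2 ^ (j + 1) * B < ℓ S) with hG
  have hGP : ∀ S ∈ G, (S : Set ℕ) ⊆ P ∧ (∀ p ∈ S, p.Prime) ∧ (∀ p ∈ S, p ≤ b ^ r) := by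
    intro S hS
    rw [hG, Finset.mem_filter, Finset.mem_powerset] at hS
    have h : ∀ p ∈ S, (1 ≤ p ∧ p ≤ b ^ r) ∧ p ∈ P := fun p hp => mem_Ps.1 (hS.1 hp)
    exact ⟨fun p hp => (h p hp).2, fun p hp => hP p (h p hp).2, fun p hp => (h p hp).1.2⟩
  -- the sets of large primes
  have hW : ∀ S ∈ G, ∃ W : Finset (Finset ℕ),
      c * X / ((b : ℝ) ^ (3 * M) * (∏ p ∈ S, p : ℕ) * L) ≤ (W.card : ℝ) ∧
        ∀ w ∈ W, (w : Set ℕ) ⊆ P ∧ (∀ p ∈ w, b ^ r < p) ∧ (∏ p ∈ S, p) * (∏ p ∈ w, p) ≤ X ∧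
          v 2 ^ (j + 1) * B < ℓ (S ∪ w) := by
    intro S hS
    obtain ⟨hSP, hSp, hSz⟩ := hGP S hS
    have hS' : ∏ p ∈ S, p ≤ b ^ (L / 2) ∧ v 2 ^ (j + 1) * B < ℓ S := by
      rw [hG, Finset.mem_filter] at hS
      exact hS.2
    have hD := prod_pos' hSp
    obtain ⟨A, a1, a2, a3, a4, a5⟩ := nums (A₀ := A₀) hb hL hX0 hD hS'.1 hM0 (q := q) (by omega)
      (by omega) (by omega)
    obtain ⟨W, b1, b2⟩ := hA A a1 S hSP (fun p hp => lt_of_le_of_lt (hSz p hp)
      (Nat.pow_lt_pow_right hb1 a2)) hS'.2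
    refine ⟨W, le_trans ?_ b1, fun w hw => ?_⟩
    · have e1 : (X : ℝ) ≤ (∏ p ∈ S, p : ℕ) * (b : ℝ) ^ (M * A + 3 * M) := by exact_mod_cast a4
      have e2 : ((A : ℝ) + 1) ≤ L := by exact_mod_cast a5
      have hDr : (0 : ℝ) < (∏ p ∈ S, p : ℕ) := by exact_mod_cast hD
      have hLr : (0 : ℝ) < L := by exact_mod_cast hL0
      rw [div_le_div_iff₀ (by positivity) (by positivity)]
      calc c * X * ((A : ℝ) + 1) ≤ c * ((∏ p ∈ S, p : ℕ) * (b : ℝ) ^ (M * A + 3 * M)) * L := by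
            gcongr
        _ = c * (b : ℝ) ^ (M * A) * ((b : ℝ) ^ (3 * M) * (∏ p ∈ S, p : ℕ) * L) := by rw [pow_add]; ring
    · obtain ⟨d1, d2, d3, d4⟩ := b2 w hw
      refine ⟨d1, fun p hp => lt_of_lt_of_le (Nat.pow_lt_pow_right hb1 a2) (d2 p hp), ?_, d4⟩
      have e : M * A + 2 ^ (j + 1 + 1) = M * A + 2 * M := by rw [hM, pow_succ 2 (j + 1)]; ring
      rw [e] at d3
      exact (Nat.mul_le_mul_left _ d3).trans a3
  choose! W hW1 hW2 using hW
  -- the injection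
  set R := (Fm P X).filter (fun D => ℓ D.primeFactors ≠ 0) with hR
  have hcard : ∑ S ∈ G, (W S).card ≤ R.card := by
    rw [← Finset.card_sigma]
    refine Finset.card_le_card_of_injOn (fun x => ∏ p ∈ x.1 ∪ x.2, p) ?_ ?_
    · intro x hx
      rw [Finset.mem_coe, Finset.mem_sigma] at hx
      obtain ⟨hSP, hSp, hSz⟩ := hGP _ hx.1
      obtain ⟨d1, d2, d3, d4⟩ := hW2 _ hx.1 _ hx.2
      have hu : ∀ p ∈ x.1 ∪ x.2, p.Prime := by
        intro p hp
        rcases Finset.mem_union.1 hp with h | h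
        · exact hSp p h
        · exact hP p (d1 h)
      have hdis : Disjoint x.1 x.2 := by
        rw [Finset.disjoint_left]
        intro p hp hp'
        have := hSz p hp
        have := d2 p hp'
        omega
      show (∏ p ∈ x.1 ∪ x.2, p) ∈ ((R : Finset ℕ) : Set ℕ)
      rw [Finset.mem_coe, hR, Finset.mem_filter, Fm, Finset.mem_filter, Finset.mem_Icc,
        Nat.primeFactors_prod hu]
      refine ⟨⟨⟨prod_pos' hu, ?_⟩, sqf_prod hu, ?_⟩, ?_⟩
      · rw [Finset.prod_union hdis]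
        exact d3
      · intro p hp
        rcases Finset.mem_union.1 hp with h | h
        · exact hSP h
        · exact d1 h
      · have : 0 ≤ v 2 ^ (j + 1) * B := mul_nonneg (pow_nonneg (v.nonneg 2) _) hB
        exact (lt_of_le_of_lt this d4).ne'
    · intro x hx y hy hxy
      rw [Finset.mem_coe, Finset.mem_sigma] at hx hy
      have key : ∀ x : (Σ _ : Finset ℕ, Finset ℕ), x.1 ∈ G → x.2 ∈ W x.1 →
          x.1 = (∏ p ∈ x.1 ∪ x.2, p).primeFactors.filter (fun p => p ≤ b ^ r) ∧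
          x.2 = (∏ p ∈ x.1 ∪ x.2, p).primeFactors.filter (fun p => ¬ p ≤ b ^ r) := by
        intro x h1 h2
        obtain ⟨hSP, hSp, hSz⟩ := hGP _ h1
        obtain ⟨d1, d2, d3, d4⟩ := hW2 _ h1 _ h2
        have hu : ∀ p ∈ x.1 ∪ x.2, p.Prime := by
          intro p hp
          rcases Finset.mem_union.1 hp with h | h
          · exact hSp p h
          · exact hP p (d1 h)
        rw [Nat.primeFactors_prod hu]
        constructor
        · ext p
          rw [Finset.mem_filter, Finset.mem_union]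
          refine ⟨fun h => ⟨Or.inl h, hSz p h⟩, ?_⟩
          rintro ⟨h | h, h'⟩
          · exact h
          · exact absurd h' (not_le.2 (d2 p h))
        · ext p
          rw [Finset.mem_filter, Finset.mem_union]
          refine ⟨fun h => ⟨Or.inr h, not_le.2 (d2 p h)⟩, ?_⟩
          rintro ⟨h | h, h'⟩
          · exact absurd (hSz p h) h'
          · exact h
      obtain ⟨k1, k2⟩ := key x hx.1 hx.2
      obtain ⟨k3, k4⟩ := key y hy.1 hy.2
      have hxy' : (∏ p ∈ x.1 ∪ x.2, p) = ∏ p ∈ y.1 ∪ y.2, p := hxy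
      have e1 : x.1 = y.1 := by rw [k1, k3, hxy']
      have e2 : x.2 = y.2 := by rw [k2, k4, hxy']
      obtain ⟨x1, x2⟩ := x
      obtain ⟨y1, y2⟩ := y
      simp only at e1 e2
      rw [e1, e2]
  -- Mertens
  have hMe := hCh' (b ^ r) X (by
      calc 2 ≤ b := hb
        _ = b ^ 1 := (pow_one b).symm
        _ ≤ b ^ r := Nat.pow_le_pow_right hb0 hr1) (by
      rw [hlz]
      have e1 : L + 1 ≤ 2 * q * r := by nlinarith
      have e2 : ((L : ℝ) + 1) ≤ 2 * q * r := by exact_mod_cast e1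
      calc Real.log X ≤ (L + 1) * Real.log b := hlX
        _ ≤ (2 * q * r) * Real.log b := mul_le_mul_of_nonneg_right e2 hlog2.le
        _ = _ := by ring)
  -- conclusion
  have hLr : (0 : ℝ) < L := by exact_mod_cast hL0
  have hXr : (0 : ℝ) < X := by positivity
  have f1 : c * X / ((b : ℝ) ^ (3 * M) * L) * ∑ S ∈ G, 1 / ((∏ p ∈ S, p : ℕ) : ℝ) ≤ (R.card : ℝ) := by
    calc c * X / ((b : ℝ) ^ (3 * M) * L) * ∑ S ∈ G, 1 / ((∏ p ∈ S, p : ℕ) : ℝ)
        = ∑ S ∈ G, c * X / ((b : ℝ) ^ (3 * M) * (∏ p ∈ S, p : ℕ) * L) := by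
          rw [Finset.mul_sum]
          refine Finset.sum_congr rfl fun S hS => ?_
          have hD := prod_pos' (hGP S hS).2.1
          have hDr : (0 : ℝ) < (∏ p ∈ S, p : ℕ) := by exact_mod_cast hD
          field_simp
      _ ≤ ∑ S ∈ G, ((W S).card : ℝ) := Finset.sum_le_sum fun S hS => hW1 S hS
      _ = ((∑ S ∈ G, (W S).card : ℕ) : ℝ) := by push_cast; rfl
      _ ≤ (R.card : ℝ) := by exact_mod_cast hcard
  have f2 : ∏ p ∈ Ps P X, (1 + 1 / (p : ℝ)) ≤
      C' * (2 ^ (j + 1) * ∑ S ∈ G, 1 / ((∏ p ∈ S, p : ℕ) : ℝ)) :=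
    hMe.trans (mul_le_mul_of_nonneg_left hTr hC'.le)
  have f3 : 0 ≤ ∑ S ∈ G, 1 / ((∏ p ∈ S, p : ℕ) : ℝ) := Finset.sum_nonneg fun S _ => by positivity
  calc c' * X * ∏ p ∈ Ps P X, (1 + 1 / (p : ℝ))
      ≤ c' * X * (C' * (2 ^ (j + 1) * ∑ S ∈ G, 1 / ((∏ p ∈ S, p : ℕ) : ℝ))) :=
        mul_le_mul_of_nonneg_left f2 (by positivity)
    _ = (c * X / ((b : ℝ) ^ (3 * M) * L) * ∑ S ∈ G, 1 / ((∏ p ∈ S, p : ℕ) : ℝ)) * (L * Real.log b) := by
        rw [hc']
        field_simp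
    _ ≤ (R.card : ℝ) * (L * Real.log b) := mul_le_mul_of_nonneg_right f1 (by positivity)
    _ ≤ (R.card : ℝ) * Real.log X := mul_le_mul_of_nonneg_left hlX' (by positivity)

end Pool.Agent.Lib.MP_50bb2e_nt.Low.LowerB
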