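import Pool.Agent.Lib.MP_50bb2e_nt.Low.Iface
import Pool.Agent.Lib.MP_50bb2e_nt.Qtw.Fin

/-! Board LOW, row QSYS. -/

namespace Pool.Agent.Lib.MP_50bb2e_nt.Low.Qsys

open Pool.Agent.Lib.MP_50bb2e_nt.Qtw Pool.Agent.Lib.MP_50bb2e_nt.Low
open Pool.Agent.Lib.MP_50bb2e_nt.Qtw.Fin

noncomputable section

variable {v : AbsoluteValue ℂ ℝ} {N κ q : ℕ}
  {f : CuspForm (CongruenceSubgroup.Gamma0 N) (2 * (κ : ℤ))} {a : ℕ → ℂ}
  {ψ : DirichletCharacter ℂ q}

theorem ch_self (S : Finset ℕ) (p : ℕ) (hp : p ∈ S) (hpr : p.Prime) : ch S p = 0 := by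
  unfold ch
  refine Finset.prod_eq_zero hp ?_
  have : NeZero p := ⟨hpr.ne_zero⟩
  have h : jacobiSym (p : ℤ) p = 0 := by
    rw [jacobiSym.eq_zero_iff_not_coprime, Int.gcd_natCast_natCast, Nat.gcd_self]
    exact hpr.one_lt.ne'
  rw [h]; simp

theorem ch_unit (S : Finset ℕ) (hS : ∀ p ∈ S, p.Prime) (p : ℕ) (hp : p.Prime) (hpS : p ∉ S) :
    ch S p = 1 ∨ ch S p = -1 := by
  induction S using Finset.induction_on with
  | empty => left; simp [ch]
  | insert b S hb ih =>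
    have h1 := ih (fun r hr => hS r (Finset.mem_insert_of_mem hr))
      (fun h => hpS (Finset.mem_insert_of_mem h))
    have h2 : ch (insert b S) p = ((jacobiSym (p : ℤ) b : ℤ) : ℂ) * ch S p := by
      unfold ch; rw [Finset.prod_insert hb]
    have hbp := hS b (Finset.mem_insert_self _ _)
    have : NeZero b := ⟨hbp.ne_zero⟩
    have hne : jacobiSym (p : ℤ) b ≠ 0 := by
      rw [Ne, jacobiSym.eq_zero_iff_not_coprime, not_not, Int.gcd_natCast_natCast]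
      exact (Nat.coprime_primes hp hbp).2 (fun h => hpS (h ▸ Finset.mem_insert_self _ _))
    rw [h2]
    rcases jacobiSym.trichotomy (p : ℤ) b with h3 | h3 | h3
    · exact absurd h3 hne
    · rw [h3]; simpa using h1
    · rw [h3]
      rcases h1 with h1 | h1
      · right; rw [h1]; simp
      · left; rw [h1]; simp

theorem exists_cv (hq : 0 < q) {C : ℝ}
    (hC : ∀ M : ℕ, 0 < M → ∀ φ : ℕ → ℂ, (∀ n, φ (n + M) = φ n) → (∀ n, v (φ n) ≤ 1) →
        ∃ l : ℂ, CV κ (fun n => a n * φ n) l ∧ v l * v M ^ κ ≤ C)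
    (S : Finset ℕ) (hS : ∀ p ∈ S, p.Prime) :
    ∃ l : ℂ, CV κ (fun n => a n * (ψ (n : ZMod q) * ch S n)) l := by
  have hP : 0 < q * ∏ p ∈ S, p := Nat.mul_pos hq (Finset.prod_pos fun p hp => (hS p hp).pos)
  obtain ⟨l, hl, -⟩ := hC (q * ∏ p ∈ S, p) hP (fun n => ψ (n : ZMod q) * ch S n)
    (fun n => by
      show ψ ((n + q * ∏ p ∈ S, p : ℕ) : ZMod q) * _ = _
      rw [psi_per, ch_per _ _ _ (dvd_mod S)])
    (fun n => by
      show v (_ * _) ≤ 1
      rw [map_mul]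
      exact mul_le_one₀ (v_char hq ψ _) (v.nonneg _) (v_ch _ _))
  exact ⟨l, hl⟩

theorem twist_one (hL : LinStatement) (hEu : EulStatement) (hv : Dyadic v) (hN : 0 < N)
    (hκ : 0 < κ) (hq : 0 < q) (hE : Eigen N κ f a) (T S : Finset ℕ) (hST : S ⊆ T)
    (hT : ∀ p ∈ T, p.Prime ∧ p ≠ 2 ∧ ¬ p ∣ N * q ∧ v (a p) ≤ 1 ∧
        v (1 - a p * ψ (p : ZMod q) + ψ (p : ZMod q) ^ 2) = 1)
    (h0 : ∃ l, CV κ (fun n => a n * (ψ (n : ZMod q) * ch S n)) l) :
    v (val κ (ee a ψ T S)) = v (val κ (fun n => a n * (ψ (n : ZMod q) * ch S n))) := by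
  have h1 := val_spec hL h0
  have h2 := euler hEu hN hκ hE (fun n => ψ (n : ZMod q) * ch S n) (psi_mul ψ S) _ h1 T
    (fun p hp => ⟨(hT p hp).1, fun hd => (hT p hp).2.2.1 (hd.mul_right q)⟩)
  have h3 : (fun n => a n * (ψ (n : ZMod q) * ch S n * cop T n)) = ee a ψ T S := rfl
  rw [h3] at h2
  rw [val_eq hL h2, map_mul, map_prod, Finset.prod_congr rfl (g := fun _ => (1 : ℝ)),
    Finset.prod_const_one, one_mul]
  intro p hp
  obtain ⟨hp1, hp2, -, hp4, hp5⟩ := hT p hp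
  by_cases hpS : p ∈ S
  · have h5 : (ψ (p : ZMod q) * ch S p) = 0 := by rw [ch_self S p hpS hp1, mul_zero]
    show v (1 - a p * (ψ (p : ZMod q) * ch S p) / (p : ℂ) ^ κ +
      (ψ (p : ZMod q) * ch S p) ^ 2 / p) = 1
    rw [h5]
    simp
  · have hy : v (ψ (p : ZMod q) * ch S p) ≤ 1 := by
      rw [map_mul]; exact mul_le_one₀ (v_char hq ψ _) (v.nonneg _) (v_ch _ _)
    refine v_E hv p hp1 hp2 _ _ hp4 hy ?_
    show v (1 - a p * (ψ (p : ZMod q) * ch S p) + (ψ (p : ZMod q) * ch S p) ^ 2) = 1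
    rcases ch_unit S (fun r hr => (hT r (hST hr)).1) p hp1 hpS with h | h
    · rw [h, mul_one]; exact hp5
    · rw [h, v_eq_of_near hv (y := 1 - a p * ψ (p : ZMod q) + ψ (p : ZMod q) ^ 2), hp5]
      rw [hp5]
      have e : (1 - a p * (ψ (p : ZMod q) * -1) + (ψ (p : ZMod q) * -1) ^ 2) -
          (1 - a p * ψ (p : ZMod q) + ψ (p : ZMod q) ^ 2) = 2 * (a p * ψ (p : ZMod q)) := by ring
      rw [e, map_mul, map_mul]
      calc v 2 * (v (a p) * v (ψ (p : ZMod q))) ≤ v 2 * 1 :=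
            mul_le_mul_of_nonneg_left (mul_le_one₀ hp4 (v.nonneg _) (v_char hq ψ _))
              (v.nonneg _)
        _ < 1 := by rw [mul_one]; exact hv.2

theorem qsys_proof (hL : LinStatement) (hF : FouStatement) (hEu : EulStatement)
    (hPr : ProStatement) : QsysStatement := by
  classical
  intro r N κ q f a ψ hall hbase v hv
  have hC : ∀ i, ∃ C : ℝ, 0 < C ∧ ∀ M : ℕ, 0 < M → ∀ φ : ℕ → ℂ, (∀ n, φ (n + M) = φ n) →
      (∀ n, v (φ n) ≤ 1) → ∃ l : ℂ, CV (κ i) (fun n => a i n * φ n) l ∧ v l * v M ^ κ i ≤ C :=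
    fun i => hF (N i) (κ i) (hall i).1 (hall i).2.1 (f i) (a i) (hall i).2.2.2 v hv
  choose C hC0 hC1 using hC
  have hvq : ∀ i, 0 < v (q i) := fun i => v.pos (by exact_mod_cast (hall i).2.2.1.ne')
  have hBpos : ∀ i, 0 < C i / v (q i) ^ κ i := fun i => div_pos (hC0 i) (pow_pos (hvq i) _)
  refine ⟨∏ i, C i / v (q i) ^ κ i, fun S => ∏ i, v (val (κ i) (fun n => a i n *
    (ψ i (n : ZMod (q i)) * ch S n))), Finset.prod_nonneg fun i _ => (hBpos i).le, ?_, ?_, ?_⟩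
  · refine Finset.prod_pos fun i _ => v.pos ?_
    obtain ⟨l, hl, hcv⟩ := hbase i
    have e : (fun n => a i n * (ψ i (n : ZMod (q i)) * ch ∅ n)) =
        fun n => a i n * ψ i (n : ZMod (q i)) := by
      funext n; simp [ch]
    rw [e, val_eq hL hcv]; exact hl
  · intro S hS hne i
    have h1 : v (val (κ i) (fun n => a i n * (ψ i (n : ZMod (q i)) * ch S n))) ≠ 0 :=
      (Finset.prod_ne_zero_iff.1 hne) i (Finset.mem_univ i)
    have h2 : val (κ i) (fun n => a i n * (ψ i (n : ZMod (q i)) * ch S n)) ≠ 0 := by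
      intro h; rw [h, map_zero] at h1; exact h1 rfl
    refine ⟨_, h2, ?_⟩
    have h3 := val_spec hL (exists_cv (ψ := ψ i) (hall i).2.2.1 (hC1 i) S
      (fun p hp => (hS p hp).1))
    have h4 : (fun n : ℕ => a i n * ψ i (n : ZMod (q i)) *
        ((jacobiSym (n : ℤ) (∏ p ∈ S, p) : ℤ) : ℂ)) =
        fun n => a i n * (ψ i (n : ZMod (q i)) * ch S n) := by
      funext n
      rw [ch_eq S (fun p hp => (hS p hp).1)]; ring
    rw [h4]
    exact h3
  · intro T hT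
    have hT' : ∀ p ∈ T, p.Prime ∧ p ≠ 2 := fun p hp => ⟨(hT hp).1, (hT hp).2.1⟩
    refine ⟨fun S => ∏ i, val (κ i) (ee (a i) (ψ i) T S),
      lip_prod hPr hv Finset.univ T _ (fun i S => val (κ i) (ee (a i) (ψ i) T S))
        (fun i _ => (hBpos i).le)
        (fun i _ => lip_one hL hv (hall i).2.2.1 (hC1 i) T hT'), ?_⟩
    intro S hS
    rw [map_prod]
    refine Finset.prod_congr rfl fun i _ => ?_
    refine twist_one hL hEu hv (hall i).1 (hall i).2.1 (hall i).2.2.1 (hall i).2.2.2 T S hS ?_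
      (exists_cv (hall i).2.2.1 (hC1 i) S (fun p hp => (hT' p (hS hp)).1))
    intro p hp
    obtain ⟨g1, g2, g3⟩ := hT hp
    exact ⟨g1, g2, (g3 i).1, (g3 i).2.1, (g3 i).2.2⟩

end

end Pool.Agent.Lib.MP_50bb2e_nt.Low.Qsys
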