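import Pool.Agent.Lib.MP_50bb2e_nt.Low.Iface
import Pool.Agent.Lib.MP_50bb2e_nt.Qtw.Pro

/-! Row REPL of LOW: replacing blocks of primes by others. -/

namespace Pool.Agent.Lib.MP_50bb2e_nt.Low.Repl

open Pool.Agent.Lib.MP_50bb2e_nt.Qtw (Dyadic Lip Dif Eigen CV NonVan)
open Pool.Agent.Lib.MP_50bb2e_nt.Qtw.Pro
open Pool.Agent.Lib.MP_50bb2e_nt.Low

variable {v : AbsoluteValue ℂ ℝ}

theorem lip_add (hv : Dyadic v) {T : Finset ℕ} {B : ℝ} {F G : Finset ℕ → ℂ}
    (hF : Lip v T B F) (hG : Lip v T B G) : Lip v T B (fun S => F S + G S) := by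
  intro C U hC hU hd
  rw [dif_add]
  exact (hv.1 _ _).trans (max_le (hF C U hC hU hd) (hG C U hC hU hd))

theorem lip_sub (hv : Dyadic v) {T : Finset ℕ} {B : ℝ} {F G : Finset ℕ → ℂ}
    (hF : Lip v T B F) (hG : Lip v T B G) : Lip v T B (fun S => F S - G S) := by
  intro C U hC hU hd
  rw [dif_sub, sub_eq_add_neg]
  refine (hv.1 _ _).trans (max_le (hF C U hC hU hd) ?_)
  rw [map_neg_eq_map]
  exact hG C U hC hU hd

/-- shift by a set -/
theorem lip_shs {T a : Finset ℕ} {B : ℝ} {F : Finset ℕ → ℂ} (ha : a ⊆ T)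
    (h : Lip v T B F) : Lip v (T \ a) B (fun S => F (a ∪ S)) := by
  intro C U hC hU hd
  have e : Dif (fun S => F (a ∪ S)) C U = Dif F (a ∪ C) U := by
    unfold Dif
    refine Finset.sum_congr rfl fun S _ => ?_
    rw [Finset.union_assoc]
  rw [e]
  refine h _ _ (Finset.union_subset ha (hC.trans Finset.sdiff_subset))
    (hU.trans Finset.sdiff_subset) ?_
  rw [Finset.disjoint_union_left]
  exact ⟨Finset.disjoint_left.2 fun x hx hxU => (Finset.mem_sdiff.1 (hU hxU)).2 hx, hd⟩

theorem lip_rem (hv : Dyadic v) {T : Finset ℕ} {B : ℝ} {F : Finset ℕ → ℂ} (hB : 0 ≤ B)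
    (h : Lip v T B F) (a : Finset ℕ) : a ⊆ T →
    Lip v (T \ a) (v 2 * B) (fun S => F S - F (a ∪ S)) := by
  induction a using Finset.induction_on with
  | empty =>
    intro _ C U _ _ _
    have : Dif (fun S => F S - F (∅ ∪ S)) C U = 0 := by
      unfold Dif
      refine Finset.sum_eq_zero fun S _ => ?_
      simp
    rw [this, map_zero]
    have := v.nonneg 2
    positivity
  | insert p a hp ih =>
    intro ha
    have hpT : p ∈ T := ha (Finset.mem_insert_self _ _)
    have haT : a ⊆ T := (Finset.subset_insert _ _).trans ha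
    have h1 := ih haT
    have hpa : p ∈ T \ a := Finset.mem_sdiff.2 ⟨hpT, hp⟩
    have h2 := lip_diff hpa (lip_shs haT h)
    have hs : T \ insert p a ⊆ (T \ a).erase p := by
      intro x hx
      rw [Finset.mem_sdiff, Finset.mem_insert] at hx
      push Not at hx
      exact Finset.mem_erase.2 ⟨hx.2.1, Finset.mem_sdiff.2 ⟨hx.1, hx.2.2⟩⟩
    have h3 := lip_add hv (lip_mono (hs.trans (Finset.erase_subset _ _)) h1) (lip_mono hs h2)
    have e : (fun S => F S - F (insert p a ∪ S)) = (fun S => (F S - F (a ∪ S)) +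
        (F (a ∪ S) - sh p (fun S => F (a ∪ S)) S)) := by
      funext S
      unfold sh
      have : insert p a ∪ S = a ∪ insert p S := by
        ext x; simp only [Finset.mem_union, Finset.mem_insert]; tauto
      rw [this]; ring
    rw [e]
    exact h3

theorem lip_repl (hv : Dyadic v) {T a b : Finset ℕ} {B : ℝ} {F : Finset ℕ → ℂ} (hB : 0 ≤ B)
    (h : Lip v T B F) (ha : a ⊆ T) (hb : b ⊆ T) :
    Lip v (T \ (a ∪ b)) (v 2 * B) (fun S => F (a ∪ S) - F (b ∪ S)) := by
  have h1 := lip_mono (Finset.sdiff_subset_sdiff (le_refl T) (Finset.subset_union_left (s₂ := b)))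
    (lip_rem hv hB h a ha)
  have h2 := lip_mono (Finset.sdiff_subset_sdiff (le_refl T) (Finset.subset_union_right (s₁ := a)))
    (lip_rem hv hB h b hb)
  have h3 := lip_sub hv h2 h1
  have e : (fun S => F (a ∪ S) - F (b ∪ S)) =
      (fun S => (F S - F (b ∪ S)) - (F S - F (a ∪ S))) := by
    funext S; ring
  rw [e]
  exact h3

theorem repl_aux (hv : Dyadic v) {ι : Type} [DecidableEq ι] (a b : ι → Finset ℕ) (U : Finset ι) :
    ∀ (T : Finset ℕ) (B : ℝ) (F : Finset ℕ → ℂ) (E : Finset ℕ), 0 ≤ B → Lip v T B F → E ⊆ T →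
    (∀ i ∈ U, a i ⊆ T ∧ b i ⊆ T ∧ Disjoint E (a i ∪ b i)) →
    (∀ i ∈ U, ∀ j ∈ U, i ≠ j → Disjoint (a i ∪ b i) (a j ∪ b j)) →
    v (∑ S ∈ U.powerset, (-1) ^ S.card * F (E ∪ ((U \ S).biUnion a ∪ S.biUnion b))) ≤
      v 2 ^ U.card * B := by
  induction U using Finset.induction_on with
  | empty =>
    intro T B F E _ hF hE _ _
    have := hF E ∅ hE (Finset.empty_subset _) (Finset.disjoint_empty_right _)
    rw [dif_empty] at this
    simpa using this
  | insert p U hp ih =>
    intro T B F E hB hF hE h1 h2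
    obtain ⟨hap, hbp, hEp⟩ := h1 p (Finset.mem_insert_self _ _)
    have key : ∑ S ∈ (insert p U).powerset, (-1 : ℂ) ^ S.card *
          F (E ∪ (((insert p U) \ S).biUnion a ∪ S.biUnion b)) =
        ∑ S ∈ U.powerset, (-1 : ℂ) ^ S.card *
          ((fun Z => F (a p ∪ Z) - F (b p ∪ Z)) (E ∪ ((U \ S).biUnion a ∪ S.biUnion b))) := by
      rw [Finset.sum_powerset_insert hp, ← Finset.sum_add_distrib]
      refine Finset.sum_congr rfl fun S hS => ?_
      have hpS : p ∉ S := fun h => hp (Finset.mem_powerset.1 hS h)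
      have e1 : E ∪ (((insert p U) \ S).biUnion a ∪ S.biUnion b) =
          a p ∪ (E ∪ ((U \ S).biUnion a ∪ S.biUnion b)) := by
        rw [Finset.insert_sdiff_of_notMem _ hpS, Finset.biUnion_insert]
        ext x; simp only [Finset.mem_union]; tauto
      have e2 : E ∪ (((insert p U) \ (insert p S)).biUnion a ∪ (insert p S).biUnion b) =
          b p ∪ (E ∪ ((U \ S).biUnion a ∪ S.biUnion b)) := by
        have : insert p U \ insert p S = U \ S := by
          ext x; simp only [Finset.mem_sdiff, Finset.mem_insert]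
          constructor
          · rintro ⟨h1, h2⟩
            push Not at h2
            exact ⟨h1.resolve_left h2.1, h2.2⟩
          · rintro ⟨h1, h2⟩
            exact ⟨Or.inr h1, fun h => h.elim (fun h => hp (h ▸ h1)) h2⟩
        rw [this, Finset.biUnion_insert]
        ext x; simp only [Finset.mem_union]; tauto
      rw [e1, e2, Finset.card_insert_of_notMem hpS, pow_succ]
      ring
    rw [key]
    have hdis : ∀ Z : Finset ℕ, Z ⊆ T → Disjoint (a p ∪ b p) Z → Z ⊆ T \ (a p ∪ b p) := by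
      intro Z hZ hd x hx
      exact Finset.mem_sdiff.2 ⟨hZ hx, fun h => (Finset.disjoint_left.1 hd h) hx⟩
    have h3 := ih (T \ (a p ∪ b p)) (v 2 * B) (fun Z => F (a p ∪ Z) - F (b p ∪ Z)) E
      (mul_nonneg (v.nonneg _) hB) (lip_repl hv hB hF hap hbp) (hdis E hE hEp.symm)
      (fun i hi => by
        have hi' := Finset.mem_insert_of_mem (a := i) (b := p) hi
        have hip : p ≠ i := fun h => hp (h ▸ hi)
        have hd := h2 p (Finset.mem_insert_self _ _) i hi' hip
        obtain ⟨q1, q2, q3⟩ := h1 i hi'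
        exact ⟨hdis _ q1 (hd.mono_right Finset.subset_union_left),
          hdis _ q2 (hd.mono_right Finset.subset_union_right), q3⟩)
      (fun i hi j hj hij => h2 i (Finset.mem_insert_of_mem hi) j (Finset.mem_insert_of_mem hj) hij)
    rw [Finset.card_insert_of_notMem hp, pow_succ]
    calc _ ≤ _ := h3
      _ = _ := by ring

theorem repl_proof : ReplStatement := by
  intro ι _ v hv T B F hB hF X a b D hD h1 h2 C U hC hU hd
  set E := D ∪ ((X \ (C ∪ U)).biUnion a ∪ C.biUnion b) with hE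
  have hET : E ⊆ T := by
    refine Finset.union_subset hD (Finset.union_subset ?_ ?_)
    · exact Finset.biUnion_subset.2 fun i hi => (h1 i (Finset.mem_sdiff.1 hi).1).1
    · exact Finset.biUnion_subset.2 fun i hi => (h1 i (hC hi)).2.1
  have key : ∑ S ∈ U.powerset, (-1 : ℂ) ^ S.card *
        (fun Y => F (D ∪ (X \ Y).biUnion a ∪ Y.biUnion b)) (C ∪ S) =
      ∑ S ∈ U.powerset, (-1 : ℂ) ^ S.card *
        F (E ∪ ((U \ S).biUnion a ∪ S.biUnion b)) := by
    refine Finset.sum_congr rfl fun S hS => ?_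
    rw [Finset.mem_powerset] at hS
    have hX : X \ (C ∪ S) = (X \ (C ∪ U)) ∪ (U \ S) := by
      ext x
      simp only [Finset.mem_sdiff, Finset.mem_union]
      constructor
      · rintro ⟨hx, h⟩
        push Not at h
        by_cases hxU : x ∈ U
        · exact Or.inr ⟨hxU, h.2⟩
        · exact Or.inl ⟨hx, fun h' => h'.elim h.1 hxU⟩
      · rintro (⟨hx, h⟩ | ⟨hx, h⟩)
        · push Not at h
          exact ⟨hx, fun h' => h'.elim h.1 (fun h'' => h.2 (hS h''))⟩
        · exact ⟨hU hx, fun h' => h'.elim (fun h'' => (Finset.disjoint_left.1 hd h'') hx) h⟩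
    have : D ∪ (X \ (C ∪ S)).biUnion a ∪ (C ∪ S).biUnion b =
        E ∪ ((U \ S).biUnion a ∪ S.biUnion b) := by
      rw [hX, hE, Finset.union_biUnion, Finset.union_biUnion]
      ext x; simp only [Finset.mem_union]; tauto
    simp only [this]
  have h3 : ∀ i ∈ U, Disjoint E (a i ∪ b i) := by
    intro i hi
    have hiX := hU hi
    rw [hE, Finset.disjoint_union_left, Finset.disjoint_union_left]
    refine ⟨?_, ?_, ?_⟩
    · rw [Finset.disjoint_union_right]
      exact ⟨(h1 i hiX).2.2.1, (h1 i hiX).2.2.2⟩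
    · rw [Finset.disjoint_biUnion_left]
      intro j hj
      rw [Finset.mem_sdiff, Finset.mem_union] at hj
      push Not at hj
      have hji : j ≠ i := fun h => hj.2.2 (h ▸ hi)
      exact (h2 j hj.1 i hiX hji).mono_left Finset.subset_union_left
    · rw [Finset.disjoint_biUnion_left]
      intro j hj
      have hji : j ≠ i := fun h => (Finset.disjoint_left.1 hd hj) (h ▸ hi)
      exact (h2 j (hC hj) i hiX hji).mono_left Finset.subset_union_right
  rw [key]
  exact repl_aux hv a b U T B F E hB hF hET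
    (fun i hi => ⟨(h1 i (hU hi)).1, (h1 i (hU hi)).2.1, h3 i hi⟩)
    (fun i hi j hj hij => h2 i (hU hi) j (hU hj) hij)

end Pool.Agent.Lib.MP_50bb2e_nt.Low.Repl
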