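import Pool.Agent.Lib.MP_50bb2e_nt.Low.Iface
import Pool.Agent.Lib.MP_50bb2e_nt.Qtw.Pro

/-! Row SIGN of LOW: sign conditions. -/

namespace Pool.Agent.Lib.MP_50bb2e_nt.Low.Sign

open Pool.Agent.Lib.MP_50bb2e_nt.Qtw
open Pool.Agent.Lib.MP_50bb2e_nt.Low

/-- half of one plus the product of the signs -/
noncomputable def half (ε : ℕ → ℤ) (S : Finset ℕ) : ℂ := (1 + ((∏ p ∈ S, ε p : ℤ) : ℂ)) / 2

theorem dif_prod (ε : ℕ → ℤ) (U : Finset ℕ) : ∀ C : Finset ℕ, Disjoint C U →
    Dif (fun S => ((∏ p ∈ S, ε p : ℤ) : ℂ)) C U =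
      ((∏ p ∈ C, ε p : ℤ) : ℂ) * ∏ p ∈ U, (1 - ((ε p : ℤ) : ℂ)) := by
  induction U using Finset.induction_on with
  | empty =>
    intro C _
    rw [Pro.dif_empty]
    simp
  | insert p U hpU ih =>
    intro C hC
    rw [Finset.disjoint_insert_right] at hC
    rw [Pro.dif_insert _ _ _ _ hpU, ih C hC.2, ih (insert p C) (by
      rw [Finset.disjoint_insert_left]; exact ⟨hpU, hC.2⟩), Finset.prod_insert hC.1,
      Finset.prod_insert hpU]
    push_cast
    ring

theorem dif_one (U C : Finset ℕ) :
    Dif (fun _ => (1 : ℂ)) C U = if U = ∅ then 1 else 0 := by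
  unfold Dif
  have h := Finset.sum_powerset_neg_one_pow_card (x := U)
  have h' : (∑ m ∈ U.powerset, ((-1 : ℂ)) ^ m.card) = if U = ∅ then 1 else 0 := by
    have := congrArg (fun z : ℤ => (z : ℂ)) h
    push_cast at this
    simpa using this
  simpa using h'

theorem lip_half {v : AbsoluteValue ℂ ℝ} (hv : Dyadic v) (T : Finset ℕ) (ε : ℕ → ℤ)
    (hε : ∀ p ∈ T, ε p = 1 ∨ ε p = -1) : Lip v T (v 2)⁻¹ (half ε) := by
  intro C U hC hU hd
  have h2 : 0 < v 2 := v.pos (by norm_num)
  have e1 : Dif (half ε) C U = (1 / 2 : ℂ) * (Dif (fun _ => (1 : ℂ)) C U +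
      Dif (fun S => ((∏ p ∈ S, ε p : ℤ) : ℂ)) C U) := by
    rw [← Pro.dif_add, ← Pro.dif_mul]
    unfold Dif half
    refine Finset.sum_congr rfl fun S _ => ?_
    ring
  rw [e1, map_mul, mul_comm]
  have hv2 : v (1 / 2 : ℂ) = (v 2)⁻¹ := by
    rw [one_div, map_inv₀]
  rw [hv2]
  refine mul_le_mul_of_nonneg_right ?_ (inv_nonneg.2 h2.le)
  refine (hv.1 _ _).trans (max_le ?_ ?_)
  · rw [dif_one]
    split_ifs with h
    · subst h
      simp
    · rw [map_zero]
      positivity
  · rw [dif_prod ε U C hd, map_mul]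
    have hA : v ((∏ p ∈ C, ε p : ℤ) : ℂ) = 1 := by
      have hs : (∏ p ∈ C, ε p : ℤ) = 1 ∨ (∏ p ∈ C, ε p : ℤ) = -1 := by
        have : ∀ s ⊆ C, (∏ p ∈ s, ε p : ℤ) = 1 ∨ (∏ p ∈ s, ε p : ℤ) = -1 := by
          intro s
          induction s using Finset.induction_on with
          | empty => intro _; simp
          | insert p s hp ih =>
            intro hs
            rw [Finset.insert_subset_iff] at hs
            rw [Finset.prod_insert hp]
            rcases hε p (hC hs.1) with h | h <;> rcases ih hs.2 with h' | h' <;> simp [h, h']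
        exact this C (Finset.Subset.refl _)
      rcases hs with h | h
      · rw [h]; simp
      · rw [h]; simp
    rw [hA, one_mul, map_prod, ← Finset.prod_const]
    refine Finset.prod_le_prod (fun _ _ => v.nonneg _) ?_
    intro p hp
    rcases hε p (hU hp) with h | h
    · rw [h]
      simp [h2.le]
    · rw [h]
      have : (1 - (((-1 : ℤ)) : ℂ)) = 2 := by push_cast; norm_num
      rw [this]

theorem sign_proof : SignStatement := by
  intro v hv P B ℓ hB hL e ε hε T hT
  obtain ⟨F, hF, hFl⟩ := hL T hT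
  have h2 : 0 < v 2 := v.pos (by norm_num)
  have key : ∀ s : Finset (Fin e), Lip v T (B * (v 2)⁻¹ ^ s.card)
      (fun S => F S * ∏ t ∈ s, half (ε t) S) := by
    intro s
    induction s using Finset.induction_on with
    | empty => simpa using hF
    | insert t s ht ih =>
      have := Pro.pro_proof v hv T _ _ _ _ (by positivity) (inv_nonneg.2 h2.le) ih
        (lip_half hv T (ε t) (fun p hp => hε t p (hT hp)))
      have e1 : (fun S => F S * ∏ t ∈ insert t s, half (ε t) S) =
          (fun S => (F S * ∏ t ∈ s, half (ε t) S) * half (ε t) S) := by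
        funext S
        rw [Finset.prod_insert ht]
        ring
      rw [e1, Finset.card_insert_of_notMem ht, pow_succ, ← mul_assoc]
      exact this
  refine ⟨fun S => F S * ∏ t : Fin e, half (ε t) S, ?_, ?_⟩
  · have h := key Finset.univ
    rw [Finset.card_univ, Fintype.card_fin] at h
    have e2 : B / v 2 ^ e = B * (v 2)⁻¹ ^ e := by
      rw [inv_pow]
      rfl
    rw [e2]
    exact h
  · intro S hS
    have hs : ∀ t, (∏ p ∈ S, ε t p : ℤ) = 1 ∨ (∏ p ∈ S, ε t p : ℤ) = -1 := by
      intro t
      have : ∀ s ⊆ S, (∏ p ∈ s, ε t p : ℤ) = 1 ∨ (∏ p ∈ s, ε t p : ℤ) = -1 := by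
        intro s
        induction s using Finset.induction_on with
        | empty => intro _; simp
        | insert p s hp ih =>
          intro hs
          rw [Finset.insert_subset_iff] at hs
          rw [Finset.prod_insert hp]
          rcases hε t p (hT (hS hs.1)) with h | h <;> rcases ih hs.2 with h' | h' <;> simp [h, h']
      exact this S (Finset.Subset.refl _)
    show v (F S * ∏ t : Fin e, half (ε t) S) = if ∀ t, ∏ p ∈ S, ε t p = 1 then ℓ S else 0
    split_ifs with h
    · have : ∏ t : Fin e, half (ε t) S = 1 := by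
        refine Finset.prod_eq_one ?_
        intro t _
        unfold half
        rw [h t]
        norm_num
      rw [this, mul_one, hFl S hS]
    · push Not at h
      obtain ⟨t, ht⟩ := h
      have h' : half (ε t) S = 0 := by
        unfold half
        rw [(hs t).resolve_left ht]
        norm_num
      rw [Finset.prod_eq_zero (Finset.mem_univ t) h', mul_zero, map_zero]

end Pool.Agent.Lib.MP_50bb2e_nt.Low.Sign
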