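import Pool.Agent.Lib.MP_50bb2e_nt.Low.Iface

/-!
MP_50bb2e_nt, board LOW, row SYS: the basic system of sets.
-/

namespace Pool.Agent.Lib.MP_50bb2e_nt.Low.Sys

open Pool.Agent.Lib.MP_50bb2e_nt.Qtw (Dyadic Lip)

theorem biUnion_sing {ι : Type} [DecidableEq ι] (f : ι → ℕ) (Y : Finset ι) :
    Y.biUnion (fun i => ({f i} : Finset ℕ)) = Y.image f := by
  ext x
  simp [eq_comm]

theorem biUnion_emp {ι : Type} [DecidableEq ι] (Y : Finset ι) :
    Y.biUnion (fun _ => (∅ : Finset ℕ)) = ∅ := by
  ext x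
  simp

/-- Row SYS. -/
theorem sys_proof (h1 : BinStatement) (h2 : ReplStatement) : SysStatement := by
  intro v hv P B ℓ hB hL k C hC hlt a b ha hb hab
  by_contra hcon
  have hcon' : ∀ S Y : Finset (Fin (2 ^ (k + 2) - 1)), Y ⊆ S → S.card = 2 ^ (k + 1) →
      Y.card = 2 ^ k → ℓ (C ∪ (S \ Y).image a ∪ Y.image (b S)) ≤ v 2 ^ k * B := by
    intro S Y h3 h4 h5
    by_contra h6
    exact hcon ⟨S, Y, h3, h4, h5, not_le.1 h6⟩
  -- the finite set of primes
  set T : Finset ℕ := C ∪ (Finset.univ : Finset (Fin (2 ^ (k + 2) - 1))).image a ∪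
    (Finset.univ : Finset (Finset (Fin (2 ^ (k + 2) - 1)) × Fin (2 ^ (k + 2) - 1))).image
      (fun x => b x.1 x.2) with hT
  have hTP : (T : Set ℕ) ⊆ P := by
    intro x hx
    rw [hT] at hx
    simp only [Finset.coe_union, Finset.coe_image, Finset.coe_univ, Set.image_univ,
      Set.mem_union, Set.mem_range, Finset.mem_coe] at hx
    rcases hx with (hx | ⟨i, rfl⟩) | ⟨y, rfl⟩
    · exact hC hx
    · exact (ha i).1
    · exact (hb y.1 y.2).1
  have hCT : C ⊆ T := fun x hx => by rw [hT]; simp [hx]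
  have haT : ∀ i, a i ∈ T := fun i => by rw [hT]; simp
  have hbT : ∀ S i, b S i ∈ T := fun S i => by
    rw [hT]
    exact Finset.mem_union_right _ (Finset.mem_image.2 ⟨(S, i), Finset.mem_univ _, rfl⟩)
  obtain ⟨F, hF, hFl⟩ := hL T hTP
  have himaT : ∀ S : Finset (Fin (2 ^ (k + 2) - 1)), S.image a ⊆ T := by
    intro S x hx
    obtain ⟨i, _, rfl⟩ := Finset.mem_image.1 hx
    exact haT i
  have himbT : ∀ S Y : Finset (Fin (2 ^ (k + 2) - 1)), Y.image (b S) ⊆ T := by
    intro S Y x hx
    obtain ⟨i, _, rfl⟩ := Finset.mem_image.1 hx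
    exact hbT S i
  -- step 1
  have step1 : ∀ S : Finset (Fin (2 ^ (k + 2) - 1)), S.card = 2 ^ (k + 1) →
      v (F (C ∪ S.image a)) ≤ v 2 ^ k * B := by
    intro S hS
    obtain ⟨X, hXS, hX⟩ := Finset.exists_subset_card_eq (s := S) (n := 2 ^ (k + 1) - 1)
      (by omega)
    have hD : ∀ i ∈ X, Disjoint (C ∪ (S \ X).image a) {a i} ∧
        Disjoint (C ∪ (S \ X).image a) {b S i} := by
      intro i hi
      simp only [Finset.disjoint_singleton_right, Finset.mem_union, Finset.mem_image,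
        Finset.mem_sdiff, not_or, not_exists, not_and, and_imp]
      refine ⟨⟨(ha i).2, fun j _ hj he => ?_⟩, ⟨(hb S i).2, fun j _ hj he => ?_⟩⟩
      · exact (hab j i (fun h => hj (h ▸ hi))).1 he
      · exact ((hab j i (fun h => hj (h ▸ hi))).2 S).1 he
    have hg := h2 (Fin (2 ^ (k + 2) - 1)) v hv T B F hB hF X (fun i => {a i}) (fun i => {b S i})
      (C ∪ (S \ X).image a) (Finset.union_subset hCT (himaT _))
      (fun i hi => ⟨Finset.singleton_subset_iff.2 (haT i), Finset.singleton_subset_iff.2 (hbT S i),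
        (hD i hi).1, (hD i hi).2⟩) (by
        intro i _ j _ hij
        have e1 := hab i j hij
        have e2 := hab j i (Ne.symm hij)
        simp only [Finset.disjoint_union_left, Finset.disjoint_union_right,
          Finset.disjoint_singleton]
        exact ⟨⟨e1.1, Ne.symm (e2.2 S).1⟩, ⟨(e1.2 S).1, (e1.2 S).2 S⟩⟩)
    have key := h1 (Fin (2 ^ (k + 2) - 1)) v hv k k B X _ hB (by omega) hX hg (by
      intro Y hYX hY
      have e1 : C ∪ (S \ X).image a ∪ (X \ Y).biUnion (fun i => ({a i} : Finset ℕ)) ∪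
          Y.biUnion (fun i => ({b S i} : Finset ℕ)) =
          C ∪ (S \ Y).image a ∪ Y.image (b S) := by
        rw [biUnion_sing, biUnion_sing, Finset.union_assoc C, ← Finset.image_union]
        congr 3
        ext i
        simp only [Finset.mem_union, Finset.mem_sdiff]
        constructor
        · rintro (⟨h3, h4⟩ | ⟨h3, h4⟩)
          · exact ⟨h3, fun h => h4 (hYX h)⟩
          · exact ⟨hXS h3, h4⟩
        · rintro ⟨h3, h4⟩
          by_cases h5 : i ∈ X
          · exact Or.inr ⟨h5, h4⟩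
          · exact Or.inl ⟨h3, h5⟩
      show v (F (C ∪ (S \ X).image a ∪ (X \ Y).biUnion (fun i => ({a i} : Finset ℕ)) ∪
          Y.biUnion (fun i => ({b S i} : Finset ℕ)))) ≤ _
      rw [e1, hFl _ (Finset.union_subset (Finset.union_subset hCT (himaT _)) (himbT _ _))]
      exact hcon' S Y (hYX.trans hXS) hS hY)
    have e2 : C ∪ (S \ X).image a ∪ (X \ ∅).biUnion (fun i => ({a i} : Finset ℕ)) ∪
          (∅ : Finset (Fin (2 ^ (k + 2) - 1))).biUnion (fun i => ({b S i} : Finset ℕ)) =
          C ∪ S.image a := by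
      rw [Finset.biUnion_empty, Finset.union_empty, biUnion_sing, Finset.union_assoc C,
        ← Finset.image_union, Finset.sdiff_empty, Finset.sdiff_union_of_subset hXS]
    rw [← e2]
    exact key
  -- step 2
  have hg := h2 (Fin (2 ^ (k + 2) - 1)) v hv T B F hB hF Finset.univ (fun _ => ∅)
    (fun i => {a i}) C hCT (fun i _ => ⟨Finset.empty_subset _,
      Finset.singleton_subset_iff.2 (haT i), Finset.disjoint_empty_right _,
      Finset.disjoint_singleton_right.2 (ha i).2⟩) (by
      intro i _ j _ hij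
      simp only [Finset.empty_union, Finset.disjoint_singleton]
      exact (hab i j hij).1)
  have key := h1 (Fin (2 ^ (k + 2) - 1)) v hv (k + 1) k B Finset.univ _ hB (by omega)
    (by rw [Finset.card_univ, Fintype.card_fin]) hg (by
      intro Y _ hY
      show v (F (C ∪ (Finset.univ \ Y).biUnion (fun _ => (∅ : Finset ℕ)) ∪
          Y.biUnion (fun i => ({a i} : Finset ℕ)))) ≤ _
      rw [biUnion_emp, biUnion_sing, Finset.union_empty]
      exact step1 Y hY)
  have e3 : C ∪ ((Finset.univ : Finset (Fin (2 ^ (k + 2) - 1))) \ ∅).biUnion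
      (fun _ => (∅ : Finset ℕ)) ∪
          (∅ : Finset (Fin (2 ^ (k + 2) - 1))).biUnion (fun i => ({a i} : Finset ℕ)) = C := by
    rw [biUnion_emp, Finset.biUnion_empty, Finset.union_empty, Finset.union_empty]
  have e4 : v (F C) ≤ v 2 ^ k * B := by
    rw [← e3]
    exact key
  rw [hFl C hCT] at e4
  exact absurd hlt (not_lt.2 e4)

end Pool.Agent.Lib.MP_50bb2e_nt.Low.Sys
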