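import Pool.Agent.Lib.MP_50bb2e_nt.Low.Iface

/-!
MP_50bb2e_nt, board LOW, row TCNT.
-/

set_option autoImplicit false

open Finset

namespace Pool.Agent.Lib.MP_50bb2e_nt.Low.Tcnt

/-- one coordinate -/
theorem one (N n x : ℕ) (hn : 0 < n) (hd : n ∣ N) :
    ((univ : Finset (Fin N)).filter (fun t : Fin N => (t : ℕ) % n = x)).card * n ≤ N := by
  classical
  have h1 : ((univ : Finset (Fin N)).filter (fun t : Fin N => (t : ℕ) % n = x)).card * n =
      (((univ : Finset (Fin N)).filter (fun t : Fin N => (t : ℕ) % n = x)) ×ˢ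
        (range n)).card := by
    rw [Finset.card_product, Finset.card_range]
  have h2 : N = (range N).card := (Finset.card_range N).symm
  rw [h1]
  conv_rhs => rw [h2]
  apply Finset.card_le_card_of_injOn (fun p : Fin N × ℕ => n * ((p.1 : ℕ) / n) + p.2)
  · intro p hp
    rw [Finset.mem_coe, Finset.mem_product, Finset.mem_range] at hp
    rw [Finset.mem_coe, Finset.mem_range]
    obtain ⟨q, rfl⟩ := hd
    have h3 : (p.1 : ℕ) / n < q := Nat.div_lt_of_lt_mul p.1.2
    have h4 : n * ((p.1 : ℕ) / n + 1) ≤ n * q := Nat.mul_le_mul_left n h3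
    have h5 := hp.2
    rw [Nat.mul_add, Nat.mul_one] at h4
    show n * ((p.1 : ℕ) / n) + p.2 < n * q
    omega
  · intro p hp p' hp' h
    rw [Finset.mem_coe, Finset.mem_product, Finset.mem_range, Finset.mem_filter] at hp hp'
    simp only at h
    have h3 : (n * ((p.1 : ℕ) / n) + p.2) / n = (p.1 : ℕ) / n := by
      rw [Nat.mul_add_div hn, Nat.div_eq_of_lt hp.2, Nat.add_zero]
    have h4 : (n * ((p'.1 : ℕ) / n) + p'.2) / n = (p'.1 : ℕ) / n := by
      rw [Nat.mul_add_div hn, Nat.div_eq_of_lt hp'.2, Nat.add_zero]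
    have h5 : (p.1 : ℕ) / n = (p'.1 : ℕ) / n := by rw [← h3, ← h4, h]
    have h6 : (p.1 : ℕ) = (p'.1 : ℕ) := by
      rw [← Nat.div_add_mod (p.1 : ℕ) n, ← Nat.div_add_mod (p'.1 : ℕ) n, h5, hp.1.2, hp'.1.2]
    have h7 : p.2 = p'.2 := by
      rw [h5] at h
      exact Nat.add_left_cancel h
    exact Prod.ext (Fin.ext h6) h7

theorem tcnt_proof : TcntStatement := by
  classical
  intro R N S n x hN hn
  have h1 : (univ : Finset (Fin R → Fin N)).filter (fun t => ∀ i ∈ S, (t i : ℕ) % n i = x i) =
      Fintype.piFinset (fun i => if i ∈ S then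
        (univ : Finset (Fin N)).filter (fun t : Fin N => (t : ℕ) % n i = x i) else univ) := by
    ext t
    rw [Finset.mem_filter, Fintype.mem_piFinset]
    constructor
    · rintro ⟨-, h⟩ i
      split_ifs with hi
      · exact Finset.mem_filter.2 ⟨Finset.mem_univ _, h i hi⟩
      · exact Finset.mem_univ _
    · intro h
      refine ⟨Finset.mem_univ _, ?_⟩
      intro i hi
      have := h i
      rw [if_pos hi, Finset.mem_filter] at this
      exact this.2
  rw [h1, Fintype.card_piFinset]
  have h2 : ∏ i ∈ S, n i = ∏ i : Fin R, if i ∈ S then n i else 1 := by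
    rw [Finset.prod_ite_mem, Finset.univ_inter]
  rw [h2, ← Finset.prod_mul_distrib]
  calc ∏ i : Fin R, ((if i ∈ S then
        (univ : Finset (Fin N)).filter (fun t : Fin N => (t : ℕ) % n i = x i) else univ).card *
        (if i ∈ S then n i else 1)) ≤ ∏ _i : Fin R, N := by
        apply Finset.prod_le_prod'
        intro i _
        split_ifs with hi
        · exact one N (n i) (x i) (hn i hi).1 (hn i hi).2
        · rw [Finset.card_univ, Fintype.card_fin, mul_one]
    _ = N ^ R := by rw [Finset.prod_const, Finset.card_univ, Fintype.card_fin]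

end Pool.Agent.Lib.MP_50bb2e_nt.Low.Tcnt
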