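import Pool.Agent.Lib.MP_50bb2e_nt.Low.Iface

/-!
MP_50bb2e_nt, board LOW, row TRUNC: Reed-Muller with the weights `1 / p`, truncated.
-/

set_option autoImplicit false

open Finset

namespace Pool.Agent.Lib.MP_50bb2e_nt.Low.Trunc

open Pool.Agent.Lib.MP_50bb2e_nt.Qtw (Dyadic)

/-- the logarithmic moment of the expansion of a product -/
theorem moment (w l : ℕ → ℝ) (T : Finset ℕ) (hw : ∀ p ∈ T, 0 ≤ w p) (hl : ∀ p ∈ T, 0 ≤ l p) :
    ∑ S ∈ T.powerset, (∑ p ∈ S, l p) * ∏ p ∈ S, w p ≤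
      (∑ p ∈ T, l p * w p) * ∏ p ∈ T, (1 + w p) := by
  classical
  induction T using Finset.induction_on with
  | empty => simp
  | insert a T ha ih =>
    have hw' : ∀ p ∈ T, 0 ≤ w p := fun p hp => hw p (Finset.mem_insert_of_mem hp)
    have hl' : ∀ p ∈ T, 0 ≤ l p := fun p hp => hl p (Finset.mem_insert_of_mem hp)
    have hwa := hw a (Finset.mem_insert_self a T)
    have hla := hl a (Finset.mem_insert_self a T)
    have ih := ih hw' hl'
    rw [Finset.sum_powerset_insert ha, Finset.sum_insert ha, Finset.prod_insert ha]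
    have e1 : ∑ S ∈ T.powerset, (∑ p ∈ insert a S, l p) * ∏ p ∈ insert a S, w p =
        w a * (∑ S ∈ T.powerset, (∑ p ∈ S, l p) * ∏ p ∈ S, w p) +
          l a * w a * ∏ p ∈ T, (1 + w p) := by
      rw [Finset.prod_one_add, Finset.mul_sum, Finset.mul_sum, ← Finset.sum_add_distrib]
      apply Finset.sum_congr rfl
      intro S hS
      have haS : a ∉ S := fun h => ha (Finset.mem_powerset.1 hS h)
      rw [Finset.sum_insert haS, Finset.prod_insert haS]
      ring
    rw [e1]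
    have hP : 0 ≤ ∏ p ∈ T, (1 + w p) :=
      Finset.prod_nonneg (fun p hp => by linarith [hw' p hp])
    have h1 : (1 + w a) * (∑ S ∈ T.powerset, (∑ p ∈ S, l p) * ∏ p ∈ S, w p) ≤
        (1 + w a) * ((∑ p ∈ T, l p * w p) * ∏ p ∈ T, (1 + w p)) :=
      mul_le_mul_of_nonneg_left ih (by linarith)
    have h2 : 0 ≤ l a * w a * w a * ∏ p ∈ T, (1 + w p) := by positivity
    nlinarith

theorem trunc_proof (h1 : RmwStatement) (h2 : ChebStatement) : TruncStatement := by
  classical
  obtain ⟨C, hC0, hC⟩ := h2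
  intro v hv P B ℓ hP hB hL j hj
  refine ⟨1 / (2 ^ (j + 1) * C), by positivity, ?_⟩
  intro z Y hz hzY
  obtain ⟨-, hM, -⟩ := hC P hP
  have hMz := hM z hz
  set T := Ps P z with hT
  have hTP : (T : Set ℕ) ⊆ P := by
    intro p hp
    rw [Finset.mem_coe, hT] at hp
    unfold Ps at hp
    exact (Finset.mem_filter.1 hp).2
  have hTpos : ∀ p ∈ T, (0 : ℝ) < p := by
    intro p hp
    have := (hP p (hTP (Finset.mem_coe.2 hp))).pos
    exact_mod_cast this
  have hT1 : ∀ p ∈ T, (1 : ℝ) ≤ p := by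
    intro p hp
    have := (hP p (hTP (Finset.mem_coe.2 hp))).one_le
    exact_mod_cast this
  have hlogz : 0 < Real.log z := by
    apply Real.log_pos
    exact_mod_cast (by omega : 1 < z)
  have hη : (0 : ℝ) < 1 / (2 ^ (j + 1) * C) := by positivity
  have hlogY : 0 < Real.log Y := by
    by_contra hneg
    push Not at hneg
    have : 1 / (2 ^ (j + 1) * C) * Real.log Y ≤ 0 := mul_nonpos_of_nonneg_of_nonpos hη.le hneg
    linarith
  have hY0 : (0 : ℝ) < Y := by
    by_contra hneg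
    push Not at hneg
    have hY0' : (Y : ℝ) = 0 := le_antisymm hneg (Nat.cast_nonneg Y)
    rw [hY0', Real.log_zero] at hlogY
    exact lt_irrefl _ hlogY
  have key := h1 v hv P B ℓ hB hL j hj T hTP (fun p => 1 / (p : ℝ)) (by
    intro p hp
    refine ⟨by have := hTpos p hp; positivity, ?_⟩
    rw [div_le_one (hTpos p hp)]
    exact hT1 p hp)
  set Pd := ∏ p ∈ T, (1 + 1 / (p : ℝ)) with hPd
  have hprod : ∀ S ∈ T.powerset, ∏ p ∈ S, (1 / (p : ℝ)) = 1 / ((∏ p ∈ S, p : ℕ) : ℝ) := by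
    intro S _
    rw [Finset.prod_div_distrib, Finset.prod_const_one]
    push_cast
    rfl
  -- the tail
  have htail : ∑ S ∈ T.powerset.filter (fun S => ¬ ∏ p ∈ S, p ≤ Y), ∏ p ∈ S, (1 / (p : ℝ)) ≤
      Pd / 2 ^ (j + 1) := by
    have e1 : ∑ S ∈ T.powerset.filter (fun S => ¬ ∏ p ∈ S, p ≤ Y),
        Real.log Y * ∏ p ∈ S, (1 / (p : ℝ)) ≤
        ∑ S ∈ T.powerset, (∑ p ∈ S, Real.log p) * ∏ p ∈ S, (1 / (p : ℝ)) := by
      have e2 : ∑ S ∈ T.powerset.filter (fun S => ¬ ∏ p ∈ S, p ≤ Y),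
          Real.log Y * ∏ p ∈ S, (1 / (p : ℝ)) ≤
          ∑ S ∈ T.powerset.filter (fun S => ¬ ∏ p ∈ S, p ≤ Y),
            (∑ p ∈ S, Real.log p) * ∏ p ∈ S, (1 / (p : ℝ)) := by
        apply Finset.sum_le_sum
        intro S hS
        rw [Finset.mem_filter, Finset.mem_powerset] at hS
        have e3 : 0 ≤ ∏ p ∈ S, (1 / (p : ℝ)) :=
          Finset.prod_nonneg (fun p hp => by have := hTpos p (hS.1 hp); positivity)
        apply mul_le_mul_of_nonneg_right _ e3
        rw [← Real.log_prod (fun p hp => (hTpos p (hS.1 hp)).ne')]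
        apply Real.log_le_log hY0
        have e4 : Y ≤ ∏ p ∈ S, p := by
          have := hS.2
          omega
        have e5 : ((Y : ℕ) : ℝ) ≤ ((∏ p ∈ S, p : ℕ) : ℝ) := by exact_mod_cast e4
        push_cast at e5
        exact e5
      refine e2.trans ?_
      apply Finset.sum_le_sum_of_subset_of_nonneg (Finset.filter_subset _ _)
      intro S hS _
      rw [Finset.mem_powerset] at hS
      apply mul_nonneg
      · exact Finset.sum_nonneg (fun p hp => Real.log_nonneg (hT1 p (hS hp)))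
      · exact Finset.prod_nonneg (fun p hp => by have := hTpos p (hS hp); positivity)
    have e2 := moment (fun p => 1 / (p : ℝ)) (fun p => Real.log p) T
      (fun p hp => by have := hTpos p hp; positivity) (fun p hp => Real.log_nonneg (hT1 p hp))
    have e3 : ∑ p ∈ T, Real.log p * (1 / (p : ℝ)) ≤ C * Real.log z := by
      refine le_trans (le_of_eq ?_) hMz
      apply Finset.sum_congr rfl
      intro p _
      ring
    have hPd0 : 0 ≤ Pd := by
      rw [hPd]
      exact Finset.prod_nonneg (fun p hp => by have := hTpos p hp; positivity)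
    have e4 : (∑ p ∈ T, Real.log p * (1 / (p : ℝ))) * Pd ≤ C * Real.log z * Pd :=
      mul_le_mul_of_nonneg_right e3 hPd0
    rw [← Finset.mul_sum] at e1
    have e5 : Real.log Y * ∑ S ∈ T.powerset.filter (fun S => ¬ ∏ p ∈ S, p ≤ Y),
        ∏ p ∈ S, (1 / (p : ℝ)) ≤ C * Real.log z * Pd := (e1.trans e2).trans e4
    have e6 : C * Real.log z * Pd ≤ Real.log Y * (Pd / 2 ^ (j + 1)) := by
      have e7 : C * Real.log z ≤ Real.log Y / 2 ^ (j + 1) := by
        calc C * Real.log z ≤ C * (1 / (2 ^ (j + 1) * C) * Real.log Y) :=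
              mul_le_mul_of_nonneg_left hzY hC0.le
          _ = Real.log Y / 2 ^ (j + 1) := by field_simp
      calc C * Real.log z * Pd ≤ Real.log Y / 2 ^ (j + 1) * Pd :=
            mul_le_mul_of_nonneg_right e7 hPd0
        _ = Real.log Y * (Pd / 2 ^ (j + 1)) := by ring
    exact le_of_mul_le_mul_left (e5.trans e6) hlogY
  -- splitting
  have hsplit : (∑ S ∈ T.powerset, if v 2 ^ (j + 1) * B < ℓ S then ∏ p ∈ S, (1 / (p : ℝ)) else 0) ≤
      (∑ S ∈ T.powerset.filter (fun S => ∏ p ∈ S, p ≤ Y ∧ v 2 ^ (j + 1) * B < ℓ S),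
          1 / ((∏ p ∈ S, p : ℕ) : ℝ)) +
        ∑ S ∈ T.powerset.filter (fun S => ¬ ∏ p ∈ S, p ≤ Y), ∏ p ∈ S, (1 / (p : ℝ)) := by
    rw [← Finset.sum_filter_add_sum_filter_not T.powerset (fun S => ∏ p ∈ S, p ≤ Y)]
    apply add_le_add
    · rw [← Finset.filter_filter, Finset.sum_filter (fun S => v 2 ^ (j + 1) * B < ℓ S)]
      apply Finset.sum_le_sum
      intro S hS
      rw [Finset.mem_filter] at hS
      rw [hprod S hS.1]
    · apply Finset.sum_le_sum
      intro S hS
      rw [Finset.mem_filter, Finset.mem_powerset] at hS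
      split_ifs
      · exact le_refl _
      · exact Finset.prod_nonneg (fun p hp => by have := hTpos p (hS.1 hp); positivity)
  set main := ∑ S ∈ T.powerset.filter (fun S => ∏ p ∈ S, p ≤ Y ∧ v 2 ^ (j + 1) * B < ℓ S),
          1 / ((∏ p ∈ S, p : ℕ) : ℝ) with hmain
  have h3 : Pd ≤ 2 ^ j * (main + Pd / 2 ^ (j + 1)) :=
    key.trans (mul_le_mul_of_nonneg_left (hsplit.trans (by linarith)) (by positivity))
  have h4 : (2 : ℝ) ^ j * (Pd / 2 ^ (j + 1)) = Pd / 2 := by
    rw [pow_succ]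
    field_simp
  have h5 : (2 : ℝ) ^ (j + 1) * main = 2 * (2 ^ j * main) := by
    rw [pow_succ]; ring
  rw [h5]
  rw [mul_add, h4] at h3
  linarith

end Pool.Agent.Lib.MP_50bb2e_nt.Low.Trunc
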