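import Pool.Agent.Lib.MP_50bb2e_nt.Low.Iface

/-!
MP_50bb2e_nt, board LOW, row UCNT: total scale; number of parameters with given scales.
-/

set_option autoImplicit false

open Finset

namespace Pool.Agent.Lib.MP_50bb2e_nt.Low.Ucnt

theorem ucnt_proof : UcntStatement := by
  classical
  intro R H M c A S Y hM hYS hY hS
  constructor
  · intro u
    unfold scl
    rw [Finset.sum_sub_distrib, Finset.sum_add_distrib, Finset.sum_const, ← Finset.mul_sum,
      Finset.sum_ite_mem, Finset.inter_eq_right.2 hYS, Finset.sum_const, hY, hS]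
    simp only [nsmul_eq_mul]
    push_cast
    ring
  · intro α
    obtain ⟨i₁, hi₁⟩ : Y.Nonempty := by
      rw [← Finset.card_pos, hY]
      exact hM
    set D : Finset (Fin R) := insert i₁ (univ \ S) with hD
    have hcardD : D.card = R + 1 - 2 * M := by
      have h1 : i₁ ∉ univ \ S := by
        rw [Finset.mem_sdiff]
        exact fun h => h.2 (hYS hi₁)
      have h2 : S.card ≤ R := by
        have := Finset.card_le_univ S
        rwa [Fintype.card_fin] at this
      rw [hD, Finset.card_insert_of_notMem h1, Finset.card_univ_sdiff, Fintype.card_fin, hS]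
      omega
    have hfun : Fintype.card (D → Fin H) = H ^ (R + 1 - 2 * M) := by
      rw [Fintype.card_fun, Fintype.card_fin, Fintype.card_coe, hcardD]
    rw [← hfun, ← Finset.card_univ]
    apply Finset.card_le_card_of_injOn (fun (u : Fin R → Fin H) (i : D) => u i.1)
    · intro u _
      exact Finset.mem_coe.2 (Finset.mem_univ _)
    · intro u hu u' hu' huu
      rw [Finset.mem_coe, Finset.mem_filter] at hu hu'
      have hres : ∀ i ∈ D, u i = u' i := fun i hi => congrFun huu ⟨i, hi⟩
      have hMz : (M : ℤ) ≠ 0 := by exact_mod_cast hM.ne'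
      -- slots outside `Y`
      have h1 : ∀ i ∈ S, i ∉ Y → u i = u' i := by
        intro i hi hiY
        have e1 := hu.2 i hi
        have e2 := hu'.2 i hi
        unfold scl at e1 e2
        rw [if_neg hiY] at e1 e2
        have e3 : (M : ℤ) * ((u i : ℕ) : ℤ) = M * ((u' i : ℕ) : ℤ) := by linarith
        have e4 := mul_left_cancel₀ hMz e3
        exact Fin.ext (by exact_mod_cast e4)
      have hi1 : u i₁ = u' i₁ := hres i₁ (by rw [hD]; exact Finset.mem_insert_self _ _)
      have hsum : (∑ j ∈ S, ((u j : ℕ) : ℤ)) = ∑ j ∈ S, ((u' j : ℕ) : ℤ) := by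
        have e1 := hu.2 i₁ (hYS hi₁)
        have e2 := hu'.2 i₁ (hYS hi₁)
        unfold scl at e1 e2
        rw [if_pos hi₁] at e1 e2
        rw [hi1] at e1
        linarith
      have h2 : ∀ i ∈ Y, u i = u' i := by
        intro i hi
        have e1 := hu.2 i (hYS hi)
        have e2 := hu'.2 i (hYS hi)
        unfold scl at e1 e2
        rw [if_pos hi] at e1 e2
        rw [hsum] at e1
        have e3 : (M : ℤ) * ((u i : ℕ) : ℤ) = M * ((u' i : ℕ) : ℤ) := by linarith
        have e4 := mul_left_cancel₀ hMz e3
        exact Fin.ext (by exact_mod_cast e4)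
      funext i
      by_cases hiS : i ∈ S
      · by_cases hiY : i ∈ Y
        · exact h2 i hiY
        · exact h1 i hiS hiY
      · exact hres i (by
          rw [hD]
          exact Finset.mem_insert_of_mem (Finset.mem_sdiff.2 ⟨Finset.mem_univ _, hiS⟩))

end Pool.Agent.Lib.MP_50bb2e_nt.Low.Ucnt
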