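import Pool.Agent.Lib.MP_50bb2e_nt.Low.Iface

/-!
MP_50bb2e_nt, board LOW, row UPPER (helper9): upper bound for the whole family, from the bound of
Chebyshev (the proof follows ND/Ub.lean).
-/

set_option autoImplicit false

namespace Pool.Agent.Lib.MP_50bb2e_nt.Low.Upper

open Pool.Agent.Lib.MP_50bb2e_nt.Low

/-- the product of the elements of `T` -/
noncomputable def N (T : Finset ℕ) : ℝ := ∏ p ∈ T, (p : ℝ)

theorem one_le_N {T : Finset ℕ} (hT : ∀ p ∈ T, p.Prime) : 1 ≤ N T := by
  unfold N
  classical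
  induction T using Finset.induction_on with
  | empty => simp
  | insert p T hp ih =>
    rw [Finset.prod_insert hp]
    refine one_le_mul_of_one_le_of_one_le ?_ (ih fun q hq => hT q (Finset.mem_insert_of_mem hq))
    exact_mod_cast (hT p (Finset.mem_insert_self _ _)).one_lt.le

open Classical in
theorem N_erase {T : Finset ℕ} {p : ℕ} (hp : p ∈ T) : N (T.erase p) * p = N T := by
  unfold N
  exact Finset.prod_erase_mul T (fun p : ℕ => (p : ℝ)) hp

open Classical in
/-- the number of sets of primes with small product -/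
theorem card_bound (A : Finset ℕ) (hprime : ∀ p ∈ A, p.Prime) (A0 : ℝ) (hA0 : 0 < A0)
    (hA : ∀ x : ℝ, 1 ≤ x → ∑ p ∈ A.filter (fun p : ℕ => (p : ℝ) ≤ x), Real.log p ≤ A0 * x)
    (X : ℕ) (hX : 1 ≤ X) :
    Real.log X * (A.powerset.filter (fun T => N T ≤ (X : ℝ))).card ≤
      (A0 + 1) * X * ∏ p ∈ A, (1 + 1 / (p : ℝ)) := by
  set TT := A.powerset.filter (fun T => N T ≤ (X : ℝ)) with hTT
  have hX0 : (0 : ℝ) < X := by exact_mod_cast hX
  have hmem : ∀ T ∈ TT, T ⊆ A ∧ N T ≤ X := by
    intro T hT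
    rw [hTT, Finset.mem_filter, Finset.mem_powerset] at hT
    exact hT
  have hN1 : ∀ T ⊆ A, 1 ≤ N T := fun T hT => one_le_N fun p hp => hprime p (hT hp)
  have hp1 : ∀ p ∈ A, (1 : ℝ) ≤ p := fun p hp => by exact_mod_cast (hprime p hp).one_lt.le
  have hsum1 : ∑ T ∈ TT, 1 / N T ≤ ∏ p ∈ A, (1 + 1 / (p : ℝ)) := by
    have h1 : ∏ p ∈ A, (1 + 1 / (p : ℝ)) = ∑ T ∈ A.powerset, 1 / N T := by
      have h2 : ∏ p ∈ A, (1 + 1 / (p : ℝ)) = ∏ p ∈ A, (1 / (p : ℝ) + 1) :=
        Finset.prod_congr rfl fun p _ => add_comm _ _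
      rw [h2, Finset.prod_add_one]
      refine Finset.sum_congr rfl fun T _ => ?_
      unfold N
      rw [one_div, ← Finset.prod_inv_distrib]
      exact Finset.prod_congr rfl fun p _ => one_div _
    rw [h1]
    refine Finset.sum_le_sum_of_subset_of_nonneg (Finset.filter_subset _ _) fun T hT _ => ?_
    have := hN1 T (Finset.mem_powerset.1 hT)
    positivity
  -- (a)
  have ha : ∑ T ∈ TT, Real.log (X / N T) ≤ X * ∑ T ∈ TT, 1 / N T := by
    rw [Finset.mul_sum]
    refine Finset.sum_le_sum fun T hT => ?_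
    have h1 := hN1 T (hmem T hT).1
    have h2 : (0 : ℝ) < X / N T := by positivity
    have h3 := Real.log_le_sub_one_of_pos h2
    calc Real.log (X / N T) ≤ X / N T - 1 := h3
      _ ≤ X / N T := by linarith
      _ = X * (1 / N T) := by ring
  -- (b)
  have hb : ∑ T ∈ TT, Real.log (N T) ≤ A0 * X * ∑ T ∈ TT, 1 / N T := by
    have e1 : ∑ T ∈ TT, Real.log (N T) =
        ∑ T ∈ TT, ∑ p ∈ A, (if p ∈ T then Real.log p else 0) := by
      refine Finset.sum_congr rfl fun T hT => ?_
      rw [← Finset.sum_filter]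
      have h1 : A.filter (fun p => p ∈ T) = T := by
        ext p
        rw [Finset.mem_filter]
        exact ⟨fun h => h.2, fun h => ⟨(hmem T hT).1 h, h⟩⟩
      rw [h1]
      unfold N
      rw [Real.log_prod]
      intro p hp
      have := hp1 p ((hmem T hT).1 hp)
      positivity
    have e2 : ∀ p ∈ A, ∑ T ∈ TT, (if p ∈ T then Real.log p else 0) ≤
        ∑ T ∈ TT, (if (p : ℝ) ≤ X / N T then Real.log p else 0) := by
      intro p hp
      rw [← Finset.sum_filter, ← Finset.sum_filter, Finset.sum_const, Finset.sum_const,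
        nsmul_eq_mul, nsmul_eq_mul]
      refine mul_le_mul_of_nonneg_right ?_ (Real.log_nonneg (hp1 p hp))
      norm_cast
      refine Finset.card_le_card_of_injOn (fun T => T.erase p) ?_ ?_
      · intro T hT
        rw [Finset.mem_coe, Finset.mem_filter] at hT
        obtain ⟨h1, h2⟩ := hT
        have h3 := hmem T h1
        have h4 := N_erase h2
        have h5 := hN1 (T.erase p) ((Finset.erase_subset _ _).trans h3.1)
        have h6 := hp1 p hp
        show T.erase p ∈ (↑(TT.filter fun T => (p : ℝ) ≤ X / N T) : Set (Finset ℕ))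
        rw [Finset.mem_coe, Finset.mem_filter]
        constructor
        · rw [hTT, Finset.mem_filter, Finset.mem_powerset]
          refine ⟨(Finset.erase_subset _ _).trans h3.1, ?_⟩
          calc N (T.erase p) = N (T.erase p) * 1 := (mul_one _).symm
            _ ≤ N (T.erase p) * p := mul_le_mul_of_nonneg_left h6 (by linarith)
            _ = N T := h4
            _ ≤ X := h3.2
        · rw [le_div_iff₀ (by linarith), mul_comm, h4]
          exact h3.2
      · intro T hT T' hT' h
        rw [Finset.mem_coe, Finset.mem_filter] at hT hT'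
        have h' : T.erase p = T'.erase p := h
        rw [← Finset.insert_erase hT.2, h', Finset.insert_erase hT'.2]
    have e3 : ∀ T ∈ TT, ∑ p ∈ A, (if (p : ℝ) ≤ X / N T then Real.log p else 0) ≤
        A0 * X * (1 / N T) := by
      intro T hT
      have h1 := hN1 T (hmem T hT).1
      have h2 : 1 ≤ (X : ℝ) / N T := by
        rw [le_div_iff₀ (by linarith), one_mul]
        exact (hmem T hT).2
      rw [← Finset.sum_filter]
      refine (hA (X / N T) h2).trans (le_of_eq ?_)
      ring
    rw [e1, Finset.sum_comm]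
    refine (Finset.sum_le_sum e2).trans ?_
    rw [Finset.sum_comm, Finset.mul_sum]
    exact Finset.sum_le_sum e3
  have hsplit : Real.log X * TT.card =
      ∑ T ∈ TT, Real.log (N T) + ∑ T ∈ TT, Real.log (X / N T) := by
    rw [← Finset.sum_add_distrib]
    have h1 : ∀ T ∈ TT, Real.log (N T) + Real.log (X / N T) = Real.log X := by
      intro T hT
      have h2 := hN1 T (hmem T hT).1
      rw [Real.log_div (by positivity) (by positivity)]
      ring
    rw [Finset.sum_congr rfl h1, Finset.sum_const, nsmul_eq_mul, mul_comm]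
  rw [hsplit]
  have h5 : (A0 + 1) * X * ∑ T ∈ TT, 1 / N T ≤ (A0 + 1) * X * ∏ p ∈ A, (1 + 1 / (p : ℝ)) :=
    mul_le_mul_of_nonneg_left hsum1 (by positivity)
  linarith

/-- Row UPPER. -/
theorem upper_proof (h : ChebStatement) : UpperStatement := by
  classical
  intro P hP
  obtain ⟨A0, hA0, h1⟩ := h
  obtain ⟨hth, -, -⟩ := h1 P hP
  refine ⟨A0 + 1, by positivity, fun X hX => ?_⟩
  have hpr : ∀ p ∈ Ps P X, p.Prime := by
    intro p hp
    unfold Ps at hp
    exact hP p (Finset.mem_filter.1 hp).2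
  have hA : ∀ x : ℝ, 1 ≤ x →
      ∑ p ∈ (Ps P X).filter (fun p : ℕ => (p : ℝ) ≤ x), Real.log p ≤ A0 * x := by
    intro x hx
    have h2 : (Ps P X).filter (fun p : ℕ => (p : ℝ) ≤ x) ⊆ Ps P ⌊x⌋₊ := by
      intro p hp
      rw [Finset.mem_filter] at hp
      obtain ⟨h3, h4⟩ := hp
      unfold Ps at h3 ⊢
      rw [Finset.mem_filter, Finset.mem_Icc] at h3 ⊢
      exact ⟨⟨h3.1.1, Nat.le_floor h4⟩, h3.2⟩
    refine (Finset.sum_le_sum_of_subset_of_nonneg h2 fun p _ _ =>
      Real.log_natCast_nonneg p).trans ((hth ⌊x⌋₊).trans ?_)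
    exact mul_le_mul_of_nonneg_left (Nat.floor_le (by linarith)) hA0.le
  have hcb := card_bound (Ps P X) hpr A0 hA0 hA X hX
  have hcard : (Fm P X).card ≤
      ((Ps P X).powerset.filter (fun T => N T ≤ (X : ℝ))).card := by
    refine Finset.card_le_card_of_injOn (fun D => D.primeFactors) ?_ ?_
    · intro D hD
      rw [Finset.mem_coe] at hD
      unfold Fm at hD
      rw [Finset.mem_filter, Finset.mem_Icc] at hD
      obtain ⟨⟨d1, d2⟩, d3, d4⟩ := hD
      show D.primeFactors ∈ (↑((Ps P X).powerset.filter (fun T => N T ≤ (X : ℝ))) :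
        Set (Finset ℕ))
      rw [Finset.mem_coe, Finset.mem_filter, Finset.mem_powerset]
      constructor
      · intro p hp
        unfold Ps
        rw [Finset.mem_filter, Finset.mem_Icc]
        have h5 := Nat.mem_primeFactors.1 hp
        exact ⟨⟨h5.1.one_lt.le, (Nat.le_of_dvd (by omega) h5.2.1).trans d2⟩, d4 p hp⟩
      · have h6 : N D.primeFactors = (D : ℝ) := by
          unfold N
          have h7 : ((∏ p ∈ D.primeFactors, p : ℕ) : ℝ) = (D : ℝ) :=
            congrArg _ (Nat.prod_primeFactors_of_squarefree d3)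
          rw [← h7, Nat.cast_prod]
        rw [h6]
        exact_mod_cast d2
    · intro D hD D' hD' he
      rw [Finset.mem_coe] at hD hD'
      unfold Fm at hD hD'
      have he' : D.primeFactors = D'.primeFactors := he
      rw [← Nat.prod_primeFactors_of_squarefree (Finset.mem_filter.1 hD).2.1, he',
        Nat.prod_primeFactors_of_squarefree (Finset.mem_filter.1 hD').2.1]
  have hlog : 0 ≤ Real.log X := Real.log_natCast_nonneg X
  calc ((Fm P X).card : ℝ) * Real.log X
      ≤ (((Ps P X).powerset.filter (fun T => N T ≤ (X : ℝ))).card : ℝ) * Real.log X :=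
        mul_le_mul_of_nonneg_right (by exact_mod_cast hcard) hlog
    _ = Real.log X * ((Ps P X).powerset.filter (fun T => N T ≤ (X : ℝ))).card := mul_comm _ _
    _ ≤ (A0 + 1) * X * ∏ p ∈ Ps P X, (1 + 1 / (p : ℝ)) := hcb

end Pool.Agent.Lib.MP_50bb2e_nt.Low.Upper
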