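import Pool.Agent.Lib.MP_50bb2e_nt.Qtw.Dec
import Pool.Agent.Lib.MP_50bb2e_nt.Qtw.Man
import Pool.Agent.Lib.MP_50bb2e_nt.Qtw.Add
import Pool.Agent.Lib.MP_50bb2e_nt.Qtw.Fou
import Pool.Agent.Lib.MP_50bb2e_nt.Qtw.Lin
import Pool.Agent.Lib.MP_50bb2e_nt.Qtw.Eul
import Pool.Agent.Lib.MP_50bb2e_nt.Qtw.Fin
import Pool.Agent.Lib.MP_50bb2e_nt.Low.Bin
import Pool.Agent.Lib.MP_50bb2e_nt.Low.Repl
import Pool.Agent.Lib.MP_50bb2e_nt.Low.Sys
import Pool.Agent.Lib.MP_50bb2e_nt.Low.SlotB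
import Pool.Agent.Lib.MP_50bb2e_nt.Low.Ucnt
import Pool.Agent.Lib.MP_50bb2e_nt.Low.Tcnt
import Pool.Agent.Lib.MP_50bb2e_nt.Low.AvgB
import Pool.Agent.Lib.MP_50bb2e_nt.Low.Cheb
import Pool.Agent.Lib.MP_50bb2e_nt.Low.Upper
import Pool.Agent.Lib.MP_50bb2e_nt.Low.Trunc
import Pool.Agent.Lib.MP_50bb2e_nt.Low.LowerB
import Pool.Agent.Lib.MP_50bb2e_nt.Low.Sign
import Pool.Agent.Lib.MP_50bb2e_nt.Low.DnsB
import Pool.Agent.Lib.MP_50bb2e_nt.Low.Rmw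
import Pool.Agent.Lib.MP_50bb2e_nt.Low.Qsys
import Pool.Agent.Lib.MP_50bb2e_nt.Low.LowB
import Pool.Agent.Lib.MP_50bb2e_nt.Low.FinalB

/-! Board LOW: everything together. -/

namespace Pool.Agent.Lib.MP_50bb2e_nt.Low.All

open Pool.Agent.Lib.MP_50bb2e_nt.Qtw Pool.Agent.Lib.MP_50bb2e_nt.Low

theorem fou : FouStatement :=
  Fou.fou_proof (Man.man_proof Dec.dec_proof) (Add.add_proof Dec.dec_proof) Lin.lin_proof

theorem qsys : QsysStatement :=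
  Qsys.qsys_proof Lin.lin_proof fou Eul.eul_proof Pro.pro_proof

theorem low : LowBStatement :=
  LowB.lowB_proof
    (LowerB.lowerB_proof
      (AvgB.avgB_proof (Sys.sys_proof Bin.bin_proof Repl.repl_proof) SlotB.slotB_proof
        Ucnt.ucnt_proof Tcnt.tcnt_proof)
      (Trunc.trunc_proof Rmw.rmw_proof Cheb.cheb_proof) Cheb.cheb_proof)
    (Upper.upper_proof Cheb.cheb_proof) DnsB.dnsB_proof

theorem final : FinalB.FinalBStatement :=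
  FinalB.finalB_proof qsys Sign.sign_proof Rmw.rmw_proof low

end Pool.Agent.Lib.MP_50bb2e_nt.Low.All
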