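import Pool.Agent.Lib.MP_50bb2e_nt.Qtw.Iface

/-!
MP_50bb2e_nt, board LOW (helper94): positive lower natural density of the non-vanishing twists by
products of good primes, over the field of rational numbers. Definitions and statements of the
rows. Paper: Low/Paper.md
-/

namespace Pool.Agent.Lib.MP_50bb2e_nt.Low

open Pool.Agent.Lib.MP_50bb2e_nt.Qtw (Dyadic Lip Dif Eigen CV NonVan)

noncomputable section

/-- on every finite subset `T` of `P` the function `ℓ` is the size of a Lipschitz function -/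
def HasLip (v : AbsoluteValue ℂ ℝ) (P : Set ℕ) (B : ℝ) (ℓ : Finset ℕ → ℝ) : Prop :=
  ∀ T : Finset ℕ, (T : Set ℕ) ⊆ P → ∃ F : Finset ℕ → ℂ, Lip v T B F ∧ ∀ S ⊆ T, v (F S) = ℓ S

/-- `G` is Lipschitz with constant `B` on the cube of the subsets of `X` (any index type) -/
def GLip {ι : Type} [DecidableEq ι] (v : AbsoluteValue ℂ ℝ) (X : Finset ι) (B : ℝ)
    (G : Finset ι → ℂ) : Prop :=
  ∀ C U : Finset ι, C ⊆ X → U ⊆ X → Disjoint C U →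
    v (∑ S ∈ U.powerset, (-1) ^ S.card * G (C ∪ S)) ≤ v 2 ^ U.card * B

open Classical in
/-- the elements of `P` in `[2^a, 2^(a+1))` -/
def Blk (P : Set ℕ) (a : ℕ) : Finset ℕ := (Finset.Ico (2 ^ a) (2 ^ (a + 1))).filter (fun p => p ∈ P)

/-- lower bound of Chebyshev in dyadic blocks -/
def BDense (P : Set ℕ) : Prop :=
  ∃ c : ℝ, 0 < c ∧ ∃ a₀ : ℕ, ∀ a : ℕ, a₀ ≤ a → c * 2 ^ a / (a + 1) ≤ ((Blk P a).card : ℝ)

open Classical in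
/-- the elements of `P` up to `X` -/
def Ps (P : Set ℕ) (X : ℕ) : Finset ℕ := (Finset.Icc 1 X).filter (fun p => p ∈ P)

open Classical in
/-- the square-free numbers `D ≤ X` all of whose prime factors lie in `P` -/
def Fm (P : Set ℕ) (X : ℕ) : Finset ℕ :=
  (Finset.Icc 1 X).filter (fun D => Squarefree D ∧ ∀ p ∈ D.primeFactors, p ∈ P)

/-! ### Rows -/

open Classical in
/-- row RMW: Reed-Muller with weights, for large values -/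
def RmwStatement : Prop :=
  ∀ (v : AbsoluteValue ℂ ℝ), Dyadic v → ∀ (P : Set ℕ) (B : ℝ) (ℓ : Finset ℕ → ℝ),
    0 ≤ B → HasLip v P B ℓ → ∀ j : ℕ, v 2 ^ (j + 1) * B < ℓ ∅ →
    ∀ T : Finset ℕ, (T : Set ℕ) ⊆ P → ∀ w : ℕ → ℝ, (∀ p ∈ T, 0 ≤ w p ∧ w p ≤ 1) →
      ∏ p ∈ T, (1 + w p) ≤ 2 ^ j * ∑ S ∈ T.powerset,
        if v 2 ^ (j + 1) * B < ℓ S then ∏ p ∈ S, w p else 0

/-- row BIN: the middle slice of a cube of dimension `2^(s+1) - 1` determines the bottom -/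
def BinStatement : Prop :=
  ∀ (ι : Type) [DecidableEq ι] (v : AbsoluteValue ℂ ℝ), Dyadic v → ∀ (s k : ℕ) (B : ℝ)
    (X : Finset ι) (G : Finset ι → ℂ), 0 ≤ B → k ≤ s + 1 → X.card = 2 ^ (s + 1) - 1 →
    GLip v X B G → (∀ Y ⊆ X, Y.card = 2 ^ s → v (G Y) ≤ v 2 ^ k * B) → v (G ∅) ≤ v 2 ^ k * B

/-- row REPL: replacing blocks of primes by others -/
def ReplStatement : Prop :=
  ∀ (ι : Type) [DecidableEq ι] (v : AbsoluteValue ℂ ℝ), Dyadic v → ∀ (T : Finset ℕ) (B : ℝ)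
    (F : Finset ℕ → ℂ), 0 ≤ B → Lip v T B F → ∀ (X : Finset ι) (a b : ι → Finset ℕ)
    (D : Finset ℕ), D ⊆ T →
    (∀ i ∈ X, a i ⊆ T ∧ b i ⊆ T ∧ Disjoint D (a i) ∧ Disjoint D (b i)) →
    (∀ i ∈ X, ∀ j ∈ X, i ≠ j → Disjoint (a i ∪ b i) (a j ∪ b j)) →
    GLip v X B (fun Y => F (D ∪ (X \ Y).biUnion a ∪ Y.biUnion b))

/-- row SYS: the basic system of sets (from BIN twice and REPL) -/
def SysStatement : Prop :=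
  ∀ (v : AbsoluteValue ℂ ℝ), Dyadic v → ∀ (P : Set ℕ) (B : ℝ) (ℓ : Finset ℕ → ℝ),
    0 ≤ B → HasLip v P B ℓ → ∀ (k : ℕ) (C : Finset ℕ), (C : Set ℕ) ⊆ P → v 2 ^ k * B < ℓ C →
    ∀ (a : Fin (2 ^ (k + 2) - 1) → ℕ)
      (b : Finset (Fin (2 ^ (k + 2) - 1)) → Fin (2 ^ (k + 2) - 1) → ℕ),
    (∀ i, a i ∈ P ∧ a i ∉ C) → (∀ S i, b S i ∈ P ∧ b S i ∉ C) →
    (∀ i j, i ≠ j → a i ≠ a j ∧ ∀ S, a i ≠ b S j ∧ ∀ S', b S i ≠ b S' j) →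
    ∃ S Y : Finset (Fin (2 ^ (k + 2) - 1)), Y ⊆ S ∧ S.card = 2 ^ (k + 1) ∧ Y.card = 2 ^ k ∧
      v 2 ^ k * B < ℓ (C ∪ (S \ Y).image a ∪ Y.image (b S))

/-- row SLOT: splitting `P` into disjoint sets -/
def SlotStatement : Prop :=
  ∀ P : Set ℕ, BDense P → ∀ R : ℕ, 0 < R →
    ∃ Q : ℕ → Set ℕ, (∀ i, Q i ⊆ P) ∧ (∀ i j, i ≠ j → Disjoint (Q i) (Q j)) ∧
      ∃ c : ℝ, 0 < c ∧ ∃ a₀ : ℕ, ∀ i < R, ∀ a : ℕ, a₀ ≤ a →
        c * 2 ^ a / (a + 1) ≤ ((Blk (Q i) a).card : ℝ)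

/-- the scale of the slot `i` -/
def scl {R H : ℕ} (M c A : ℕ) (S Y : Finset (Fin R)) (u : Fin R → Fin H) (i : Fin R) : ℤ :=
  (c : ℤ) + M * (u i : ℕ) - (if i ∈ Y then 2 * (c : ℤ) + (∑ j ∈ S, ((u j : ℕ) : ℤ)) - A else 0)

/-- row UCNT: total scale; number of parameters with given scales -/
def UcntStatement : Prop :=
  ∀ (R H M c A : ℕ) (S Y : Finset (Fin R)), 0 < M → Y ⊆ S → Y.card = M → S.card = 2 * M →
    (∀ u : Fin R → Fin H, ∑ i ∈ S, scl M c A S Y u i = M * A) ∧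
    ∀ α : Fin R → ℤ, ((Finset.univ : Finset (Fin R → Fin H)).filter
      (fun u => ∀ i ∈ S, scl M c A S Y u i = α i)).card ≤ H ^ (R + 1 - 2 * M)

/-- row TCNT -/
def TcntStatement : Prop :=
  ∀ (R N : ℕ) (S : Finset (Fin R)) (n x : Fin R → ℕ), 0 < N → (∀ i ∈ S, 0 < n i ∧ n i ∣ N) →
    ((Finset.univ : Finset (Fin R → Fin N)).filter
      (fun t => ∀ i ∈ S, (t i : ℕ) % n i = x i)).card * ∏ i ∈ S, n i ≤ N ^ R

/-- row AVG: many non-vanishing sets of large primes over every large base set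
(from SYS, SLOT, UCNT, TCNT) -/
def AvgStatement : Prop :=
  ∀ (v : AbsoluteValue ℂ ℝ), Dyadic v → ∀ (P : Set ℕ) (B : ℝ) (ℓ : Finset ℕ → ℝ),
    (∀ p ∈ P, p.Prime) → BDense P → 0 ≤ B → HasLip v P B ℓ → ∀ k : ℕ,
    ∃ c : ℝ, 0 < c ∧ ∃ A₀ : ℕ, ∀ A : ℕ, A₀ ≤ A → ∀ C : Finset ℕ, (C : Set ℕ) ⊆ P →
      (∀ p ∈ C, p < 2 ^ (A / 4)) → v 2 ^ k * B < ℓ C →
      ∃ W : Finset (Finset ℕ), c * 2 ^ (2 ^ k * A) / (A + 1) ≤ (W.card : ℝ) ∧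
        ∀ w ∈ W, (w : Set ℕ) ⊆ P ∧ (∀ p ∈ w, 2 ^ (A / 4) ≤ p) ∧
          ∏ p ∈ w, p ≤ 2 ^ (2 ^ k * A + 2 ^ (k + 1)) ∧ v 2 ^ k * B < ℓ (C ∪ w)

/-- row CHEB: upper bounds of Chebyshev and Mertens for sets of primes -/
def ChebStatement : Prop :=
  ∃ C : ℝ, 0 < C ∧ ∀ P : Set ℕ, (∀ p ∈ P, p.Prime) →
    (∀ n : ℕ, ∑ p ∈ Ps P n, Real.log p ≤ C * n) ∧
    (∀ n : ℕ, 2 ≤ n → ∑ p ∈ Ps P n, Real.log p / p ≤ C * Real.log n) ∧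
    (∀ K : ℝ, ∃ C' : ℝ, 0 < C' ∧ ∀ m n : ℕ, 2 ≤ m → Real.log n ≤ K * Real.log m →
      ∏ p ∈ Ps P n, (1 + 1 / (p : ℝ)) ≤ C' * ∏ p ∈ Ps P m, (1 + 1 / (p : ℝ)))

/-- row UPPER: upper bound for the whole family (from CHEB) -/
def UpperStatement : Prop :=
  ∀ P : Set ℕ, (∀ p ∈ P, p.Prime) → ∃ C : ℝ, 0 < C ∧ ∀ X : ℕ, 1 ≤ X →
      ((Fm P X).card : ℝ) * Real.log X ≤ C * X * ∏ p ∈ Ps P X, (1 + 1 / (p : ℝ))

open Classical in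
/-- row TRUNC: Reed-Muller with the weights `1 / p`, for sets with product at most `Y`
(from RMW, CHEB) -/
def TruncStatement : Prop :=
  ∀ (v : AbsoluteValue ℂ ℝ), Dyadic v → ∀ (P : Set ℕ) (B : ℝ) (ℓ : Finset ℕ → ℝ),
    (∀ p ∈ P, p.Prime) → 0 ≤ B → HasLip v P B ℓ → ∀ j : ℕ,
    v 2 ^ (j + 1) * B < ℓ ∅ → ∃ η : ℝ, 0 < η ∧ ∀ z Y : ℕ, 2 ≤ z → Real.log z ≤ η * Real.log Y →
      ∏ p ∈ Ps P z, (1 + 1 / (p : ℝ)) ≤ 2 ^ (j + 1) *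
        ∑ S ∈ (Ps P z).powerset.filter (fun S => ∏ p ∈ S, p ≤ Y ∧ v 2 ^ (j + 1) * B < ℓ S),
          1 / ((∏ p ∈ S, p : ℕ) : ℝ)

open Classical in
/-- row LOWER: lower bound for the non-vanishing part (from AVG, TRUNC, CHEB) -/
def LowerStatement : Prop :=
  ∀ (v : AbsoluteValue ℂ ℝ), Dyadic v → ∀ (P : Set ℕ) (B : ℝ) (ℓ : Finset ℕ → ℝ),
    (∀ p ∈ P, p.Prime) → BDense P → 0 ≤ B → HasLip v P B ℓ → 0 < ℓ ∅ →
    ∃ c : ℝ, 0 < c ∧ ∃ X₀ : ℕ, ∀ X : ℕ, X₀ ≤ X →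
      c * X * ∏ p ∈ Ps P X, (1 + 1 / (p : ℝ)) ≤
        (((Fm P X).filter (fun D => ℓ D.primeFactors ≠ 0)).card : ℝ) * Real.log X

open Classical in
/-- row LOW: positive lower natural density (from LOWER, UPPER) -/
def LowStatement : Prop :=
  ∀ (v : AbsoluteValue ℂ ℝ), Dyadic v → ∀ (P : Set ℕ) (B : ℝ) (ℓ : Finset ℕ → ℝ),
    (∀ p ∈ P, p.Prime) → BDense P → 0 ≤ B → HasLip v P B ℓ → 0 < ℓ ∅ →
    ∃ c : ℝ, 0 < c ∧ ∀ X : ℕ, 1 ≤ X → c * ((Fm P X).card : ℝ) ≤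
      (((Fm P X).filter (fun D => ℓ D.primeFactors ≠ 0)).card : ℝ)

/-- row SIGN: sign conditions (from Qtw.ProStatement) -/
def SignStatement : Prop :=
  ∀ (v : AbsoluteValue ℂ ℝ), Dyadic v → ∀ (P : Set ℕ) (B : ℝ) (ℓ : Finset ℕ → ℝ),
    0 ≤ B → HasLip v P B ℓ → ∀ (e : ℕ) (ε : Fin e → ℕ → ℤ),
    (∀ t, ∀ p ∈ P, ε t p = 1 ∨ ε t p = -1) →
    HasLip v P (B / v 2 ^ e) (fun S => if ∀ t, ∏ p ∈ S, ε t p = 1 then ℓ S else 0)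

/-- `P` has positive lower density in the set of primes, in dyadic intervals -/
def Dense (P : Set ℕ) : Prop :=
  ∃ c : ℝ, 0 < c ∧ ∃ n₀ : ℕ, ∀ n : ℕ, n₀ ≤ n →
    c * n / Real.log n ≤ (({p | p ∈ P ∧ n < p ∧ p ≤ 2 * n} : Set ℕ).ncard : ℝ)

/-- row DNS -/
def DnsStatement : Prop := ∀ P : Set ℕ, (∀ p ∈ P, p.Prime) → Dense P → BDense P

/-- `p` is a good prime for the forms with coefficients `a i`, the levels `N i`, and the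
characters `ψ i` modulo `q i` -/
def Good {r : ℕ} (N q : Fin r → ℕ) (a : Fin r → ℕ → ℂ) (ψ : ∀ i, DirichletCharacter ℂ (q i))
    (v : AbsoluteValue ℂ ℝ) (p : ℕ) : Prop :=
  p.Prime ∧ p ≠ 2 ∧ ∀ i, ¬ p ∣ N i * q i ∧ v (a i p) ≤ 1 ∧
    v (1 - a i p * ψ i (p : ZMod (q i)) + ψ i (p : ZMod (q i)) ^ 2) = 1

/-- row QSYS: the central values (from the rows of QTW) -/
def QsysStatement : Prop :=
  ∀ (r : ℕ) (N κ q : Fin r → ℕ)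
    (f : ∀ i, CuspForm (CongruenceSubgroup.Gamma0 (N i)) (2 * (κ i : ℤ)))
    (a : Fin r → ℕ → ℂ) (ψ : ∀ i, DirichletCharacter ℂ (q i)),
    (∀ i, 0 < N i ∧ 0 < κ i ∧ 0 < q i ∧ Eigen (N i) (κ i) (f i) (a i)) →
    (∀ i, NonVan (κ i) (fun n => a i n * ψ i (n : ZMod (q i)))) →
    ∀ v : AbsoluteValue ℂ ℝ, Dyadic v →
    ∃ (B : ℝ) (ℓ : Finset ℕ → ℝ), 0 ≤ B ∧ 0 < ℓ ∅ ∧
      (∀ S : Finset ℕ, (∀ p ∈ S, Good N q a ψ v p) → ℓ S ≠ 0 →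
        ∀ i, NonVan (κ i) (fun n => a i n * ψ i (n : ZMod (q i)) *
          (jacobiSym (n : ℤ) (∏ p ∈ S, p) : ℂ))) ∧
      HasLip v {p | Good N q a ψ v p} B ℓ

open Classical in
/-- THE FINAL THEOREM over `ℚ` -/
def FinalStatement : Prop :=
  ∀ (r : ℕ) (N κ q : Fin r → ℕ)
    (f : ∀ i, CuspForm (CongruenceSubgroup.Gamma0 (N i)) (2 * (κ i : ℤ)))
    (a : Fin r → ℕ → ℂ) (ψ : ∀ i, DirichletCharacter ℂ (q i)),
    (∀ i, 0 < N i ∧ 0 < κ i ∧ 0 < q i ∧ Eigen (N i) (κ i) (f i) (a i)) →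
    (∀ i, NonVan (κ i) (fun n => a i n * ψ i (n : ZMod (q i)))) →
    ∀ v : AbsoluteValue ℂ ℝ, Dyadic v →
    -- every finite set of good primes, all weights, sign conditions
    (∃ d : ℕ, ∀ T : Finset ℕ, (∀ p ∈ T, Good N q a ψ v p) →
      ∀ (e : ℕ) (ε : Fin e → ℕ → ℤ), (∀ t, ∀ p ∈ T, ε t p = 1 ∨ ε t p = -1) →
      ∀ w : ℕ → ℝ, (∀ p ∈ T, 0 ≤ w p ∧ w p ≤ 1) →
        ∏ p ∈ T, (1 + w p) ≤ 2 ^ (d + e) * ∑ S ∈ T.powerset,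
          if (∀ t, ∏ p ∈ S, ε t p = 1) ∧
            ∀ i, NonVan (κ i) (fun n => a i n * ψ i (n : ZMod (q i)) *
              (jacobiSym (n : ℤ) (∏ p ∈ S, p) : ℂ))
          then ∏ p ∈ S, w p else 0) ∧
    -- positive lower natural density
    (∀ P : Set ℕ, (∀ p ∈ P, Good N q a ψ v p) → Dense P →
      ∀ (e : ℕ) (ε : Fin e → ℕ → ℤ), (∀ t, ∀ p ∈ P, ε t p = 1 ∨ ε t p = -1) →
      ∃ c : ℝ, 0 < c ∧ ∀ X : ℕ, 1 ≤ X → c * ((Fm P X).card : ℝ) ≤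
        (((Fm P X).filter (fun D => (∀ t, ∏ p ∈ D.primeFactors, ε t p = 1) ∧
          ∀ i, NonVan (κ i) (fun n => a i n * ψ i (n : ZMod (q i)) *
            (jacobiSym (n : ℤ) D : ℂ)))).card : ℝ))

end

end Pool.Agent.Lib.MP_50bb2e_nt.Low
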