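import Pool.Agent.Lib.MP_50bb2e_nt.Low.Iface

/-!
MP_50bb2e_nt, board LOW, second version (helper94): blocks `[b^a, b^(a+1))` for any base `b`, so
that the condition on the set `P` of primes is only: positive lower relative density, that is
`#{p ∈ P, p ≤ n} ≥ c n / log n` for all large `n`.
-/

namespace Pool.Agent.Lib.MP_50bb2e_nt.Low

open Pool.Agent.Lib.MP_50bb2e_nt.Qtw (Dyadic Lip Dif Eigen CV NonVan)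

noncomputable section

open Classical in
/-- the elements of `P` in `[b^a, b^(a+1))` -/
def BlkB (b : ℕ) (P : Set ℕ) (a : ℕ) : Finset ℕ :=
  (Finset.Ico (b ^ a) (b ^ (a + 1))).filter (fun p => p ∈ P)

/-- lower bound of Chebyshev in the blocks with base `b` -/
def BD (b : ℕ) (P : Set ℕ) : Prop :=
  ∃ c : ℝ, 0 < c ∧ ∃ a₀ : ℕ, ∀ a : ℕ, a₀ ≤ a →
    c * (b : ℝ) ^ a / (a + 1) ≤ ((BlkB b P a).card : ℝ)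

/-- row SLOTB: splitting `P` into disjoint sets -/
def SlotBStatement : Prop :=
  ∀ (b : ℕ) (P : Set ℕ), 2 ≤ b → BD b P → ∀ R : ℕ, 0 < R →
    ∃ Q : ℕ → Set ℕ, (∀ i, Q i ⊆ P) ∧ (∀ i j, i ≠ j → Disjoint (Q i) (Q j)) ∧
      ∃ c : ℝ, 0 < c ∧ ∃ a₀ : ℕ, ∀ i < R, ∀ a : ℕ, a₀ ≤ a →
        c * (b : ℝ) ^ a / (a + 1) ≤ ((BlkB b (Q i) a).card : ℝ)

/-- row AVGB (from SYS, SLOTB, UCNT, TCNT) -/
def AvgBStatement : Prop :=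
  ∀ (b : ℕ) (v : AbsoluteValue ℂ ℝ), 2 ≤ b → Dyadic v → ∀ (P : Set ℕ) (B : ℝ)
    (ℓ : Finset ℕ → ℝ), (∀ p ∈ P, p.Prime) → BD b P → 0 ≤ B → HasLip v P B ℓ → ∀ k : ℕ,
    ∃ c : ℝ, 0 < c ∧ ∃ A₀ : ℕ, ∀ A : ℕ, A₀ ≤ A → ∀ C : Finset ℕ, (C : Set ℕ) ⊆ P →
      (∀ p ∈ C, p < b ^ (A / 4)) → v 2 ^ k * B < ℓ C →
      ∃ W : Finset (Finset ℕ), c * (b : ℝ) ^ (2 ^ k * A) / (A + 1) ≤ (W.card : ℝ) ∧
        ∀ w ∈ W, (w : Set ℕ) ⊆ P ∧ (∀ p ∈ w, b ^ (A / 4) ≤ p) ∧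
          ∏ p ∈ w, p ≤ b ^ (2 ^ k * A + 2 ^ (k + 1)) ∧ v 2 ^ k * B < ℓ (C ∪ w)

open Classical in
/-- row LOWERB (from AVGB, TRUNC, CHEB) -/
def LowerBStatement : Prop :=
  ∀ (b : ℕ) (v : AbsoluteValue ℂ ℝ), 2 ≤ b → Dyadic v → ∀ (P : Set ℕ) (B : ℝ)
    (ℓ : Finset ℕ → ℝ), (∀ p ∈ P, p.Prime) → BD b P → 0 ≤ B → HasLip v P B ℓ → 0 < ℓ ∅ →
    ∃ c : ℝ, 0 < c ∧ ∃ X₀ : ℕ, ∀ X : ℕ, X₀ ≤ X →
      c * X * ∏ p ∈ Ps P X, (1 + 1 / (p : ℝ)) ≤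
        (((Fm P X).filter (fun D => ℓ D.primeFactors ≠ 0)).card : ℝ) * Real.log X

/-- `P` has positive lower relative density in the set of primes -/
def LDense (P : Set ℕ) : Prop :=
  ∃ c : ℝ, 0 < c ∧ ∃ n₀ : ℕ, ∀ n : ℕ, n₀ ≤ n →
    c * n / Real.log n ≤ (({p | p ∈ P ∧ p ≤ n} : Set ℕ).ncard : ℝ)

/-- row DNSB -/
def DnsBStatement : Prop := ∀ P : Set ℕ, (∀ p ∈ P, p.Prime) → LDense P → ∃ b : ℕ, 2 ≤ b ∧ BD b P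

open Classical in
/-- row LOWB (from LOWERB, UPPER, DNSB; helper94) -/
def LowBStatement : Prop :=
  ∀ (v : AbsoluteValue ℂ ℝ), Dyadic v → ∀ (P : Set ℕ) (B : ℝ) (ℓ : Finset ℕ → ℝ),
    (∀ p ∈ P, p.Prime) → LDense P → 0 ≤ B → HasLip v P B ℓ → 0 < ℓ ∅ →
    ∃ c : ℝ, 0 < c ∧ ∀ X : ℕ, 1 ≤ X → c * ((Fm P X).card : ℝ) ≤
      (((Fm P X).filter (fun D => ℓ D.primeFactors ≠ 0)).card : ℝ)

end

end Pool.Agent.Lib.MP_50bb2e_nt.Low
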