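import Pool.Agent.Lib.MP_50bb2e_nt.Low.Iface
import Pool.Agent.Lib.MP_50bb2e_nt.Qtw.Fin

/-! Board LOW, row RMW. -/

namespace Pool.Agent.Lib.MP_50bb2e_nt.Low.Rmw

open Pool.Agent.Lib.MP_50bb2e_nt.Qtw Pool.Agent.Lib.MP_50bb2e_nt.Low

theorem rmw_proof : RmwStatement := by
  classical
  intro v hv P B ℓ hB hP j hj T hT w hw
  refine (Fin.weights (fun S => v 2 ^ (j + 1) * B < ℓ S) T j w hw fun R hR => ?_).trans ?_
  · obtain ⟨F, hF, hS⟩ := hP R (fun x hx => hT (hR hx))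
    have h1 : v 2 ^ (j + 1) * B < v (F ∅) := by
      rw [hS ∅ (Finset.empty_subset _)]; exact hj
    refine (Ree.ree_aux hv R B F j hB hF ⟨∅, Finset.empty_subset _, h1⟩).trans
      (Nat.mul_le_mul_left _ ?_)
    unfold Ree.cnt
    refine Finset.card_le_card fun S hS' => ?_
    rw [Finset.mem_filter] at hS' ⊢
    refine ⟨hS'.1, ?_⟩
    rw [← hS S (Finset.mem_powerset.1 hS'.1)]
    exact hS'.2
  · exact le_rfl

end Pool.Agent.Lib.MP_50bb2e_nt.Low.Rmw
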