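import Pool.Agent.Lib.MP_50bb2e_nt.Low.Iface

/-!
MP_50bb2e_nt, board LOW, row SLOT (helper27): splitting a set of numbers into classes by the rank
modulo `R`.
-/

namespace Pool.Agent.Lib.MP_50bb2e_nt.Low.Slot

open Pool.Agent.Lib.MP_50bb2e_nt.Low

noncomputable section

open Classical in
/-- the elements of `P` of rank congruent to `i` modulo `R` -/
def Qs (P : Set ℕ) (R i : ℕ) : Set ℕ := {p | p ∈ P ∧ Nat.count (· ∈ P) p % R = i}

theorem two_pow_ge (a : ℕ) : (a + 1) ^ 2 ≤ 4 * 2 ^ a := by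
  induction a with
  | zero => norm_num
  | succ n ih =>
    rcases Nat.lt_or_ge n 2 with h | h
    · interval_cases n <;> norm_num
    · have h1 : (n + 1 + 1) ^ 2 ≤ 2 * (n + 1) ^ 2 := by nlinarith
      calc (n + 1 + 1) ^ 2 ≤ 2 * (n + 1) ^ 2 := h1
        _ ≤ 2 * (4 * 2 ^ n) := by omega
        _ = 4 * 2 ^ (n + 1) := by ring

open Classical in
theorem card_blk (P : Set ℕ) (a : ℕ) :
    Nat.count (· ∈ P) (2 ^ a) + (Blk P a).card = Nat.count (· ∈ P) (2 ^ (a + 1)) := by
  rw [Nat.count_eq_card_filter_range, Nat.count_eq_card_filter_range, ← Finset.card_union_of_disjoint]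
  · congr 1
    ext x
    simp only [Blk, Finset.mem_union, Finset.mem_filter, Finset.mem_range, Finset.mem_Ico]
    have : 2 ^ a ≤ 2 ^ (a + 1) := Nat.pow_le_pow_right (by norm_num) (by omega)
    constructor
    · rintro (⟨h1, h2⟩ | ⟨⟨h1, h2⟩, h3⟩)
      · exact ⟨by omega, h2⟩
      · exact ⟨h2, h3⟩
    · rintro ⟨h1, h2⟩
      rcases Nat.lt_or_ge x (2 ^ a) with h | h
      · exact Or.inl ⟨h, h2⟩
      · exact Or.inr ⟨⟨h, h1⟩, h2⟩
  · rw [Finset.disjoint_left]
    intro x h1 h2
    simp only [Blk, Finset.mem_filter, Finset.mem_range, Finset.mem_Ico] at h1 h2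
    omega

open Classical in
theorem card_q (P : Set ℕ) (hP : P.Infinite) (R i a : ℕ) (hR : 0 < R) (hi : i < R) :
    (Blk P a).card / R ≤ (Blk (Qs P R i) a).card := by
  set m := Nat.count (· ∈ P) (2 ^ a) with hm
  set n := (Blk P a).card with hn
  have hmn : m + n = Nat.count (· ∈ P) (2 ^ (a + 1)) := card_blk P a
  have hinf : (Set.ofPred (· ∈ P)).Infinite := hP
  set δ := (i + R * m - m) % R with hδ
  have hRm : m ≤ R * m := Nat.le_mul_of_pos_left m hR
  have hδR : δ < R := Nat.mod_lt _ hR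
  have hmod : ∀ k : ℕ, (m + δ + k * R) % R = i := by
    intro k
    rw [Nat.add_mul_mod_self_right, hδ, Nat.add_mod_mod]
    have : m + (i + R * m - m) = i + m * R := by
      rw [mul_comm m R]; omega
    rw [this, Nat.add_mul_mod_self_right, Nat.mod_eq_of_lt hi]
  rw [← Finset.card_range (n / R)]
  refine Finset.card_le_card_of_injOn (fun k => Nat.nth (· ∈ P) (m + δ + k * R)) ?_ ?_
  · intro k hk
    have hk' : k < n / R := by simpa using hk
    have hlt : m + δ + k * R < m + n := by
      have h1 : (k + 1) * R ≤ n := by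
        calc (k + 1) * R ≤ (n / R) * R := Nat.mul_le_mul_right _ hk'
          _ ≤ n := Nat.div_mul_le_self n R
      have h2 : (k + 1) * R = k * R + R := by ring
      omega
    simp only [Blk, Finset.coe_filter, Finset.mem_Ico, Set.mem_ofPred_eq]
    refine ⟨⟨?_, ?_⟩, ?_, ?_⟩
    · rw [← Nat.count_le_iff_le_nth hinf, ← hm]
      omega
    · by_contra hcon
      push Not at hcon
      rw [← Nat.count_le_iff_le_nth hinf, ← hmn] at hcon
      omega
    · exact Nat.nth_mem_of_infinite hinf _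
    · rw [Nat.count_nth_of_infinite hinf]
      exact hmod k
  · intro k _ l _ hkl
    have h1 := Nat.nth_injective hinf hkl
    have h2 : k * R = l * R := by omega
    exact Nat.eq_of_mul_eq_mul_right hR h2

theorem slot_proof : SlotStatement := by
  intro P hP R hR
  obtain ⟨c, hc, a₀, h⟩ := hP
  refine ⟨Qs P R, fun i p hp => hp.1, ?_, c / (2 * R), by positivity,
    max a₀ ⌈4 * R / c⌉₊, ?_⟩
  · intro i j hij
    rw [Set.disjoint_left]
    intro p h1 h2
    exact hij (h1.2.symm.trans h2.2)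
  · have hinf : P.Infinite := by
      intro hfin
      obtain ⟨N, hN⟩ := hfin.bddAbove
      have h1 := h (max a₀ (N + 1)) (le_max_left _ _)
      have h2 : (Blk P (max a₀ (N + 1))).card = 0 := by
        rw [Finset.card_eq_zero, Finset.eq_empty_iff_forall_notMem]
        intro p hp
        simp only [Blk, Finset.mem_filter, Finset.mem_Ico] at hp
        have h3 : p ≤ N := hN hp.2
        have h4 : N + 1 ≤ 2 ^ (N + 1) := Nat.lt_two_pow_self.le
        have h5 : 2 ^ (N + 1) ≤ 2 ^ (max a₀ (N + 1)) :=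
          Nat.pow_le_pow_right (by norm_num) (le_max_right _ _)
        omega
      rw [h2] at h1
      have h3 : 0 < c * 2 ^ (max a₀ (N + 1)) / (((max a₀ (N + 1) : ℕ) : ℝ) + 1) := by positivity
      simp only [Nat.cast_zero] at h1
      linarith
    intro i hi a ha
    have h1 := h a (le_trans (le_max_left _ _) ha)
    have h2 : (R : ℝ) ≤ (Blk P a).card := by
      refine le_trans ?_ h1
      have h3 : 4 * R / c ≤ (a : ℝ) := by
        calc 4 * R / c ≤ (⌈4 * R / c⌉₊ : ℝ) := Nat.le_ceil _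
          _ ≤ a := by exact_mod_cast le_trans (le_max_right _ _) ha
      have h4 : ((a : ℝ) + 1) ^ 2 ≤ 4 * 2 ^ a := by exact_mod_cast two_pow_ge a
      rw [le_div_iff₀ (by positivity)]
      rw [div_le_iff₀ hc] at h3
      have h5 : c * ((a : ℝ) + 1) ^ 2 ≤ c * (4 * 2 ^ a) := mul_le_mul_of_nonneg_left h4 hc.le
      nlinarith [mul_nonneg hc.le (by positivity : (0 : ℝ) ≤ (a : ℝ) + 1)]
    have h2' : R ≤ (Blk P a).card := by exact_mod_cast h2
    have h3 := card_q P hinf R i a hR hi
    have h4 : (Blk P a).card ≤ 2 * R * ((Blk P a).card / R) := by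
      have h5 : 1 ≤ (Blk P a).card / R := (Nat.one_le_div_iff hR).2 h2'
      have h6 := Nat.lt_div_mul_add hR (a := (Blk P a).card)
      nlinarith
    have h5 : ((Blk P a).card : ℝ) ≤ 2 * R * ((Blk (Qs P R i) a).card : ℝ) := by
      have : (Blk P a).card ≤ 2 * R * (Blk (Qs P R i) a).card :=
        le_trans h4 (Nat.mul_le_mul_left _ h3)
      exact_mod_cast this
    have hR' : (0 : ℝ) < 2 * R := by positivity
    calc c / (2 * R) * 2 ^ a / (a + 1) = (c * 2 ^ a / (a + 1)) / (2 * R) := by ring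
      _ ≤ ((Blk P a).card : ℝ) / (2 * R) := by gcongr
      _ ≤ ((Blk (Qs P R i) a).card : ℝ) := by
        rw [div_le_iff₀ hR']; linarith

end

end Pool.Agent.Lib.MP_50bb2e_nt.Low.Slot
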